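import Pool.Agent.H41.LU.Stmts

/-!
Project LU, part B2, module REA: all cliques and chains are realised.
-/

set_option autoImplicit false
set_option linter.unusedSectionVars false

open scoped BigOperators
open Finset

noncomputable section

namespace Pool.LU

section

variable {X V : Type} [AddCommGroup X] [Module ℝ X] [Fintype V] [DecidableEq V]

theorem bb_apply (w : V → X →ₗ[ℝ] ℝ) (φ : Finset V) (x : X) :
    bb w φ x = ∑ v ∈ φ, w v x := by
  rw [bb, LinearMap.sum_apply]

theorem ep_pos {δ : ℝ} (hδ : 0 < δ) (φ : Finset V) : 0 < ep δ φ := pow_pos hδ _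

theorem ep_univ (δ : ℝ) : ep δ (univ : Finset V) = 1 := by
  rw [ep, Finset.card_univ, Nat.sub_self, pow_zero]

theorem ep_le {δ : ℝ} (hδ : 0 < δ) (h1 : δ ≤ 1) {φ ψ : Finset V} (h : φ ⊂ ψ) :
    ep δ φ ≤ δ * ep δ ψ := by
  have h2 : φ.card < ψ.card := Finset.card_lt_card h
  have h3 : ψ.card ≤ Fintype.card V := Finset.card_le_univ ψ
  rw [ep, ep, ← pow_succ']
  exact pow_le_pow_of_le_one hδ.le h1 (by omega)

theorem exists_pos_lower {ι : Type} [Fintype ι] (p : ι → Prop) (f : ι → ℝ)
    (h : ∀ i, p i → 0 < f i) : ∃ c : ℝ, 0 < c ∧ c ≤ 1 ∧ ∀ i, p i → c ≤ f i := by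
  classical
  by_cases hs : (univ.filter p).Nonempty
  · obtain ⟨i, hi, hi'⟩ := Finset.exists_min_image (univ.filter p) f hs
    refine ⟨min 1 (f i), lt_min one_pos (h i (Finset.mem_filter.1 hi).2), min_le_left _ _, ?_⟩
    intro j hj
    exact (min_le_right _ _).trans (hi' j (Finset.mem_filter.2 ⟨Finset.mem_univ _, hj⟩))
  · refine ⟨1, one_pos, le_rfl, ?_⟩
    intro j hj
    exact absurd ⟨j, Finset.mem_filter.2 ⟨Finset.mem_univ _, hj⟩⟩ hs

theorem exists_upper {ι : Type} [Fintype ι] (f : ι → ℝ) : ∃ C : ℝ, 1 ≤ C ∧ ∀ i, f i ≤ C := by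
  refine ⟨1 + ∑ i, |f i|, ?_, ?_⟩
  · have : 0 ≤ ∑ i, |f i| := Finset.sum_nonneg fun i _ => abs_nonneg _
    linarith
  · intro i
    have : |f i| ≤ ∑ i, |f i| :=
      Finset.single_le_sum (f := fun i => |f i|) (fun i _ => abs_nonneg _) (Finset.mem_univ i)
    have h2 := le_abs_self (f i)
    linarith

theorem bb_mono {w : V → X →ₗ[ℝ] ℝ} {x : X} (hx : ∀ v, 0 ≤ w v x) {φ ψ : Finset V} (h : φ ⊆ ψ) :
    bb w φ x ≤ bb w ψ x := by
  rw [bb_apply, bb_apply]
  exact Finset.sum_le_sum_of_subset_of_nonneg h fun v _ _ => hx v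

end

theorem rea (hs : STRStmt) : REAStmt := by
  intro X V _ _ _ _ adj w hw hne
  classical
  have hX : ∀ φ : Finset V, ∃ x : X, IsF w φ → (∀ v ∈ φ, w v x = 0) ∧ ∀ v, v ∉ φ → 0 < w v x := by
    intro φ
    by_cases h : IsF w φ
    · obtain ⟨x, hx⟩ := h
      exact ⟨x, fun _ => hx⟩
    · exact ⟨0, fun h' => absurd h' h⟩
  choose pt hpt using hX
  have hnn : ∀ φ, IsF w φ → ∀ v, 0 ≤ w v (pt φ) := by
    intro φ hφ v
    by_cases hv : v ∈ φ
    · exact ((hpt φ hφ).1 v hv).ge
    · exact ((hpt φ hφ).2 v hv).le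
  obtain ⟨c0, hc0, hc1, hc⟩ := exists_pos_lower (ι := Finset V × V)
    (fun p => IsF w p.1 ∧ p.2 ∉ p.1) (fun p => w p.2 (pt p.1)) (fun p hp => (hpt _ hp.1).2 _ hp.2)
  obtain ⟨C1, hC1, hC⟩ := exists_upper (ι := Finset V) (fun φ => bb w univ (pt φ))
  have hC0 : 0 < C1 := by linarith
  set K : ℝ := 2 * C1 / c0 with hK
  have hK2 : 2 * C1 ≤ K := by
    rw [hK, le_div_iff₀ hc0]
    nlinarith
  have hKc : K * c0 = 2 * C1 := by
    rw [hK]
    field_simp
  have hKpos : 0 < K := by linarith
  refine ⟨min (1 / 2) (min (1 / (2 * K)) (c0 / (2 * C1))), by positivity, ?_⟩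
  intro δ hδ hδ0 σ c hσ hcE hcc
  have hd1 : δ ≤ 1 / 2 := (hδ0.trans_le (min_le_left _ _)).le
  have hd2 : δ ≤ 1 / (2 * K) :=
    (hδ0.trans_le ((min_le_right _ _).trans (min_le_left _ _))).le
  have hd3 : δ ≤ c0 / (2 * C1) :=
    (hδ0.trans_le ((min_le_right _ _).trans (min_le_right _ _))).le
  rw [le_div_iff₀ (by positivity)] at hd2 hd3
  have hle1 : δ ≤ 1 := by linarith
  -- the claim
  have claim : ∀ c : Finset (Finset V), (∀ φ ∈ c, IsE adj w φ ∧ σ ⊆ φ) →
      (∀ φ ∈ c, ∀ ψ ∈ c, φ ⊆ ψ ∨ ψ ⊆ φ) → ∃ (x : X) (m : Finset V), (∀ v, 0 ≤ w v x) ∧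
      (∀ v ∈ σ, w v x = 0) ∧ IsF w m ∧ σ ⊆ m ∧ (m = σ ∨ m ∈ c) ∧ (∀ ψ ∈ c, ψ ⊆ m) ∧
      (∀ ψ ∈ c, bb w ψ x = ep δ ψ) ∧ (∀ ψ, IsE adj w ψ → ψ ⊆ m → ep δ ψ ≤ bb w ψ x) ∧
      ∀ ψ, IsE adj w ψ → m ⊂ ψ → bb w univ x ≤ K * δ * ep δ ψ := by
    intro c
    induction c using Finset.induction_on_max_value (fun φ : Finset V => φ.card) with
    | empty =>
      intro _ _
      refine ⟨0, σ, fun v => by rw [map_zero], fun v _ => by rw [map_zero], (hs X V adj w hw σ hσ).1,
        subset_rfl, Or.inl rfl, fun ψ hψ => absurd hψ (Finset.notMem_empty _),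
        fun ψ hψ => absurd hψ (Finset.notMem_empty _), ?_, ?_⟩
      · intro ψ hψ hψ'
        exact absurd (fun u hu v hv huv => hσ u (hψ' hu) v (hψ' hv) huv) hψ.2
      · intro ψ hψ hψ'
        rw [map_zero]
        have := ep_pos hδ ψ
        positivity
    | insert φ c hφc hmax ih =>
      intro hE hch
      obtain ⟨x, m, hx0, hxσ, hmF, hσm, hmc, hcm, hxc, hxE, hxu⟩ :=
        ih (fun φ hφ => hE φ (Finset.mem_insert_of_mem hφ))
          (fun φ hφ ψ hψ => hch φ (Finset.mem_insert_of_mem hφ) ψ (Finset.mem_insert_of_mem hψ))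
      have hφ := hE φ (Finset.mem_insert_self _ _)
      have hmφ : m ⊂ φ := by
        rcases hmc with h | h
        · rw [h]
          refine Finset.ssubset_iff_subset_ne.2 ⟨hφ.2, ?_⟩
          rintro rfl
          exact hφ.1.2 hσ
        · have h1 := hch φ (Finset.mem_insert_self _ _) m (Finset.mem_insert_of_mem h)
          have h2 : m ≠ φ := by
            rintro rfl
            exact hφc h
          rcases h1 with h1 | h1
          · exact absurd (Finset.eq_of_subset_of_card_le h1 (hmax m h)).symm h2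
          · exact Finset.ssubset_iff_subset_ne.2 ⟨h1, h2⟩
      -- the value of `bb φ` at `pt m`
      obtain ⟨u, hu, hum⟩ := Finset.exists_of_ssubset hmφ
      have hge : c0 ≤ bb w φ (pt m) := by
        rw [bb_apply]
        refine (hc (m, u) ⟨hmF, hum⟩).trans ?_
        exact Finset.single_le_sum (f := fun v => w v (pt m)) (fun v _ => hnn m hmF v) hu
      have hpos : 0 < bb w φ (pt m) := lt_of_lt_of_le hc0 hge
      have hleC : bb w φ (pt m) ≤ C1 :=
        (bb_mono (hnn m hmF) (Finset.subset_univ φ)).trans (hC m)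
      have hep := ep_pos hδ φ
      have hφx : bb w φ x ≤ K * δ * ep δ φ :=
        (bb_mono hx0 (Finset.subset_univ φ)).trans (hxu φ hφ.1 hmφ)
      have hφ0 : 0 ≤ bb w φ x := by
        rw [bb_apply]
        exact Finset.sum_nonneg fun v _ => hx0 v
      have hKd : K * δ ≤ 1 / 2 := by linarith
      set s : ℝ := (ep δ φ - bb w φ x) / bb w φ (pt m) with hsdef
      have hsm : s * bb w φ (pt m) = ep δ φ - bb w φ x := by
        rw [hsdef]
        field_simp
      have hhalf : ep δ φ / 2 ≤ ep δ φ - bb w φ x := by nlinarith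
      have hs0 : 0 < s := by
        rw [hsdef]
        apply div_pos _ hpos
        linarith
      have hs1 : ep δ φ / 2 ≤ s * C1 := by nlinarith
      have hs2 : s * c0 ≤ ep δ φ := by nlinarith
      refine ⟨x + s • pt m, φ, ?_, ?_, hφ.1.1, hφ.2, Or.inr (Finset.mem_insert_self _ _), ?_, ?_,
        ?_, ?_⟩
      · intro v
        rw [map_add, map_smul, smul_eq_mul]
        have := hnn m hmF v
        have := hx0 v
        positivity
      · intro v hv
        rw [map_add, map_smul, hxσ v hv, (hpt m hmF).1 v (hσm hv), smul_zero, add_zero]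
      · intro ψ hψ
        rcases Finset.mem_insert.1 hψ with h | h
        · rw [h]
        · exact (hcm ψ h).trans hmφ.1
      · intro ψ hψ
        rw [map_add, map_smul, smul_eq_mul]
        rcases Finset.mem_insert.1 hψ with h | h
        · rw [h, hsm]
          ring
        · rw [hxc ψ h, bb_apply w ψ (pt m), Finset.sum_eq_zero, mul_zero, add_zero]
          intro v hv
          exact (hpt m hmF).1 v (hcm ψ h hv)
      · intro ψ hψ hψφ
        rw [map_add, map_smul, smul_eq_mul]
        have h0 : 0 ≤ bb w ψ x := by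
          rw [bb_apply]
          exact Finset.sum_nonneg fun v _ => hx0 v
        have h0' : 0 ≤ bb w ψ (pt m) := by
          rw [bb_apply]
          exact Finset.sum_nonneg fun v _ => hnn m hmF v
        by_cases h1 : ψ ⊆ m
        · have := hxE ψ hψ h1
          have : 0 ≤ s * bb w ψ (pt m) := by positivity
          linarith
        · by_cases h2 : ψ = φ
          · rw [h2, hsm]
            linarith
          · have h3 : ψ ⊂ φ := Finset.ssubset_iff_subset_ne.2 ⟨hψφ, h2⟩
            obtain ⟨v, hv, hvm⟩ := Finset.not_subset.1 h1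
            have h4 : c0 ≤ bb w ψ (pt m) := by
              rw [bb_apply]
              refine (hc (m, v) ⟨hmF, hvm⟩).trans ?_
              exact Finset.single_le_sum (f := fun v => w v (pt m)) (fun v _ => hnn m hmF v) hv
            have h5 := ep_le hδ hle1 h3
            have h6 : s * c0 ≤ s * bb w ψ (pt m) := mul_le_mul_of_nonneg_left h4 hs0.le
            have h7 : δ * ep δ φ ≤ s * c0 := by
              have h8 : δ * (2 * C1) * (s * C1) ≤ c0 * (s * C1) :=
                mul_le_mul_of_nonneg_right hd3 (by positivity)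
              have h9 : δ * (2 * C1) * (ep δ φ / 2) ≤ δ * (2 * C1) * (s * C1) :=
                mul_le_mul_of_nonneg_left hs1 (by positivity)
              have h10 : C1 * (δ * ep δ φ) ≤ C1 * (s * c0) := by nlinarith
              exact le_of_mul_le_mul_left h10 hC0
            linarith
      · intro ψ hψ hφψ
        rw [map_add, map_smul, smul_eq_mul]
        have h1 := ep_le hδ hle1 hφψ
        have h2 := hxu φ hφ.1 hmφ
        have h3 : s * bb w univ (pt m) ≤ s * C1 := mul_le_mul_of_nonneg_left (hC m) hs0.le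
        have h4 : s * C1 ≤ K / 2 * ep δ φ := by
          have h5 : s * (K * c0) ≤ K * ep δ φ := by nlinarith
          rw [hKc] at h5
          linarith
        have h6 : K * δ * ep δ φ ≤ 1 / 2 * ep δ φ := mul_le_mul_of_nonneg_right hKd hep.le
        have h7 : bb w univ x + s * bb w univ (pt m) ≤ K * ep δ φ := by nlinarith
        have h8 : K * ep δ φ ≤ K * (δ * ep δ ψ) := mul_le_mul_of_nonneg_left h1 hKpos.le
        linarith
  have huF : IsE adj w univ := by
    refine ⟨⟨0, fun v _ => by rw [map_zero], fun v hv => absurd (Finset.mem_univ v) hv⟩, ?_⟩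
    intro h
    obtain ⟨u, v, huv, h2⟩ := hne
    exact h2 (h u (Finset.mem_univ _) v (Finset.mem_univ _) huv)
  obtain ⟨x, m, hx0, hxσ, hmF, hσm, hmc, hcm, hxc, hxE, hxu⟩ := claim (insert univ c) (by
    intro φ hφ
    rcases Finset.mem_insert.1 hφ with h | h
    · rw [h]
      exact ⟨huF, Finset.subset_univ _⟩
    · exact hcE φ h) (by
    intro φ hφ ψ hψ
    rcases Finset.mem_insert.1 hφ with h | h
    · rw [h]
      exact Or.inr (Finset.subset_univ _)
    · rcases Finset.mem_insert.1 hψ with h' | h'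
      · rw [h']
        exact Or.inl (Finset.subset_univ _)
      · exact hcc φ h ψ h')
  have hm : m = univ := Finset.univ_subset_iff.1 (hcm univ (Finset.mem_insert_self _ _))
  refine ⟨x, ⟨hx0, ?_, ?_⟩, hxσ, fun φ hφ => hxc φ (Finset.mem_insert_of_mem hφ)⟩
  · rw [hxc univ (Finset.mem_insert_self _ _), ep_univ]
  · intro φ hφ
    exact hxE φ hφ (by rw [hm]; exact Finset.subset_univ _)

end Pool.LU
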