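import Pool.Agent.H4.LU.ACT
import Pool.Agent.H4.LU.CLO
import Pool.Agent.H4.LU.FAR
import Pool.Agent.H4.LU.STR
import Pool.Agent.H22.LU.COR
import Pool.Agent.H22.LU.IND
import Pool.Agent.H88.LU.ASM
import Pool.Agent.H41.LU.REA

/-!
Project LU, part B2: vectors with the condition (*) give a simple polytope with flag nerve.
-/

namespace Pool.LU

theorem b2_main : B2Stmt :=
  b2_asm (str far) (act (clo far)) (rea (str far)) (ind (str far)) cor

end Pool.LU
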