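import Pool.Agent.H3.LU.BDefs

/-!
Project LU, part C: the nerve of a simple polytope is a homology sphere and its links are homology
spheres. Definitions and statements.
-/

set_option autoImplicit false
set_option linter.unusedVariables false

open scoped BigOperators
open Finset

noncomputable section

namespace Pool.LU

/-- Combinatorial data of a generic linear functional `c` on a simple polytope of dimension `n`
with nerve `T`: `R m` is the set of those `v ∈ m` for which `c` decreases along the edge at the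
vertex `m` leaving the facet `v`. -/
structure Morse {V : Type} [DecidableEq V] (T : Finset V → Prop) (n : ℕ)
    (R : Finset V → Finset V) (c : Finset V → ℝ) : Prop where
  down : ∀ s t, T t → s ⊆ t → T s
  card_le : ∀ t, T t → t.card ≤ n
  sub : ∀ m, T m → m.card = n → R m ⊆ m
  lo_ex : ∀ t, T t → ∃ m, T m ∧ m.card = n ∧ t ⊆ m ∧ R m ⊆ t
  lo_lt : ∀ t m, T m → m.card = n → t ⊆ m → R m ⊆ t → ∀ m', T m' → m'.card = n → t ⊆ m' →
    m' ≠ m → c m < c m'
  hi_ex : ∀ t, T t → ∃ m, T m ∧ m.card = n ∧ t ⊆ m ∧ m ⊆ t ∪ R m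
  hi_lt : ∀ t m, T m → m.card = n → t ⊆ m → m ⊆ t ∪ R m → ∀ m', T m' → m'.card = n → t ⊆ m' →
    m' ≠ m → c m' < c m

/-- GEO: every simple polytope has such data. -/
def GEOStmt : Prop := ∀ (n : ℕ) (V : Type) [Fintype V] [DecidableEq V] (P : SPoly n V), P.Good →
  ∃ (R : Finset V → Finset V) (c : Finset V → ℝ),
    Morse (fun t : Finset V => P.Face (t : Set V)) n R c

/-- incidence numbers -/
structure Sgn {V : Type} [DecidableEq V] (sg : V → Finset V → ℤ) : Prop where
  unit : ∀ v τ, v ∉ τ → sg v τ = 1 ∨ sg v τ = -1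
  anti : ∀ u v τ, u ≠ v → u ∉ τ → v ∉ τ →
    sg u τ * sg v (insert u τ) = - (sg v τ * sg u (insert v τ))

/-- the boundary of the chain `y`, with coefficients in `M` -/
def bdr {V M : Type} [Fintype V] [DecidableEq V] [AddCommGroup M] (sg : V → Finset V → ℤ)
    (y : Finset V → M) (τ : Finset V) : M := ∑ v ∈ univ \ τ, sg v τ • y (insert v τ)

/-- `y` is supported by the faces of size `k` which contain `s` -/
def SuppS {V M : Type} [DecidableEq V] [AddCommGroup M] (T : Finset V → Prop) (s : Finset V)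
    (k : ℕ) (y : Finset V → M) : Prop := ∀ t, y t ≠ 0 → T t ∧ s ⊆ t ∧ t.card = k

/-- Exactness of the complexes of the faces containing `s` in the degrees `< n`. -/
def ExactS {V : Type} [Fintype V] [DecidableEq V] (T : Finset V → Prop) (n : ℕ)
    (sg : V → Finset V → ℤ) : Prop :=
  ∀ (M : Type) [AddCommGroup M] (s : Finset V) (k : ℕ), T s → k < n → ∀ y : Finset V → M,
    SuppS T s k y → (∀ τ, s ⊆ τ → bdr sg y τ = 0) →
    ∃ z : Finset V → M, SuppS T s (k + 1) z ∧ ∀ τ, s ⊆ τ → bdr sg z τ = y τ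

/-- Fundamental cycle: `ε` is a cycle with values `±1` on the faces of size `n`, and every cycle
of the complex of the faces containing `s` in degree `n` is a multiple of `ε`. -/
structure FundS {V : Type} [Fintype V] [DecidableEq V] (T : Finset V → Prop) (n : ℕ)
    (sg : V → Finset V → ℤ) (ε : Finset V → ℤ) : Prop where
  supp : ∀ t, ε t ≠ 0 → T t ∧ t.card = n
  unit : ∀ t, T t → t.card = n → ε t = 1 ∨ ε t = -1
  cyc : ∀ τ, bdr sg ε τ = 0
  top : ∀ (M : Type) [AddCommGroup M] (s : Finset V), T s → ∀ y : Finset V → M,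
    SuppS T s n y → (∀ τ, s ⊆ τ → bdr sg y τ = 0) → ∃ m : M, ∀ t, s ⊆ t → y t = ε t • m

/-- EXA -/
def EXAStmt : Prop := ∀ (n : ℕ) (V : Type) [Fintype V] [DecidableEq V] (T : Finset V → Prop)
  (R : Finset V → Finset V) (c : Finset V → ℝ) (sg : V → Finset V → ℤ), Morse T n R c → Sgn sg →
  ExactS T n sg

/-- EPS -/
def EPSStmt : Prop := ∀ (n : ℕ) (V : Type) [Fintype V] [DecidableEq V] (T : Finset V → Prop)
  (R : Finset V → Finset V) (c : Finset V → ℝ) (sg : V → Finset V → ℤ), Morse T n R c → Sgn sg →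
  ∃ ε, FundS T n sg ε

/-- SPH: the nerve of a simple polytope is a homology sphere, with all its links -/
def SPHStmt : Prop := ∀ (n : ℕ) (V : Type) [Fintype V] [DecidableEq V] (P : SPoly n V)
  (sg : V → Finset V → ℤ), P.Good → Sgn sg →
  ExactS (fun t : Finset V => P.Face (t : Set V)) n sg ∧
  ∃ ε, FundS (fun t : Finset V => P.Face (t : Set V)) n sg ε

theorem sph (h1 : GEOStmt) (h2 : EXAStmt) (h3 : EPSStmt) : SPHStmt := by
  intro n V _ _ P sg hP hsg
  obtain ⟨R, c, hM⟩ := h1 n V P hP
  exact ⟨h2 n V _ R c sg hM hsg, h3 n V _ R c sg hM hsg⟩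

end Pool.LU
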