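import Pool.Agent.H41.LU.SphDefs

/-!
Project LU, part C, modules EXA and EPS: exactness and fundamental cycle from Morse data.
-/

set_option autoImplicit false
set_option linter.unusedSectionVars false

open scoped BigOperators
open Finset

noncomputable section

namespace Pool.LU

section

variable {V : Type} [Fintype V] [DecidableEq V] {T : Finset V → Prop} {n : ℕ}
  {R : Finset V → Finset V} {c : Finset V → ℝ} {sg : V → Finset V → ℤ}

theorem Sgn.mul_self (h : Sgn sg) {v : V} {τ : Finset V} (hv : v ∉ τ) : sg v τ * sg v τ = 1 := by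
  rcases h.unit v τ hv with h | h <;> rw [h] <;> norm_num

theorem bdr_add {M : Type} [AddCommGroup M] (y z : Finset V → M) (τ : Finset V) :
    bdr sg (fun t => y t + z t) τ = bdr sg y τ + bdr sg z τ := by
  rw [bdr, bdr, bdr, ← Finset.sum_add_distrib]
  exact Finset.sum_congr rfl fun v _ => smul_add _ _ _

theorem bdr_sub {M : Type} [AddCommGroup M] (y z : Finset V → M) (τ : Finset V) :
    bdr sg (fun t => y t - z t) τ = bdr sg y τ - bdr sg z τ := by
  rw [bdr, bdr, bdr, ← Finset.sum_sub_distrib]
  exact Finset.sum_congr rfl fun v _ => smul_sub _ _ _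

theorem bdr_bdr (hsg : Sgn sg) {M : Type} [AddCommGroup M] (z : Finset V → M) (τ : Finset V) :
    bdr sg (bdr sg z) τ = 0 := by
  have h1 : bdr sg (bdr sg z) τ = ∑ p ∈ ((univ \ τ) ×ˢ (univ \ τ)).filter (fun p => p.1 ≠ p.2),
      (sg p.1 τ * sg p.2 (insert p.1 τ)) • z (insert p.2 (insert p.1 τ)) := by
    rw [bdr, Finset.sum_filter, Finset.sum_product]
    refine Finset.sum_congr rfl fun u hu => ?_
    rw [bdr, Finset.smul_sum]
    have h2 : univ \ insert u τ = (univ \ τ).filter (fun v => u ≠ v) := by
      ext v
      simp only [Finset.mem_sdiff, Finset.mem_univ, true_and, Finset.mem_insert,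
        Finset.mem_filter, not_or]
      constructor
      · rintro ⟨h, h'⟩
        exact ⟨h', fun h'' => h h''.symm⟩
      · rintro ⟨h, h'⟩
        exact ⟨fun h'' => h' h''.symm, h⟩
    rw [h2, Finset.sum_filter]
    refine Finset.sum_congr rfl fun v _ => ?_
    simp only
    split_ifs
    · rw [smul_smul]
    · rfl
  rw [h1]
  refine Finset.sum_involution (fun p _ => (p.2, p.1)) ?_ ?_ ?_ ?_
  · rintro ⟨u, v⟩ hp
    simp only [Finset.mem_filter, Finset.mem_product, Finset.mem_sdiff, Finset.mem_univ,
      true_and] at hp
    obtain ⟨⟨hu, hv⟩, huv⟩ := hp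
    simp only
    rw [hsg.anti u v τ huv hu hv, Finset.insert_comm u v τ, neg_smul, neg_add_cancel]
  · rintro ⟨u, v⟩ hp _ h
    simp only [Finset.mem_filter] at hp
    exact hp.2 (Prod.ext_iff.1 h).2
  · rintro ⟨u, v⟩ hp
    simp only [Finset.mem_filter, Finset.mem_product] at hp ⊢
    exact ⟨⟨hp.1.2, hp.1.1⟩, fun h => hp.2 h.symm⟩
  · rintro ⟨u, v⟩ _
    rfl

/-- the subcomplex generated by the facets in `L` -/
def InL (L : Finset (Finset V)) (t : Finset V) : Prop := ∃ m ∈ L, t ⊆ m

/-- The exactness on the levels: `L` is a set of facets closed under decreasing `c`. -/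
theorem lev (hM : Morse T n R c) (hsg : Sgn sg) {M : Type} [AddCommGroup M] {s : Finset V}
    (k : ℕ) : ∀ (N : ℕ) (L : Finset (Finset V)), L.card = N →
    (∀ m ∈ L, T m ∧ m.card = n) → (∀ m ∈ L, ∀ m', T m' → m'.card = n → c m' < c m → m' ∈ L) →
    (k < n ∨ ∀ m ∈ L, s ⊆ m → ¬ m ⊆ s ∪ R m) → ∀ y : Finset V → M,
    (∀ t, y t ≠ 0 → InL L t ∧ s ⊆ t ∧ t.card = k) → (∀ τ, s ⊆ τ → bdr sg y τ = 0) →
    ∃ z : Finset V → M, (∀ t, z t ≠ 0 → InL L t ∧ s ⊆ t ∧ t.card = k + 1) ∧
      ∀ τ, s ⊆ τ → bdr sg z τ = y τ := by
  intro N
  induction N with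
  | zero =>
    intro L hL _ _ _ y hy _
    rw [Finset.card_eq_zero] at hL
    refine ⟨0, fun t ht => absurd rfl ht, ?_⟩
    intro τ _
    have h1 : bdr sg (0 : Finset V → M) τ = 0 := by
      rw [bdr]
      exact Finset.sum_eq_zero fun v _ => smul_zero _
    rw [h1]
    by_contra h
    obtain ⟨⟨m, hm, -⟩, -⟩ := hy τ (fun h' => h h'.symm)
    rw [hL] at hm
    exact absurd hm (Finset.notMem_empty _)
  | succ N ih =>
    intro L hL hLf hLd hk y hy hyc
    have hne : L.Nonempty := by
      rw [← Finset.card_pos, hL]
      exact Nat.succ_pos _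
    obtain ⟨m, hm, hmax⟩ := Finset.exists_max_image L c hne
    have hmT := (hLf m hm).1
    have hmn := (hLf m hm).2
    -- the faces of the interval `[R m, m]` are in no other facet of `L`
    have key : ∀ t, R m ⊆ t → t ⊆ m → ∀ t', t ⊆ t' → InL L t' → t' ⊆ m := by
      rintro t h1 h2 t' h3 ⟨m', hm', h4⟩
      by_cases h : m' = m
      · rw [← h]
        exact h4
      · have h5 := hM.lo_lt t m hmT hmn h2 h1 m' (hLf m' hm').1 (hLf m' hm').2 (h3.trans h4) h
        exact absurd h5 (not_lt.mpr (hmax m' hm'))
    -- the faces of `m` which are not in the interval are in a facet of `L \ m`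
    have key2 : ∀ t, t ⊆ m → ¬ R m ⊆ t → InL (L.erase m) t := by
      intro t h1 h2
      obtain ⟨m', hm', hm'n, h3, h4⟩ := hM.lo_ex t (hM.down t m hmT h1)
      have hmm : m ≠ m' := by
        rintro rfl
        exact h2 h4
      have h5 := hM.lo_lt t m' hm' hm'n h3 h4 m hmT hmn h1 hmm
      exact ⟨m', Finset.mem_erase.2 ⟨hmm.symm, hLd m hm m' hm' hm'n h5⟩, h3⟩
    have hcard : (L.erase m).card = N := by
      rw [Finset.card_erase_of_mem hm, hL]
      rfl
    have hLf' : ∀ m' ∈ L.erase m, T m' ∧ m'.card = n := fun m' h =>
      hLf m' (Finset.mem_of_mem_erase h)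
    have hLd' : ∀ m' ∈ L.erase m, ∀ m'', T m'' → m''.card = n → c m'' < c m' →
        m'' ∈ L.erase m := by
      intro m' hm' m'' h1 h2 h3
      have h4 := Finset.mem_of_mem_erase hm'
      refine Finset.mem_erase.2 ⟨?_, hLd m' h4 m'' h1 h2 h3⟩
      rintro rfl
      exact absurd h3 (not_lt.mpr (hmax m' h4))
    have hk' : k < n ∨ ∀ m' ∈ L.erase m, s ⊆ m' → ¬ m' ⊆ s ∪ R m' :=
      hk.imp id fun h m' hm' => h m' (Finset.mem_of_mem_erase hm')
    have hmono : ∀ t, InL (L.erase m) t → InL L t := fun t ⟨m', h1, h2⟩ =>
      ⟨m', Finset.mem_of_mem_erase h1, h2⟩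
    by_cases hcrit : s ⊆ m ∧ ¬ m ⊆ s ∪ R m
    · obtain ⟨hsm, hcr⟩ := hcrit
      obtain ⟨v₀, hv₀m, hv₀⟩ := Finset.not_subset.1 hcr
      have hv₀s : v₀ ∉ s := fun h => hv₀ (Finset.mem_union_left _ h)
      have hv₀R : v₀ ∉ R m := fun h => hv₀ (Finset.mem_union_right _ h)
      classical
      let z : Finset V → M := fun t =>
        if v₀ ∈ t ∧ R m ⊆ t ∧ t ⊆ m ∧ s ⊆ t then sg v₀ (t.erase v₀) • y (t.erase v₀) else 0
      have hzdef : ∀ t, z t =
          if v₀ ∈ t ∧ R m ⊆ t ∧ t ⊆ m ∧ s ⊆ t then sg v₀ (t.erase v₀) • y (t.erase v₀) else 0 :=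
        fun t => rfl
      have hz : ∀ t, z t ≠ 0 → InL L t ∧ s ⊆ t ∧ t.card = k + 1 := by
        intro t ht
        rw [hzdef] at ht
        split_ifs at ht with h
        · have h1 : y (t.erase v₀) ≠ 0 := fun h0 => ht (by rw [h0, smul_zero])
          have h2 := (hy _ h1).2.2
          rw [Finset.card_erase_of_mem h.1] at h2
          have h3 : 0 < t.card := Finset.card_pos.2 ⟨v₀, h.1⟩
          exact ⟨⟨m, hm, h.2.2.1⟩, h.2.2.2, by omega⟩
        · exact absurd rfl ht
      -- the boundary of `z` on the interval
      have hbz : ∀ τ, s ⊆ τ → R m ⊆ τ → τ ⊆ m → bdr sg z τ = y τ := by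
        intro τ hsτ hRτ hτm
        by_cases hv : v₀ ∈ τ
        · -- `τ = ρ ∪ v₀`
          obtain ⟨ρ, hρ, rfl⟩ : ∃ ρ, v₀ ∉ ρ ∧ insert v₀ ρ = τ :=
            ⟨τ.erase v₀, Finset.notMem_erase _ _, Finset.insert_erase hv⟩
          have hRρ : R m ⊆ ρ := fun u hu => by
            rcases Finset.mem_insert.1 (hRτ hu) with h | h
            · rw [h] at hu
              exact absurd hu hv₀R
            · exact h
          have hsρ : s ⊆ ρ := fun u hu => by
            rcases Finset.mem_insert.1 (hsτ hu) with h | h
            · rw [h] at hu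
              exact absurd hu hv₀s
            · exact h
          have hρm : ρ ⊆ m := (Finset.subset_insert _ _).trans hτm
          -- the cycle condition at `ρ`
          have h1 := hyc ρ hsρ
          rw [bdr] at h1
          have h2 : univ \ ρ = insert v₀ (univ \ insert v₀ ρ) := by
            ext u
            simp only [Finset.mem_sdiff, Finset.mem_univ, true_and, Finset.mem_insert]
            constructor
            · intro h
              by_cases h' : u = v₀
              · exact Or.inl h'
              · exact Or.inr (fun h'' => h''.elim h' h)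
            · rintro (h | h)
              · rw [h]
                exact hρ
              · exact fun h' => h (Or.inr h')
          rw [h2, Finset.sum_insert (by simp)] at h1
          -- compute
          have h3 : bdr sg z (insert v₀ ρ) = ∑ v ∈ univ \ insert v₀ ρ,
              (- sg v₀ ρ) • (sg v ρ • y (insert v ρ)) := by
            rw [bdr]
            refine Finset.sum_congr rfl fun v hv' => ?_
            have hv1 : v ∉ insert v₀ ρ := (Finset.mem_sdiff.1 hv').2
            have hv2 : v ≠ v₀ := fun h => hv1 (by rw [h]; exact Finset.mem_insert_self _ _)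
            have hv3 : v ∉ ρ := fun h => hv1 (Finset.mem_insert_of_mem h)
            by_cases hvm : v ∈ m
            · have h4 : z (insert v (insert v₀ ρ)) =
                  sg v₀ (insert v ρ) • y (insert v ρ) := by
                rw [hzdef, if_pos]
                · have : (insert v (insert v₀ ρ)).erase v₀ = insert v ρ := by
                    rw [Finset.insert_comm, Finset.erase_insert]
                    intro h
                    rcases Finset.mem_insert.1 h with h | h
                    · exact hv2 h.symm
                    · exact hρ h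
                  rw [this]
                · refine ⟨Finset.mem_insert_of_mem (Finset.mem_insert_self _ _),
                    hRτ.trans (Finset.subset_insert _ _), ?_, hsτ.trans (Finset.subset_insert _ _)⟩
                  intro u hu
                  rcases Finset.mem_insert.1 hu with h | h
                  · rw [h]
                    exact hvm
                  · exact hτm h
              rw [h4, smul_smul, smul_smul]
              congr 1
              have h5 := hsg.anti v₀ v ρ hv2.symm hρ hv3
              have h6 := hsg.mul_self hρ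
              have h7 := hsg.mul_self (v := v₀) (τ := insert v ρ) (by
                intro h
                rcases Finset.mem_insert.1 h with h | h
                · exact hv2 h.symm
                · exact hρ h)
              calc sg v (insert v₀ ρ) * sg v₀ (insert v ρ)
                  = (sg v₀ ρ * sg v₀ ρ) * sg v (insert v₀ ρ) * sg v₀ (insert v ρ) := by
                    rw [h6]; ring
                _ = sg v₀ ρ * (sg v₀ ρ * sg v (insert v₀ ρ)) * sg v₀ (insert v ρ) := by ring
                _ = - sg v₀ ρ * sg v ρ * (sg v₀ (insert v ρ) * sg v₀ (insert v ρ)) := by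
                    rw [h5]; ring
                _ = - sg v₀ ρ * sg v ρ := by rw [h7]; ring
            · have h4 : z (insert v (insert v₀ ρ)) = 0 := by
                rw [hzdef, if_neg]
                rintro ⟨-, -, h5, -⟩
                exact hvm (h5 (Finset.mem_insert_self _ _))
              have h5 : y (insert v ρ) = 0 := by
                by_contra h6
                have h7 := key ρ hRρ hρm (insert v ρ) (Finset.subset_insert _ _) (hy _ h6).1
                exact hvm (h7 (Finset.mem_insert_self _ _))
              rw [h4, h5, smul_zero, smul_zero, smul_zero]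
          rw [h3, ← Finset.smul_sum]
          have h4 : ∑ v ∈ univ \ insert v₀ ρ, sg v ρ • y (insert v ρ) =
              - (sg v₀ ρ • y (insert v₀ ρ)) := by
            rw [eq_neg_iff_add_eq_zero, add_comm]
            exact h1
          rw [h4, smul_neg, neg_smul, neg_neg, smul_smul, hsg.mul_self hρ, one_smul]
        · rw [bdr, Finset.sum_eq_single v₀]
          · have h4 : z (insert v₀ τ) = sg v₀ τ • y τ := by
              rw [hzdef, if_pos, Finset.erase_insert hv]
              refine ⟨Finset.mem_insert_self _ _, hRτ.trans (Finset.subset_insert _ _), ?_,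
                hsτ.trans (Finset.subset_insert _ _)⟩
              intro u hu
              rcases Finset.mem_insert.1 hu with h | h
              · rw [h]
                exact hv₀m
              · exact hτm h
            rw [h4, smul_smul, hsg.mul_self hv, one_smul]
          · intro v hv' hne'
            have h4 : z (insert v τ) = 0 := by
              rw [hzdef, if_neg]
              rintro ⟨h5, -⟩
              rcases Finset.mem_insert.1 h5 with h | h
              · exact hne' h.symm
              · exact hv h
            rw [h4, smul_zero]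
          · intro h
            exact absurd (Finset.mem_sdiff.2 ⟨Finset.mem_univ _, hv⟩) h
      -- the rest is supported by `L \ m`
      obtain ⟨z', hz', hz'b⟩ := ih (L.erase m) hcard hLf' hLd' hk'
        (fun t => if s ⊆ t then y t - bdr sg z t else 0) (by
          intro t ht
          by_cases hst : s ⊆ t
          · rw [if_pos hst] at ht
            by_cases hI : R m ⊆ t ∧ t ⊆ m
            · rw [hbz t hst hI.1 hI.2, sub_self] at ht
              exact absurd rfl ht
            · -- card and support
              by_cases hyt : y t = 0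
              · rw [hyt, zero_sub, neg_ne_zero] at ht
                obtain ⟨v, hv, hv'⟩ := Finset.exists_ne_zero_of_sum_ne_zero ht
                have h1 : z (insert v t) ≠ 0 := fun h0 => hv' (by rw [h0, smul_zero])
                have h2 := (hz _ h1).2.2
                rw [Finset.card_insert_of_notMem (Finset.mem_sdiff.1 hv).2] at h2
                have h3 : t ⊆ m := by
                  rw [hzdef] at h1
                  split_ifs at h1 with h
                  · exact (Finset.subset_insert _ _).trans h.2.2.1
                  · exact absurd rfl h1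
                exact ⟨key2 t h3 (fun h => hI ⟨h, h3⟩), hst, by omega⟩
              · obtain ⟨⟨m', hm', h1⟩, h2, h3⟩ := hy t hyt
                refine ⟨?_, h2, h3⟩
                by_cases h4 : m' = m
                · rw [h4] at h1
                  exact key2 t h1 (fun h => hI ⟨h, h1⟩)
                · exact ⟨m', Finset.mem_erase.2 ⟨h4, hm'⟩, h1⟩
          · rw [if_neg hst] at ht
            exact absurd rfl ht) (by
          intro τ hsτ
          have h1 : bdr sg (fun t => if s ⊆ t then y t - bdr sg z t else 0) τ =
              bdr sg (fun t => y t - bdr sg z t) τ := by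
            rw [bdr, bdr]
            refine Finset.sum_congr rfl fun v _ => ?_
            rw [if_pos (hsτ.trans (Finset.subset_insert _ _))]
          rw [h1, bdr_sub, hyc τ hsτ, zero_sub, neg_eq_zero]
          -- boundary of boundary
          exact bdr_bdr hsg z τ)
      refine ⟨fun t => z t + z' t, ?_, ?_⟩
      · intro t ht
        by_cases h : z t = 0
        · have h1 : z' t ≠ 0 := fun h0 => ht (by show z t + z' t = 0; rw [h, h0, add_zero])
          obtain ⟨h2, h3, h4⟩ := hz' t h1
          exact ⟨hmono t h2, h3, h4⟩
        · exact hz t h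
      · intro τ hsτ
        rw [bdr_add, hz'b τ hsτ]
        rw [if_pos hsτ]
        abel
    · -- `y` is supported by `L \ m`
      have hcrit' : ∀ t, y t ≠ 0 → InL (L.erase m) t ∧ s ⊆ t ∧ t.card = k := by
        intro t ht
        obtain ⟨⟨m', hm', h1⟩, h2, h3⟩ := hy t ht
        refine ⟨?_, h2, h3⟩
        by_cases h4 : m' = m
        · rw [h4] at h1
          have hsm := h2.trans h1
          have hms : m ⊆ s ∪ R m := by
            by_contra h
            exact hcrit ⟨hsm, h⟩
          have hkn : k < n := by
            rcases hk with h | h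
            · exact h
            · exact absurd hms (h m hm hsm)
          apply key2 t h1
          intro h5
          have h6 : m ⊆ t := hms.trans (Finset.union_subset h2 h5)
          have h7 := Finset.card_le_card h6
          omega
        · exact ⟨m', Finset.mem_erase.2 ⟨h4, hm'⟩, h1⟩
      obtain ⟨z, hz, hzb⟩ := ih (L.erase m) hcard hLf' hLd' hk' y hcrit' hyc
      exact ⟨z, fun t ht => ⟨hmono t (hz t ht).1, (hz t ht).2⟩, hzb⟩

/-- all facets -/
def facets (T : Finset V → Prop) (n : ℕ) : Finset (Finset V) := by
  classical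
  exact univ.filter (fun m => T m ∧ m.card = n)

theorem mem_facets {m : Finset V} : m ∈ facets T n ↔ T m ∧ m.card = n := by
  classical
  rw [facets]
  simp

theorem inL_facets (hM : Morse T n R c) {t : Finset V} : InL (facets T n) t ↔ T t := by
  constructor
  · rintro ⟨m, hm, h⟩
    exact hM.down t m (mem_facets.1 hm).1 h
  · intro h
    obtain ⟨m, hm, hmn, h1, -⟩ := hM.lo_ex t h
    exact ⟨m, mem_facets.2 ⟨hm, hmn⟩, h1⟩

end

/-- EXA -/
theorem exa : EXAStmt := by
  intro n V _ _ T R c sg hM hsg M _ s k hs hk y hy hyc
  obtain ⟨z, hz, hzb⟩ := lev hM hsg k _ (facets T n) rfl (fun m hm => mem_facets.1 hm)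
    (fun m _ m' h1 h2 _ => mem_facets.2 ⟨h1, h2⟩) (Or.inl hk) y
    (fun t ht => ⟨(inL_facets hM).2 (hy t ht).1, (hy t ht).2⟩) hyc
  exact ⟨z, fun t ht => ⟨(inL_facets hM).1 (hz t ht).1, (hz t ht).2⟩, hzb⟩

/-- EPS -/
theorem eps : EPSStmt := by
  intro n V _ _ T R c sg hM hsg
  classical
  by_cases hT : T ∅
  swap
  · have hT' : ∀ t, ¬ T t := fun t h => hT (hM.down ∅ t h (Finset.empty_subset _))
    refine ⟨0, ⟨fun t ht => absurd rfl ht, fun t h => absurd h (hT' t), ?_, ?_⟩⟩
    · intro τ
      rw [bdr]
      exact Finset.sum_eq_zero fun v _ => smul_zero _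
    · intro M _ s hs
      exact absurd hs (hT' s)
  -- the top facet
  obtain ⟨m₀, hm₀, hm₀n, -, hm₀R⟩ := hM.hi_ex ∅ hT
  have hlt : ∀ m, T m → m.card = n → m ≠ m₀ → c m < c m₀ := fun m h1 h2 h3 =>
    hM.hi_lt ∅ m₀ hm₀ hm₀n (Finset.empty_subset _) hm₀R m h1 h2 (Finset.empty_subset _) h3
  -- existence of the cycle
  obtain ⟨ε, hεs, hε0, hεc⟩ : ∃ ε : Finset V → ℤ, (∀ t, ε t ≠ 0 → T t ∧ t.card = n) ∧
      ε m₀ = 1 ∧ ∀ τ, bdr sg ε τ = 0 := by
    let y₀ : Finset V → ℤ := fun t => if t = m₀ then 1 else 0
    have hy₀ : ∀ t, y₀ t = if t = m₀ then 1 else 0 := fun t => rfl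
    have hu : ∀ t, bdr sg y₀ t ≠ 0 → t ⊂ m₀ ∧ t.card + 1 = n := by
      intro t ht
      obtain ⟨v, hv, hv'⟩ := Finset.exists_ne_zero_of_sum_ne_zero ht
      have hvt : v ∉ t := (Finset.mem_sdiff.1 hv).2
      have h1 : insert v t = m₀ := by
        by_contra h
        apply hv'
        rw [hy₀, if_neg h, smul_zero]
      rw [← h1]
      refine ⟨Finset.ssubset_insert hvt, ?_⟩
      rw [← hm₀n, ← h1, Finset.card_insert_of_notMem hvt]
    rcases Nat.eq_zero_or_pos n with hn | hn
    · refine ⟨y₀, ?_, by rw [hy₀, if_pos rfl], ?_⟩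
      · intro t ht
        rw [hy₀] at ht
        by_cases h : t = m₀
        · rw [h]
          exact ⟨hm₀, hm₀n⟩
        · rw [if_neg h] at ht
          exact absurd rfl ht
      · intro τ
        by_contra h
        have := (hu τ h).2
        omega
    · obtain ⟨z, hz, hzb⟩ := lev (s := ∅) hM hsg (n - 1) _ ((facets T n).erase m₀) rfl
        (fun m hm => mem_facets.1 (Finset.mem_of_mem_erase hm))
        (fun m hm m' h1 h2 h3 => by
          refine Finset.mem_erase.2 ⟨?_, mem_facets.2 ⟨h1, h2⟩⟩
          rintro rfl
          have h4 := mem_facets.1 (Finset.mem_of_mem_erase hm)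
          exact absurd h3 (not_lt.mpr (hlt m h4.1 h4.2 (Finset.ne_of_mem_erase hm)).le))
        (Or.inl (by omega)) (bdr sg y₀) (by
          intro t ht
          obtain ⟨h1, h2⟩ := hu t ht
          refine ⟨?_, Finset.empty_subset _, by omega⟩
          obtain ⟨m, hm, hmn, h3, h4⟩ := hM.lo_ex t (hM.down t m₀ hm₀ h1.1)
          refine ⟨m, Finset.mem_erase.2 ⟨?_, mem_facets.2 ⟨hm, hmn⟩⟩, h3⟩
          rintro rfl
          have h5 : m ⊆ t := by
            refine hm₀R.trans ?_
            rw [Finset.empty_union]
            exact h4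
          exact absurd (Finset.card_le_card h5) (by omega)) (fun τ _ => bdr_bdr hsg y₀ τ)
      have hzm : z m₀ = 0 := by
        by_contra h
        obtain ⟨⟨m, hm, h1⟩, -, -⟩ := hz m₀ h
        have h2 := mem_facets.1 (Finset.mem_of_mem_erase hm)
        have h3 : m₀ = m := Finset.eq_of_subset_of_card_le h1 (by rw [h2.2, hm₀n])
        exact Finset.ne_of_mem_erase hm h3.symm
      refine ⟨fun t => y₀ t - z t, ?_, ?_, ?_⟩
      · intro t ht
        by_cases h : t = m₀
        · rw [h]
          exact ⟨hm₀, hm₀n⟩
        · have h1 : z t ≠ 0 := by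
            intro h0
            apply ht
            show y₀ t - z t = 0
            rw [hy₀, if_neg h, h0, sub_zero]
          obtain ⟨⟨m, hm, h2⟩, -, h3⟩ := hz t h1
          exact ⟨hM.down t m (mem_facets.1 (Finset.mem_of_mem_erase hm)).1 h2, by omega⟩
      · show y₀ m₀ - z m₀ = 1
        rw [hzm, hy₀, if_pos rfl, sub_zero]
      · intro τ
        rw [bdr_sub, hzb τ (Finset.empty_subset _), sub_self]
  -- the values of the cycle
  have hunit : ∀ (N : ℕ) (m : Finset V), T m → m.card = n →
      ((facets T n).filter (fun m' => c m < c m')).card = N → ε m = 1 ∨ ε m = -1 := by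
    intro N
    induction N using Nat.strong_induction_on with
    | _ N ih =>
      intro m hm hmn hN
      by_cases h0 : m = m₀
      · rw [h0]
        exact Or.inl hε0
      have hRm : ¬ m ⊆ R m := by
        intro h
        have h1 := hM.hi_lt ∅ m hm hmn (Finset.empty_subset _) (by rw [Finset.empty_union]; exact h)
          m₀ hm₀ hm₀n (Finset.empty_subset _) (fun h' => h0 h'.symm)
        exact absurd (hlt m hm hmn h0) (not_lt.mpr h1.le)
      obtain ⟨v, hvm, hvR⟩ := Finset.not_subset.1 hRm
      obtain ⟨r, hvr, rfl⟩ : ∃ r, v ∉ r ∧ insert v r = m :=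
        ⟨m.erase v, Finset.notMem_erase _ _, Finset.insert_erase hvm⟩
      have hr : T r := hM.down r _ hm (Finset.subset_insert _ _)
      have hRr : R (insert v r) ⊆ r := by
        intro u hu
        rcases Finset.mem_insert.1 (hM.sub _ hm hmn hu) with h | h
        · rw [h] at hu
          exact absurd hu hvR
        · exact h
      obtain ⟨m', hm', hm'n, h1, h2⟩ := hM.hi_ex r hr
      -- `m' = insert w r`
      obtain ⟨w, hwr, rfl⟩ : ∃ w, w ∉ r ∧ insert w r = m' := by
        have h3 : r.card + 1 = m'.card := by
          rw [hm'n, ← hmn, Finset.card_insert_of_notMem hvr]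
        obtain ⟨w, hw, hw'⟩ : ∃ w, w ∈ m' ∧ w ∉ r := by
          by_contra h
          push Not at h
          have := Finset.card_le_card h
          omega
        refine ⟨w, hw', ?_⟩
        refine Finset.eq_of_subset_of_card_le ?_ ?_
        · intro u hu
          rcases Finset.mem_insert.1 hu with h | h
          · rw [h]
            exact hw
          · exact h1 h
        · rw [Finset.card_insert_of_notMem hw', ← h3]
      have hwv : w ≠ v := by
        rintro rfl
        rcases Finset.mem_union.1 (h2 (Finset.mem_insert_self _ _)) with h | h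
        · exact hwr h
        · exact hvR h
      have hne : insert w r ≠ insert v r := by
        intro h
        have h3 : w ∈ insert v r := by
          rw [← h]
          exact Finset.mem_insert_self _ _
        rcases Finset.mem_insert.1 h3 with h | h
        · exact hwv h
        · exact hwr h
      have hcw : c (insert v r) < c (insert w r) :=
        hM.lo_lt r _ hm hmn (Finset.subset_insert _ _) hRr _ hm' hm'n (Finset.subset_insert _ _) hne
      -- only two facets contain `r`
      have hcyc := hεc r
      rw [bdr, ← Finset.add_sum_erase _ _ (Finset.mem_sdiff.2 ⟨Finset.mem_univ v, hvr⟩),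
        ← Finset.add_sum_erase _ _ (Finset.mem_erase.2 ⟨hwv,
          Finset.mem_sdiff.2 ⟨Finset.mem_univ w, hwr⟩⟩), Finset.sum_eq_zero, add_zero] at hcyc
      · have h3 : ε (insert w r) = 1 ∨ ε (insert w r) = -1 := by
          refine ih _ ?_ _ hm' hm'n rfl
          rw [← hN]
          apply Finset.card_lt_card
          refine Finset.ssubset_iff_subset_ne.2 ⟨?_, ?_⟩
          · intro x hx
            rw [Finset.mem_filter] at hx ⊢
            exact ⟨hx.1, hcw.trans hx.2⟩
          · intro h
            have h4 : insert w r ∈ (facets T n).filter (fun m' => c (insert v r) < c m') :=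
              Finset.mem_filter.2 ⟨mem_facets.2 ⟨hm', hm'n⟩, hcw⟩
            rw [← h, Finset.mem_filter] at h4
            exact lt_irrefl _ h4.2
        simp only [smul_eq_mul] at hcyc
        rcases hsg.unit v r hvr with h5 | h5 <;> rcases hsg.unit w r hwr with h6 | h6 <;>
          rcases h3 with h7 | h7 <;> rw [h5, h6, h7] at hcyc <;> omega
      · intro u hu
        have hu1 : u ≠ w := Finset.ne_of_mem_erase hu
        have hu2 : u ≠ v := Finset.ne_of_mem_erase (Finset.mem_of_mem_erase hu)
        have hur : u ∉ r :=
          (Finset.mem_sdiff.1 (Finset.mem_of_mem_erase (Finset.mem_of_mem_erase hu))).2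
        by_contra h3
        have h4 : ε (insert u r) ≠ 0 := fun h => h3 (by rw [h, smul_zero])
        obtain ⟨hTu, hun⟩ := hεs _ h4
        have hne1 : ∀ {a b : V}, a ≠ b → a ∉ r → insert a r ≠ insert b r := by
          intro a b hab ha h
          have h3 : a ∈ insert b r := by
            rw [← h]
            exact Finset.mem_insert_self _ _
          rcases Finset.mem_insert.1 h3 with h | h
          · exact hab h
          · exact ha h
        by_cases h5 : u ∈ R (insert u r)
        · have h6 : insert u r ⊆ r ∪ R (insert u r) := by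
            intro x hx
            rcases Finset.mem_insert.1 hx with h | h
            · rw [h]
              exact Finset.mem_union_right _ h5
            · exact Finset.mem_union_left _ h
          have h7 := hM.hi_lt r _ hTu hun (Finset.subset_insert _ _) h6 _ hm' hm'n
            (Finset.subset_insert _ _) (hne1 hu1.symm hwr)
          have h8 := hM.hi_lt r _ hm' hm'n (Finset.subset_insert _ _) h2 _ hTu hun
            (Finset.subset_insert _ _) (hne1 hu1 hur)
          exact absurd h7 (not_lt.mpr h8.le)
        · have h6 : R (insert u r) ⊆ r := by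
            intro x hx
            rcases Finset.mem_insert.1 (hM.sub _ hTu hun hx) with h | h
            · rw [h] at hx
              exact absurd hx h5
            · exact h
          have h7 := hM.lo_lt r _ hTu hun (Finset.subset_insert _ _) h6 _ hm hmn
            (Finset.subset_insert _ _) (hne1 hu2.symm hvr)
          have h8 := hM.lo_lt r _ hm hmn (Finset.subset_insert _ _) hRr _ hTu hun
            (Finset.subset_insert _ _) (hne1 hu2 hur)
          exact absurd h7 (not_lt.mpr h8.le)
  refine ⟨ε, ⟨hεs, fun t h1 h2 => hunit _ t h1 h2 rfl, hεc, ?_⟩⟩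
  intro M _ s hs y hy hyc
  obtain ⟨m, hm, hmn, hsm, hmR⟩ := hM.hi_ex s hs
  have hεm : ε m * ε m = 1 := by
    rcases hunit _ m hm hmn rfl with h | h <;> rw [h] <;> norm_num
  refine ⟨ε m • y m, ?_⟩
  obtain ⟨z, hz, hzb⟩ := lev hM hsg n _ ((facets T n).filter (fun m' => c m' < c m)) rfl
    (fun m' hm' => mem_facets.1 (Finset.mem_filter.1 hm').1)
    (fun m' hm' m'' h1 h2 h3 => Finset.mem_filter.2 ⟨mem_facets.2 ⟨h1, h2⟩,
      h3.trans (Finset.mem_filter.1 hm').2⟩) (Or.inr (by
      intro m' hm' hsm' hmR'
      rw [Finset.mem_filter, mem_facets] at hm'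
      have h1 := hM.hi_lt s m' hm'.1.1 hm'.1.2 hsm' hmR' m hm hmn hsm (by
        rintro rfl
        exact lt_irrefl _ hm'.2)
      exact absurd h1 (not_lt.mpr hm'.2.le)))
    (fun t => if s ⊆ t then y t - ε t • (ε m • y m) else 0) (by
      intro t ht
      by_cases hst : s ⊆ t
      · rw [if_pos hst] at ht
        have htm : t ≠ m := by
          rintro rfl
          apply ht
          rw [smul_smul, hεm, one_smul, sub_self]
        have h1 : T t ∧ t.card = n := by
          by_cases h : y t = 0
          · by_cases h' : ε t = 0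
            · exact absurd (by rw [h, h', zero_smul, sub_zero]) ht
            · exact hεs t h'
          · exact ⟨(hy t h).1, (hy t h).2.2⟩
        refine ⟨⟨t, Finset.mem_filter.2 ⟨mem_facets.2 h1, ?_⟩, subset_rfl⟩, hst, h1.2⟩
        exact hM.hi_lt s m hm hmn hsm hmR t h1.1 h1.2 hst htm
      · rw [if_neg hst] at ht
        exact absurd rfl ht) (by
      intro τ hsτ
      have h1 : bdr sg (fun t => if s ⊆ t then y t - ε t • (ε m • y m) else 0) τ =
          bdr sg (fun t => y t - ε t • (ε m • y m)) τ := by
        rw [bdr, bdr]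
        refine Finset.sum_congr rfl fun v _ => ?_
        rw [if_pos (hsτ.trans (Finset.subset_insert _ _))]
      have h2 : bdr sg (fun t => ε t • (ε m • y m)) τ = bdr sg ε τ • (ε m • y m) := by
        rw [bdr, bdr, Finset.sum_smul]
        refine Finset.sum_congr rfl fun v _ => ?_
        rw [smul_smul (sg v τ), smul_eq_mul]
      rw [h1, bdr_sub, hyc τ hsτ, h2, hεc, zero_smul, sub_zero])
  intro t hst
  have hz0 : ∀ t, z t = 0 := by
    intro t
    by_contra h
    obtain ⟨⟨m', hm', h1⟩, -, h2⟩ := hz t h
    have h3 := (mem_facets.1 (Finset.mem_filter.1 hm').1).2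
    have := Finset.card_le_card h1
    omega
  have h1 := hzb t hst
  rw [bdr, Finset.sum_eq_zero (fun v _ => by rw [hz0, smul_zero])] at h1
  rw [if_pos hst] at h1
  exact sub_eq_zero.1 h1.symm

end Pool.LU
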