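import Pool.Agent.H41.LU.B2Main

/-!
Project LU: simple polytopes with explicit flag nerves (relative barycentric subdivisions).
The proof of `b2x` follows helper88's `b2_asm`.
-/

set_option autoImplicit false

open scoped BigOperators
open Finset

noncomputable section

namespace Pool.LU

/-- B2 with all adjacencies, for linear forms `w v` on `X`. The facets are the elements of `V` and
the proper faces `φ` which are not cliques. -/
theorem b2x (n : ℕ) (X : Type) [AddCommGroup X] [Module ℝ X] [FiniteDimensional ℝ X]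
    (V : Type) [Fintype V] [DecidableEq V] (adj : V → V → Prop) (w : V → X →ₗ[ℝ] ℝ)
    (hfr : Module.finrank ℝ X = n + 1) (hsym : ∀ u v, adj u v → adj v u)
    (hna : ∃ u v, u ≠ v ∧ ¬ adj u v) (hker0 : ∀ x, (∀ v, w v x = 0) → x = 0)
    (hstar' : StarC adj w) :
    ∃ P : SPoly n (V ⊕ {φ : Finset V // IsE adj w φ ∧ φ ≠ univ}), P.Good ∧
      (∀ u v : V, u ≠ v → (P.adj (Sum.inl u) (Sum.inl v) ↔ adj u v)) ∧
      (∀ v φ, P.adj (Sum.inl v) (Sum.inr φ) ↔ v ∈ φ.1) ∧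
      (∀ v φ, P.adj (Sum.inr φ) (Sum.inl v) ↔ v ∈ φ.1) ∧
      ∀ φ ψ, P.adj (Sum.inr φ) (Sum.inr ψ) ↔ φ ≠ ψ ∧ (φ.1 ⊆ ψ.1 ∨ ψ.1 ⊆ φ.1) := by
  classical
  obtain ⟨u₀, v₀, hne₀, hnadj₀⟩ := hna
  have hSTR : STRStmt := str far
  have hncl : ¬ IsCl adj (univ : Finset V) := by
    intro h
    exact hnadj₀ (h u₀ (mem_univ _) v₀ (mem_univ _) hne₀)
  have hEuniv : IsE adj w (univ : Finset V) :=
    ⟨⟨0, fun v _ => by simp, fun v hv => absurd (mem_univ v) hv⟩, hncl⟩
  obtain ⟨δ₁, hδ₁, hA⟩ := act (clo far) X V adj w hstar'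
  obtain ⟨δ₂, hδ₂, hR⟩ := rea hSTR X V adj w hstar' ⟨u₀, v₀, hne₀, hnadj₀⟩
  set δ : ℝ := min δ₁ δ₂ / 2 with hδ
  have hmin : 0 < min δ₁ δ₂ := lt_min hδ₁ hδ₂
  have hδ0 : 0 < δ := by rw [hδ]; linarith
  have hδ1' : δ < δ₁ := by
    rw [hδ]; have := min_le_left δ₁ δ₂; linarith
  have hδ2' : δ < δ₂ := by
    rw [hδ]; have := min_le_right δ₁ δ₂; linarith
  have hA := hA δ hδ0 hδ1'
  have hR := hR δ hδ0 hδ2'
  have hI := ind hSTR X V adj w hstar'
  have hepu : ep δ (univ : Finset V) = 1 := by simp [ep]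
  -- the index set of the new facets
  let N : Type := {φ : Finset V // IsE adj w φ ∧ φ ≠ univ}
  let f : V ⊕ N → X →ₗ[ℝ] ℝ := Sum.elim w (fun φ => bb w φ.1)
  let ε : V ⊕ N → ℝ := Sum.elim (fun _ => 0) (fun φ => ep δ φ.1)
  have hbb : ∀ (φ : Finset V) (x : X), bb w φ x = ∑ v ∈ φ, w v x := by
    intro φ x; simp [bb]
  have hh : bb w (univ : Finset V) ≠ 0 := by
    intro h
    obtain ⟨⟨x, _, hx⟩, _⟩ := hSTR X V adj w hstar' ∅
      (fun u hu => absurd hu (notMem_empty u))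
    have h2 : bb w (univ : Finset V) x = 0 := by rw [h]; rfl
    rw [hbb] at h2
    have h3 : 0 < ∑ v ∈ (univ : Finset V), w v x :=
      sum_pos (fun v _ => hx v (notMem_empty v)) ⟨u₀, mem_univ _⟩
    linarith
  have hker : ∀ x : X, (∀ j, f j x = 0) → x = 0 := by
    intro x hx
    exact hker0 x fun v => hx (Sum.inl v)
  have hle : ∀ x : X, (∀ v, 0 ≤ w v x) → ∀ φ : Finset V,
      bb w φ x ≤ bb w univ x := by
    intro x hx φ
    rw [hbb, hbb]
    exact sum_le_sum_of_subset_of_nonneg (subset_univ _) (fun v _ _ => hx v)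
  have hbound : ∃ B : ℝ, ∀ x, bb w (univ : Finset V) x = 1 → (∀ j, ε j ≤ f j x) →
      ∀ j, f j x ≤ B := by
    refine ⟨1, fun x hx hj j => ?_⟩
    have h0 : ∀ v, 0 ≤ w v x := fun v => hj (Sum.inl v)
    rcases j with v | φ
    · have h1 : w v x ≤ ∑ v ∈ (univ : Finset V), w v x :=
        single_le_sum (f := fun v => w v x) (fun v _ => h0 v) (mem_univ v)
      rw [← hbb, hx] at h1
      exact h1
    · have := hle x h0 φ.1
      rw [hx] at this
      exact this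
  obtain ⟨P, g, hcomp, hl, hg1, hgs, hS⟩ :=
    cor n X (V ⊕ N) f ε (bb w univ) hfr hh hker hbound
  -- points of the chamber
  have hcham : ∀ y, y ∈ P.cham ↔ IsP adj w δ (g y) := by
    intro y
    constructor
    · intro hy
      have h0 : ∀ j, ε j ≤ f j (g y) := fun j => by
        have := hy j
        rw [hl] at this
        linarith
      refine ⟨fun v => h0 (Sum.inl v), hg1 y, fun φ hφ => ?_⟩
      by_cases hu : φ = univ
      · rw [hu, hepu, hg1 y]
      · exact h0 (Sum.inr ⟨φ, hφ, hu⟩)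
    · rintro ⟨h1, h2, h3⟩ j
      rw [hl]
      rcases j with v | φ
      · have := h1 v
        show 0 ≤ w v (g y) - 0
        linarith
      · have := h3 φ.1 φ.2.1
        show 0 ≤ bb w φ.1 (g y) - ep δ φ.1
        linarith
  have hsigl : ∀ y v, (Sum.inl v : V ⊕ N) ∈ P.sig y ↔ w v (g y) = 0 := by
    intro y v
    show P.l (Sum.inl v) y = 0 ↔ _
    rw [hl]
    show w v (g y) - 0 = 0 ↔ _
    rw [sub_zero]
  have hsigr : ∀ y (φ : N), (Sum.inr φ : V ⊕ N) ∈ P.sig y ↔ bb w φ.1 (g y) = ep δ φ.1 := by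
    intro y φ
    show P.l (Sum.inr φ) y = 0 ↔ _
    rw [hl]
    show bb w φ.1 (g y) - ep δ φ.1 = 0 ↔ _
    rw [sub_eq_zero]
  refine ⟨P, ⟨hcomp, ?_, ?_⟩, ?_, ?_⟩
  · -- simple
    intro y hy
    have hP := (hcham y).1 hy
    obtain ⟨hA1, hA2, hA3⟩ := hA (g y) hP
    apply hS
    let σ : Finset V := univ.filter (fun v => w v (g y) = 0)
    let c : Finset (Finset V) :=
      univ.filter (fun φ => IsE adj w φ ∧ bb w φ (g y) = ep δ φ)
    have hσ : ∀ v, v ∈ σ ↔ w v (g y) = 0 := fun v => by simp [σ]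
    have hc : ∀ φ, φ ∈ c ↔ IsE adj w φ ∧ bb w φ (g y) = ep δ φ := fun φ => by simp [c]
    have hLI := hI σ c (fun u hu v hv huv => hA1 u v ((hσ u).1 hu) ((hσ v).1 hv) huv)
      (fun φ hφ => ⟨((hc φ).1 hφ).1, fun v hv =>
        hA2 v φ ((hc φ).1 hφ).1 ((hσ v).1 hv) ((hc φ).1 hφ).2⟩)
      (fun φ hφ ψ hψ => hA3 φ ψ ((hc φ).1 hφ).1 ((hc ψ).1 hψ).1 ((hc φ).1 hφ).2 ((hc ψ).1 hψ).2)
    have huc : (univ : Finset V) ∈ c := (hc _).2 ⟨hEuniv, by rw [hg1 y, hepu]⟩
    let ι : Option (P.sig y) → σ ⊕ c := fun o => match o with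
      | none => Sum.inr ⟨univ, huc⟩
      | some ⟨Sum.inl v, hv⟩ => Sum.inl ⟨v, (hσ v).2 ((hsigl y v).1 hv)⟩
      | some ⟨Sum.inr φ, hφ⟩ => Sum.inr ⟨φ.1, (hc _).2 ⟨φ.2.1, (hsigr y φ).1 hφ⟩⟩
    have hι : Function.Injective ι := by
      intro o o' ho
      rcases o with _ | ⟨v | φ, h⟩ <;> rcases o' with _ | ⟨v' | φ', h'⟩
      · rfl
      · simp [ι] at ho
      · simp [ι] at ho
        exact absurd ho.symm φ'.2.2
      · simp [ι] at ho
      · simp [ι] at ho
        subst ho; rfl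
      · simp [ι] at ho
      · simp [ι] at ho
        exact absurd ho φ.2.2
      · simp [ι] at ho
      · simp [ι] at ho
        have : φ = φ' := Subtype.ext ho
        subst this; rfl
    have hcomp' := hLI.comp ι hι
    convert hcomp' using 1
    funext o
    rcases o with _ | ⟨v | φ, h⟩ <;> rfl
  · -- flag
    intro τ hτ
    let σ : Finset V := univ.filter (fun v => (Sum.inl v : V ⊕ N) ∈ τ)
    let c : Finset (Finset V) :=
      univ.filter (fun φ => ∃ h : IsE adj w φ ∧ φ ≠ univ, (Sum.inr ⟨φ, h⟩ : V ⊕ N) ∈ τ)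
    have hσ : ∀ v, v ∈ σ ↔ (Sum.inl v : V ⊕ N) ∈ τ := fun v => by simp [σ]
    have hc : ∀ φ, φ ∈ c ↔ ∃ h : IsE adj w φ ∧ φ ≠ univ, (Sum.inr ⟨φ, h⟩ : V ⊕ N) ∈ τ :=
      fun φ => by simp only [c, mem_filter, mem_univ, true_and]
    have hcl : IsCl adj σ := by
      intro u hu v hv huv
      obtain ⟨_, y, hy, hsub⟩ := hτ _ ((hσ u).1 hu) _ ((hσ v).1 hv)
        (fun h => huv (Sum.inl_injective h))
      obtain ⟨hA1, _, _⟩ := hA (g y) ((hcham y).1 hy)
      exact hA1 u v ((hsigl y u).1 (hsub (by simp))) ((hsigl y v).1 (hsub (by simp))) huv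
    have hsub1 : ∀ φ ∈ c, IsE adj w φ ∧ σ ⊆ φ := by
      intro φ hφ
      obtain ⟨h, hφτ⟩ := (hc φ).1 hφ
      refine ⟨h.1, fun v hv => ?_⟩
      obtain ⟨_, y, hy, hsub⟩ := hτ _ ((hσ v).1 hv) _ hφτ (by simp)
      obtain ⟨_, hA2, _⟩ := hA (g y) ((hcham y).1 hy)
      exact hA2 v φ h.1 ((hsigl y v).1 (hsub (by simp))) ((hsigr y ⟨φ, h⟩).1 (hsub (by simp)))
    have hch : ∀ φ ∈ c, ∀ ψ ∈ c, φ ⊆ ψ ∨ ψ ⊆ φ := by
      intro φ hφ ψ hψ
      by_cases he : φ = ψ
      · left; rw [he]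
      obtain ⟨h, hφτ⟩ := (hc φ).1 hφ
      obtain ⟨h', hψτ⟩ := (hc ψ).1 hψ
      obtain ⟨_, y, hy, hsub⟩ := hτ _ hφτ _ hψτ (by
        intro h2
        exact he (congrArg Subtype.val (Sum.inr_injective h2)))
      obtain ⟨_, _, hA3⟩ := hA (g y) ((hcham y).1 hy)
      exact hA3 φ ψ h.1 h'.1 ((hsigr y ⟨φ, h⟩).1 (hsub (by simp)))
        ((hsigr y ⟨ψ, h'⟩).1 (hsub (by simp)))
    obtain ⟨x, hx, hxσ, hxc⟩ := hR σ c hcl hsub1 hch
    obtain ⟨y, rfl⟩ := hgs x hx.2.1
    refine ⟨y, (hcham y).2 hx, ?_⟩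
    rintro (v | φ) hj
    · exact (hsigl y v).2 (hxσ v ((hσ v).2 hj))
    · exact (hsigr y φ).2 (hxc φ.1 ((hc φ.1).2 ⟨φ.2, hj⟩))
  · -- the adjacencies
    intro u v huv
    constructor
    · rintro ⟨_, y, hy, hsub⟩
      obtain ⟨hA1, _, _⟩ := hA (g y) ((hcham y).1 hy)
      exact hA1 u v ((hsigl y u).1 (hsub (by simp))) ((hsigl y v).1 (hsub (by simp))) huv
    · intro hadj
      refine ⟨fun h => huv (Sum.inl_injective h), ?_⟩
      have hcl : IsCl adj ({u, v} : Finset V) := by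
        intro a ha b hb hab
        simp only [mem_insert, mem_singleton] at ha hb
        rcases ha with rfl | rfl <;> rcases hb with rfl | rfl
        · exact absurd rfl hab
        · exact hadj
        · exact hsym _ _ hadj
        · exact absurd rfl hab
      obtain ⟨x, hx, hxσ, _⟩ := hR {u, v} ∅ hcl (fun φ hφ => absurd hφ (notMem_empty φ))
        (fun φ hφ => absurd hφ (notMem_empty φ))
      obtain ⟨y, rfl⟩ := hgs x hx.2.1
      refine ⟨y, (hcham y).2 hx, ?_⟩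
      intro j hj
      rcases hj with rfl | rfl
      · exact (hsigl y u).2 (hxσ u (by simp))
      · exact (hsigl y v).2 (hxσ v (by simp))
  · have key : ∀ v φ, P.adj (Sum.inl v) (Sum.inr φ) ↔ v ∈ φ.1 := by
      intro v φ
      constructor
      · rintro ⟨_, y, hy, hsub⟩
        obtain ⟨_, hA2, _⟩ := hA (g y) ((hcham y).1 hy)
        exact hA2 v φ.1 φ.2.1 ((hsigl y v).1 (hsub (by simp))) ((hsigr y φ).1 (hsub (by simp)))
      · intro hv
        refine ⟨by simp, ?_⟩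
        obtain ⟨x, hx, hxσ, hxc⟩ := hR {v} {φ.1} (by
          intro a ha b hb hab
          rw [mem_singleton] at ha hb
          exact absurd (ha.trans hb.symm) hab) (by
          intro ψ hψ
          rw [mem_singleton] at hψ
          rw [hψ]
          exact ⟨φ.2.1, singleton_subset_iff.2 hv⟩) (by
          intro ψ hψ ψ' hψ'
          rw [mem_singleton] at hψ hψ'
          rw [hψ, hψ']
          exact Or.inl subset_rfl)
        obtain ⟨y, rfl⟩ := hgs x hx.2.1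
        refine ⟨y, (hcham y).2 hx, ?_⟩
        intro j hj
        rcases hj with rfl | rfl
        · exact (hsigl y v).2 (hxσ v (by simp))
        · exact (hsigr y φ).2 (hxc φ.1 (by simp))
    have hcomm : ∀ a b, P.adj a b → P.adj b a := by
      rintro a b ⟨h1, h2⟩
      exact ⟨h1.symm, by rwa [Set.pair_comm]⟩
    refine ⟨key, fun v φ => ⟨fun h => (key v φ).1 (hcomm _ _ h), fun h => hcomm _ _ ((key v φ).2 h)⟩,
      ?_⟩
    intro φ ψ
    constructor
    · rintro ⟨hne, y, hy, hsub⟩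
      obtain ⟨_, _, hA3⟩ := hA (g y) ((hcham y).1 hy)
      exact ⟨fun h => hne (by rw [h]), hA3 φ.1 ψ.1 φ.2.1 ψ.2.1 ((hsigr y φ).1 (hsub (by simp)))
        ((hsigr y ψ).1 (hsub (by simp)))⟩
    · rintro ⟨hne, hsub⟩
      refine ⟨fun h => hne (Sum.inr_injective h), ?_⟩
      obtain ⟨x, hx, hxσ, hxc⟩ := hR ∅ {φ.1, ψ.1} (fun a ha => absurd ha (notMem_empty a)) (by
          intro χ hχ
          rw [mem_insert, mem_singleton] at hχ
          rcases hχ with rfl | rfl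
          · exact ⟨φ.2.1, empty_subset _⟩
          · exact ⟨ψ.2.1, empty_subset _⟩) (by
          intro χ hχ χ' hχ'
          rw [mem_insert, mem_singleton] at hχ hχ'
          rcases hχ with rfl | rfl <;> rcases hχ' with rfl | rfl
          · exact Or.inl subset_rfl
          · exact hsub
          · exact hsub.symm
          · exact Or.inl subset_rfl)
      obtain ⟨y, rfl⟩ := hgs x hx.2.1
      refine ⟨y, (hcham y).2 hx, ?_⟩
      intro j hj
      rcases hj with rfl | rfl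
      · exact (hsigr y φ).2 (hxc φ.1 (by simp))
      · exact (hsigr y ψ).2 (hxc ψ.1 (by simp))

end Pool.LU
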