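import Pool.Agent.H41.LU.B2x
import Mathlib.Data.Sign.Basic

/-!
Project LU: the simple polytope whose nerve is the barycentric subdivision of the boundary of the
cross polytope (the cube truncated at all faces).
-/

set_option autoImplicit false

open scoped BigOperators
open Finset

noncomputable section

namespace Pool.LU

/-- renaming of the facets -/
def SPoly.reindex {n : ℕ} {J K : Type} (e : J ≃ K) (P : SPoly n K) : SPoly n J where
  a j := P.a (e j)
  b j := P.b (e j)

section

variable {n : ℕ} {J K : Type} (e : J ≃ K) (P : SPoly n K)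

theorem SPoly.reindex_cham : (P.reindex e).cham = P.cham := by
  ext x
  constructor
  · intro h k
    have := h (e.symm k)
    show 0 ≤ P.a k x + P.b k
    have h2 : P.a (e (e.symm k)) x + P.b (e (e.symm k)) = P.a k x + P.b k := by
      rw [e.apply_symm_apply]
    rw [← h2]
    exact this
  · intro h j
    exact h (e j)

theorem SPoly.reindex_sig (x : Fin n → ℝ) (j : J) :
    j ∈ (P.reindex e).sig x ↔ e j ∈ P.sig x := Iff.rfl

theorem SPoly.reindex_face (σ : Set J) : (P.reindex e).Face σ ↔ P.Face (e '' σ) := by
  constructor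
  · rintro ⟨x, hx, h⟩
    refine ⟨x, by rwa [← P.reindex_cham e], ?_⟩
    rintro _ ⟨j, hj, rfl⟩
    exact h hj
  · rintro ⟨x, hx, h⟩
    refine ⟨x, by rwa [P.reindex_cham e], ?_⟩
    intro j hj
    exact h ⟨j, hj, rfl⟩

theorem SPoly.reindex_adj (j k : J) : (P.reindex e).adj j k ↔ P.adj (e j) (e k) := by
  rw [SPoly.adj, SPoly.adj, P.reindex_face e, Set.image_pair]
  exact and_congr_left' e.injective.ne_iff.symm

theorem SPoly.reindex_good (hP : P.Good) : (P.reindex e).Good := by
  refine ⟨?_, ?_, ?_⟩
  · rw [P.reindex_cham e]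
    exact hP.compact
  · intro x hx
    rw [P.reindex_cham e] at hx
    have h := hP.simple x hx
    exact h.comp (fun j : (P.reindex e).sig x => (⟨e j, j.2⟩ : P.sig x)) (by
      intro j k hjk
      exact Subtype.ext (e.injective (congrArg Subtype.val hjk)))
  · intro σ hσ
    rw [P.reindex_face e]
    apply hP.flag
    rintro _ ⟨j, hj, rfl⟩ _ ⟨k, hk, rfl⟩ hjk
    have h := hσ j hj k hk (fun h => hjk (by rw [h]))
    exact (P.reindex_adj e j k).1 h

end

/-- the form number `(i, b)` of the cone over the cube -/
def cubeW (n : ℕ) (v : Fin n × Bool) : ((Fin n → ℝ) × ℝ) →ₗ[ℝ] ℝ :=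
  LinearMap.snd ℝ _ _ + (if v.2 then (1 : ℝ) else -1) •
    (LinearMap.proj v.1 ∘ₗ LinearMap.fst ℝ (Fin n → ℝ) ℝ)

theorem cubeW_apply (n : ℕ) (v : Fin n × Bool) (x : (Fin n → ℝ) × ℝ) :
    cubeW n v x = x.2 + (if v.2 then (1 : ℝ) else -1) * x.1 v.1 := rfl

theorem cubeW_true (n : ℕ) (i : Fin n) (x : (Fin n → ℝ) × ℝ) :
    cubeW n (i, true) x = x.2 + x.1 i := by
  rw [cubeW_apply]
  simp

theorem cubeW_false (n : ℕ) (i : Fin n) (x : (Fin n → ℝ) × ℝ) :
    cubeW n (i, false) x = x.2 - x.1 i := by
  rw [cubeW_apply]
  simp
  ring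

/-- the set of the facets of the cube given by a vector of signs -/
def cubeS {n : ℕ} (x : Fin n → SignType) : Finset (Fin n × Bool) :=
  univ.filter (fun v => x v.1 = if v.2 then 1 else -1)

theorem mem_cubeS {n : ℕ} (x : Fin n → SignType) (v : Fin n × Bool) :
    v ∈ cubeS x ↔ x v.1 = if v.2 then 1 else -1 := by
  rw [cubeS, Finset.mem_filter]
  exact and_iff_right (Finset.mem_univ _)

theorem cubeS_subset {n : ℕ} (x y : Fin n → SignType) :
    cubeS x ⊆ cubeS y ↔ ∀ i, x i = 0 ∨ x i = y i := by
  constructor
  · intro h i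
    rcases hx : x i with _ | _ | _
    · left; rfl
    · right
      have := h ((mem_cubeS x (i, false)).2 (by rw [hx]; rfl))
      rw [mem_cubeS] at this
      exact this.symm
    · right
      have := h ((mem_cubeS x (i, true)).2 (by rw [hx]; rfl))
      rw [mem_cubeS] at this
      exact this.symm
  · intro h v hv
    rw [mem_cubeS] at hv ⊢
    rcases h v.1 with h' | h'
    · rw [h'] at hv
      split_ifs at hv
    · rw [← h', hv]

theorem cubeS_inj {n : ℕ} : Function.Injective (cubeS (n := n)) := by
  intro x y h
  have h1 := (cubeS_subset x y).1 h.subset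
  have h2 := (cubeS_subset y x).1 h.symm.subset
  funext i
  rcases h1 i with h | h
  · rcases h2 i with h' | h'
    · rw [h, h']
    · exact h'.symm
  · exact h

/-- the faces of the cone over the cube -/
theorem cube_isF {n : ℕ} (φ : Finset (Fin n × Bool)) :
    IsF (cubeW n) φ ↔ φ = univ ∨ ∃ x, cubeS x = φ := by
  constructor
  · rintro ⟨x, h0, h1⟩
    have hnn : ∀ v, 0 ≤ cubeW n v x := by
      intro v
      by_cases hv : v ∈ φ
      · exact (h0 v hv).ge
      · exact (h1 v hv).le
    by_cases hopp : ∃ i, (i, true) ∈ φ ∧ (i, false) ∈ φ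
    · left
      obtain ⟨i, hi, hi'⟩ := hopp
      have e1 := h0 _ hi
      have e2 := h0 _ hi'
      rw [cubeW_true] at e1
      rw [cubeW_false] at e2
      have e3 : x.2 = 0 := by linarith
      rw [Finset.eq_univ_iff_forall]
      intro v
      by_contra hv
      have e4 := h1 v hv
      have e5 := hnn (v.1, true)
      have e6 := hnn (v.1, false)
      rw [cubeW_true] at e5
      rw [cubeW_false] at e6
      have e7 : x.1 v.1 = 0 := by linarith
      rw [cubeW_apply, e3, e7] at e4
      simp at e4
    · right
      push Not at hopp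
      refine ⟨fun i => if (i, true) ∈ φ then 1 else if (i, false) ∈ φ then -1 else 0, ?_⟩
      ext ⟨i, b⟩
      rw [mem_cubeS]
      cases b
      · by_cases h : (i, true) ∈ φ
        · simp [h, hopp i h]
        · by_cases h' : (i, false) ∈ φ
          · simp [h, h']
          · simp [h, h']
      · by_cases h : (i, true) ∈ φ
        · simp [h]
        · by_cases h' : (i, false) ∈ φ
          · simp [h, h']
          · simp [h, h']
  · rintro (rfl | ⟨x, rfl⟩)
    · exact ⟨0, fun v _ => by simp, fun v hv => absurd (Finset.mem_univ v) hv⟩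
    · refine ⟨(fun i => if x i = 1 then -1 else if x i = -1 then 1 else 0, 1), ?_, ?_⟩
      · rintro ⟨i, b⟩ hv
        rw [mem_cubeS] at hv
        cases b
        · rw [cubeW_false]
          simp at hv
          simp [hv]
        · rw [cubeW_true]
          simp at hv
          simp [hv]
      · rintro ⟨i, b⟩ hv
        rw [mem_cubeS] at hv
        cases b
        · rw [cubeW_false]
          simp at hv
          simp only [hv, if_false]
          split_ifs <;> norm_num
        · rw [cubeW_true]
          simp at hv
          simp only [hv, if_false]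
          split_ifs <;> norm_num

theorem cube_star (n : ℕ) : StarC (fun _ _ => False) (cubeW n) := by
  intro z hz hcl
  have h1 : ∀ x : (Fin n → ℝ) × ℝ, ∑ v, z v * cubeW n v x = 0 := by
    intro x
    have := congrArg (fun f : ((Fin n → ℝ) × ℝ) →ₗ[ℝ] ℝ => f x) hz
    simpa [LinearMap.sum_apply] using this
  -- coordinates
  have h2 : ∀ i, z (i, true) = z (i, false) := by
    intro i
    have h3 := h1 (Pi.single i 1, 0)
    rw [Fintype.sum_prod_type, Finset.sum_eq_single i] at h3
    · rw [Fintype.sum_bool, cubeW_true, cubeW_false] at h3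
      simp at h3
      linarith
    · intro j _ hj
      rw [Fintype.sum_bool, cubeW_true, cubeW_false]
      simp [Pi.single_eq_of_ne hj]
    · intro h
      exact absurd (Finset.mem_univ i) h
  have h3 : ∑ v, z v = 0 := by
    have h4 := h1 (0, 1)
    have h5 : ∀ v, cubeW n v ((0 : Fin n → ℝ), (1 : ℝ)) = 1 := by
      intro v
      rw [cubeW_apply]
      simp
    simpa [h5] using h4
  have h4 : ∀ v, z v ≤ 0 := by
    rintro ⟨i, b⟩
    by_contra h
    push Not at h
    have h5 : 0 < z (i, true) ∧ 0 < z (i, false) := by
      cases b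
      · exact ⟨by rw [h2]; exact h, h⟩
      · exact ⟨h, by rw [← h2]; exact h⟩
    exact hcl (i, true) (i, false) h5.1 h5.2 (by simp)
  funext v
  have h5 := (Finset.sum_eq_zero_iff_of_nonpos (fun v _ => h4 v)).1 h3
  exact h5 v (Finset.mem_univ v)

/-- The simple polytope whose nerve is the barycentric subdivision of the boundary of the cross
polytope of dimension `n`. -/
theorem cube_poly (n : ℕ) (hn : 0 < n) : ∃ P : SPoly n {x : Fin n → SignType // x ≠ 0}, P.Good ∧
    ∀ x y, P.adj x y ↔ x ≠ y ∧ ((∀ i, x.1 i = 0 ∨ x.1 i = y.1 i) ∨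
      (∀ i, y.1 i = 0 ∨ y.1 i = x.1 i)) := by
  classical
  obtain ⟨P, hP, h1, h2, h3, h4⟩ := b2x n ((Fin n → ℝ) × ℝ) (Fin n × Bool) (fun _ _ => False)
    (cubeW n) (by simp) (fun _ _ h => h)
    ⟨(⟨0, hn⟩, true), (⟨0, hn⟩, false), by simp, fun h => h⟩ (by
      intro x hx
      have e1 := fun i => hx (i, true)
      have e2 := fun i => hx (i, false)
      simp only [cubeW_true, cubeW_false] at e1 e2
      have e3 : x.2 = 0 := by
        have := e1 ⟨0, hn⟩
        have := e2 ⟨0, hn⟩
        linarith
      refine Prod.ext (funext fun i => ?_) e3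
      have := e1 i
      rw [e3, zero_add] at this
      exact this) (cube_star n)
  -- the bijection
  have hE : ∀ x : Fin n → SignType, 1 < (cubeS x).card →
      IsE (fun _ _ => False) (cubeW n) (cubeS x) ∧ cubeS x ≠ univ := by
    intro x hx
    refine ⟨⟨(cube_isF _).2 (Or.inr ⟨x, rfl⟩), ?_⟩, ?_⟩
    · intro h
      obtain ⟨u, hu, v, hv, huv⟩ := Finset.one_lt_card.1 hx
      exact h u hu v hv huv
    · intro h
      have e1 : ((⟨0, hn⟩, true) : Fin n × Bool) ∈ cubeS x := by rw [h]; exact Finset.mem_univ _
      have e2 : ((⟨0, hn⟩, false) : Fin n × Bool) ∈ cubeS x := by rw [h]; exact Finset.mem_univ _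
      rw [mem_cubeS] at e1 e2
      rw [e1] at e2
      simp at e2
  have hne : ∀ x : {x : Fin n → SignType // x ≠ 0}, (cubeS x.1).Nonempty := by
    intro x
    by_contra h
    rw [Finset.not_nonempty_iff_eq_empty] at h
    apply x.2
    apply cubeS_inj
    rw [h]
    symm
    rw [Finset.eq_empty_iff_forall_notMem]
    intro v hv
    rw [mem_cubeS] at hv
    simp at hv
    split_ifs at hv
  have hone : ∀ x : {x : Fin n → SignType // x ≠ 0}, ¬ 1 < (cubeS x.1).card →
      ∃ v, cubeS x.1 = {v} := by
    intro x hx
    have := Finset.card_pos.2 (hne x)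
    exact Finset.card_eq_one.1 (by omega)
  let F : {x : Fin n → SignType // x ≠ 0} → (Fin n × Bool) ⊕
      {φ : Finset (Fin n × Bool) // IsE (fun _ _ => False) (cubeW n) φ ∧ φ ≠ univ} := fun x =>
    if h : 1 < (cubeS x.1).card then Sum.inr ⟨cubeS x.1, hE x.1 h⟩
    else Sum.inl (Classical.choose (hone x h))
  -- the set of `F x`
  let G : (Fin n × Bool) ⊕
      {φ : Finset (Fin n × Bool) // IsE (fun _ _ => False) (cubeW n) φ ∧ φ ≠ univ} →
      Finset (Fin n × Bool) := Sum.elim (fun v => {v}) (fun φ => φ.1)
  have hGF : ∀ x, G (F x) = cubeS x.1 := by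
    intro x
    by_cases h : 1 < (cubeS x.1).card
    · have : F x = Sum.inr ⟨cubeS x.1, hE x.1 h⟩ := dif_pos h
      rw [this]
      rfl
    · have : F x = Sum.inl (Classical.choose (hone x h)) := dif_neg h
      rw [this]
      exact (Classical.choose_spec (hone x h)).symm
  have hGinj : Function.Injective G := by
    rintro (u | φ) (v | ψ) h
    · have : u = v := Finset.singleton_injective h
      rw [this]
    · exfalso
      apply ψ.2.1.2
      have h' : ψ.1 = {u} := h.symm
      rw [h']
      intro a ha b hb hab
      rw [Finset.mem_singleton] at ha hb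
      exact hab (ha.trans hb.symm)
    · exfalso
      apply φ.2.1.2
      have h' : φ.1 = {v} := h
      rw [h']
      intro a ha b hb hab
      rw [Finset.mem_singleton] at ha hb
      exact hab (ha.trans hb.symm)
    · have : φ = ψ := Subtype.ext h
      rw [this]
  have hFinj : Function.Injective F := by
    intro x y h
    apply Subtype.ext
    apply cubeS_inj
    rw [← hGF, ← hGF, h]
  have hFsurj : Function.Surjective F := by
    intro t
    have : ∃ x : Fin n → SignType, x ≠ 0 ∧ cubeS x = G t := by
      have hz : cubeS (0 : Fin n → SignType) = ∅ := by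
        rw [Finset.eq_empty_iff_forall_notMem]
        intro v hv
        rw [mem_cubeS] at hv
        simp at hv
        split_ifs at hv
      rcases t with ⟨i, b⟩ | φ
      · refine ⟨Pi.single i (if b then 1 else -1), ?_, ?_⟩
        · intro h
          have := congrFun h i
          rw [Pi.single_eq_same] at this
          cases b <;> simp at this
        · ext ⟨j, b'⟩
          rw [mem_cubeS]
          show _ ↔ (j, b') ∈ ({(i, b)} : Finset _)
          rw [Finset.mem_singleton]
          by_cases hij : j = i
          · subst hij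
            rw [Pi.single_eq_same]
            cases b <;> cases b' <;> simp
          · simp only [Pi.single_eq_of_ne hij]
            constructor
            · intro h
              cases b' <;> simp at h
            · intro h
              exact absurd (Prod.ext_iff.1 h).1 hij
      · rcases (cube_isF φ.1).1 φ.2.1.1 with h | ⟨x, hx⟩
        · exact absurd h φ.2.2
        · refine ⟨x, ?_, hx⟩
          rintro rfl
          apply φ.2.1.2
          rw [← hx, hz]
          intro a ha
          exact absurd ha (Finset.notMem_empty a)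
    obtain ⟨x, hx, hx'⟩ := this
    exact ⟨⟨x, hx⟩, hGinj (by rw [hGF, hx'])⟩
  let e := Equiv.ofBijective F ⟨hFinj, hFsurj⟩
  refine ⟨P.reindex e, P.reindex_good e hP, ?_⟩
  intro x y
  rw [P.reindex_adj e]
  have hkey : ∀ s t, P.adj s t ↔ s ≠ t ∧ (G s ⊆ G t ∨ G t ⊆ G s) := by
    rintro (u | φ) (v | ψ)
    · constructor
      · intro h
        exact absurd ((h1 u v (fun h' => h.1 (by rw [h']))).1 h) id
      · rintro ⟨h, h' | h'⟩
        · exact absurd (by rw [Finset.singleton_subset_singleton.1 h']) h
        · exact absurd (by rw [Finset.singleton_subset_singleton.1 h']) h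
    · rw [h2]
      constructor
      · intro h
        exact ⟨by simp, Or.inl (Finset.singleton_subset_iff.2 h)⟩
      · rintro ⟨-, h | h⟩
        · exact Finset.singleton_subset_iff.1 h
        · exfalso
          apply ψ.2.1.2
          intro a ha b hb hab
          have ha' := Finset.mem_singleton.1 (h ha)
          have hb' := Finset.mem_singleton.1 (h hb)
          exact hab (ha'.trans hb'.symm)
    · rw [h3]
      constructor
      · intro h
        exact ⟨by simp, Or.inr (Finset.singleton_subset_iff.2 h)⟩
      · rintro ⟨-, h | h⟩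
        · exfalso
          apply φ.2.1.2
          intro a ha b hb hab
          have ha' := Finset.mem_singleton.1 (h ha)
          have hb' := Finset.mem_singleton.1 (h hb)
          exact hab (ha'.trans hb'.symm)
        · exact Finset.singleton_subset_iff.1 h
    · rw [h4]
      exact and_congr_left' (by simp)
  have hex : e x = F x := rfl
  have hey : e y = F y := rfl
  rw [hex, hey, hkey, hGF, hGF, cubeS_subset, cubeS_subset]
  exact and_congr_left' hFinj.ne_iff

end Pool.LU
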