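import Pool.Agent.H41.LU.PolyList

/-!
Project LU, part Y: a checker for simple polytopes of dimension 5 given by integer data.
-/

set_option autoImplicit false
set_option linter.unusedSectionVars false

open scoped BigOperators
open Finset

namespace Pool.LU

namespace Chk

/-- integer vectors -/
abbrev V5 : Type := ℤ × ℤ × ℤ × ℤ × ℤ

def dot (a b : V5) : ℤ :=
  a.1 * b.1 + (a.2.1 * b.2.1 + (a.2.2.1 * b.2.2.1 + (a.2.2.2.1 * b.2.2.2.1 +
    a.2.2.2.2 * b.2.2.2.2)))

/-- the normals with bit 1 in `m` satisfy `a ⬝ y = d`, the others `a ⬝ y < d` -/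
def chkF : List V5 → ℕ → V5 → ℤ → Bool
  | [], _, _, _ => true
  | a :: as, m, y, d => (if m % 2 = 1 then decide (dot a y = d) else decide (dot a y < d)) &&
      chkF as (m / 2) y d

theorem chkF_sound : ∀ (nrm : List V5) (m : ℕ) (y : V5) (d : ℤ), chkF nrm m y d = true →
    ∀ i a, nrm[i]? = some a → (m.testBit i = true → dot a y = d) ∧
      (m.testBit i = false → dot a y < d) := by
  intro nrm
  induction nrm with
  | nil =>
    intro m y d _ i a hi
    simp at hi
  | cons b bs ih =>
    intro m y d h i a hi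
    rw [chkF, Bool.and_eq_true] at h
    cases i with
    | zero =>
      simp only [List.getElem?_cons_zero, Option.some.injEq] at hi
      rw [← hi, Nat.testBit_zero]
      have h1 := h.1
      by_cases hm : m % 2 = 1
      · rw [if_pos hm, decide_eq_true_iff] at h1
        exact ⟨fun _ => h1, fun h2 => absurd hm (of_decide_eq_false h2)⟩
      · rw [if_neg hm, decide_eq_true_iff] at h1
        exact ⟨fun h2 => absurd (of_decide_eq_true h2) hm, fun _ => h1⟩
    | succ i =>
      rw [List.getElem?_cons_succ] at hi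
      rw [Nat.testBit_succ]
      exact ih (m / 2) y d h.2 i a hi

/-- number of bits among the first `k` -/
def pc : ℕ → ℕ → ℕ
  | 0, _ => 0
  | k + 1, m => m % 2 + pc k (m / 2)

theorem pc_eq : ∀ (k m : ℕ), (univ.filter (fun i : Fin k => m.testBit i = true)).card = pc k m := by
  intro k
  induction k with
  | zero => intro m; rfl
  | succ k ih =>
    intro m
    rw [Finset.card_filter, Fin.sum_univ_succ, pc, ← ih (m / 2), Finset.card_filter]
    congr 1
    · rw [Fin.val_zero, Nat.testBit_zero]
      rcases Nat.mod_two_eq_zero_or_one m with h | h <;> simp [h]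
    · refine Finset.sum_congr rfl fun i _ => ?_
      rw [Fin.val_succ, Nat.testBit_succ]

/-- all facets are correct; `k` is the number of the normals -/
def chkAll (nrm : List V5) (k : ℕ) : List (ℕ × V5 × ℤ) → Bool
  | [] => true
  | e :: es => (decide (0 < e.2.2) && (chkF nrm e.1 e.2.1 e.2.2 &&
      (decide (pc k e.1 = 5) && decide (e.1 < 2 ^ k)))) && chkAll nrm k es

theorem chkAll_sound (nrm : List V5) (k : ℕ) (es : List (ℕ × V5 × ℤ))
    (h : chkAll nrm k es = true) : ∀ e ∈ es, 0 < e.2.2 ∧ chkF nrm e.1 e.2.1 e.2.2 = true ∧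
      pc k e.1 = 5 ∧ e.1 < 2 ^ k := by
  induction es with
  | nil =>
    intro e he
    simp at he
  | cons f fs ih =>
    rw [chkAll, Bool.and_eq_true, Bool.and_eq_true, Bool.and_eq_true, Bool.and_eq_true,
      decide_eq_true_iff, decide_eq_true_iff, decide_eq_true_iff] at h
    intro e he
    rcases List.mem_cons.1 he with h1 | h1
    · rw [h1]
      exact ⟨h.1.1, h.1.2.1, h.1.2.2.1, h.1.2.2.2⟩
    · exact ih h.2 e h1

/-- union of the facets containing `u` -/
def orF (u : ℕ) : List ℕ → ℕ
  | [] => 0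
  | F :: Fs => if F.testBit u then F ||| orF u Fs else orF u Fs

theorem orF_iff (u v : ℕ) (Fs : List ℕ) : (orF u Fs).testBit v = true ↔
    ∃ F ∈ Fs, F.testBit u = true ∧ F.testBit v = true := by
  induction Fs with
  | nil => simp [orF]
  | cons F Fs ih =>
    rw [orF]
    by_cases h : F.testBit u = true
    · rw [if_pos h, Nat.testBit_or, Bool.or_eq_true, ih]
      simp [h]
    · rw [if_neg h, ih]
      simp [h]

/-- the neighbours -/
def chkN (Fs : List ℕ) : ℕ → List ℕ → Bool
  | _, [] => true
  | u, N :: Ns => (decide (orF u Fs = N ||| 2 ^ u) && !(N.testBit u)) && chkN Fs (u + 1) Ns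

theorem chkN_sound (Fs : List ℕ) : ∀ (Ns : List ℕ) (u : ℕ), chkN Fs u Ns = true →
    ∀ i N, Ns[i]? = some N → orF (u + i) Fs = N ||| 2 ^ (u + i) ∧ N.testBit (u + i) = false := by
  intro Ns
  induction Ns with
  | nil =>
    intro u _ i N hi
    simp at hi
  | cons M Ms ih =>
    intro u h i N hi
    rw [chkN, Bool.and_eq_true, Bool.and_eq_true, decide_eq_true_iff, Bool.not_eq_true'] at h
    cases i with
    | zero =>
      simp only [List.getElem?_cons_zero, Option.some.injEq] at hi
      rw [← hi]
      exact h.1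
    | succ i =>
      rw [List.getElem?_cons_succ] at hi
      have := ih (u + 1) h.2 i N hi
      rwa [show u + 1 + i = u + (i + 1) by omega] at this

/-- the cliques are contained in facets, and the cliques with 4 elements in two of them -/
def clq : List (ℕ × ℕ) → List ℕ → ℕ → ℕ → Bool
  | [], Fs, _, k => !Fs.isEmpty && (!(k == 4) || decide (2 ≤ Fs.length))
  | p :: rest, Fs, cand, k => clq rest Fs cand k &&
      (if cand.testBit p.1 then clq rest (Fs.filter (fun F => F.testBit p.1)) (cand &&& p.2) (k + 1)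
        else true)

theorem clq_sound : ∀ (rest : List (ℕ × ℕ)) (Fs : List ℕ) (cand k : ℕ),
    clq rest Fs cand k = true → ∀ S : List (ℕ × ℕ), S.Sublist rest →
    (∀ p ∈ S, cand.testBit p.1 = true) → S.Pairwise (fun p q => p.2.testBit q.1 = true) →
    (Fs.filter (fun F => S.all (fun p => F.testBit p.1))) ≠ [] ∧
    (k + S.length = 4 → 2 ≤ (Fs.filter (fun F => S.all (fun p => F.testBit p.1))).length) := by
  intro rest
  induction rest with
  | nil =>
    intro Fs cand k h S hS _ _
    rw [List.sublist_nil] at hS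
    subst hS
    rw [clq, Bool.and_eq_true, Bool.or_eq_true] at h
    simp only [List.all_nil, List.filter_true, List.length_nil, add_zero]
    refine ⟨?_, ?_⟩
    · rintro rfl
      simp at h
    · intro hk
      rcases h.2 with h2 | h2
      · rw [hk] at h2
        simp at h2
      · exact of_decide_eq_true h2
  | cons p rest ih =>
    intro Fs cand k h S hS hc hP
    rw [clq, Bool.and_eq_true] at h
    cases hS with
    | cons _ h' => exact ih Fs cand k h.1 S h' hc hP
    | cons_cons _ h' =>
      rename_i S'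
      have hcp : cand.testBit p.1 = true := hc p (List.mem_cons_self)
      have h2 := h.2
      rw [if_pos hcp] at h2
      rw [List.pairwise_cons] at hP
      have h3 := ih _ _ _ h2 S' h' (by
        intro q hq
        rw [Nat.testBit_and, hc q (List.mem_cons_of_mem _ hq), hP.1 q hq]
        rfl) hP.2
      have h4 : ∀ Fs : List ℕ, (Fs.filter (fun F => F.testBit p.1)).filter
          (fun F => S'.all (fun q => F.testBit q.1)) =
          Fs.filter (fun F => (p :: S').all (fun q => F.testBit q.1)) := by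
        intro Fs
        rw [List.filter_filter]
        congr 1
        funext F
        rw [List.all_cons, Bool.and_comm]
      rw [h4] at h3
      refine ⟨h3.1, fun hk => h3.2 ?_⟩
      rw [List.length_cons] at hk
      omega

end Chk

open Chk

/-- the set with bit mask `m` -/
def mset (k m : ℕ) : Finset (Fin k) := univ.filter (fun i => m.testBit i = true)

theorem mem_mset {k m : ℕ} {i : Fin k} : i ∈ mset k m ↔ m.testBit i = true := by
  rw [mset, Finset.mem_filter]
  exact and_iff_right (Finset.mem_univ _)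

noncomputable section

/-- the real linear form of an integer vector -/
def form (a : V5) : (Fin 5 → ℝ) →ₗ[ℝ] ℝ :=
  (a.1 : ℝ) • LinearMap.proj 0 + (a.2.1 : ℝ) • LinearMap.proj 1 +
    (a.2.2.1 : ℝ) • LinearMap.proj 2 + (a.2.2.2.1 : ℝ) • LinearMap.proj 3 +
    (a.2.2.2.2 : ℝ) • LinearMap.proj 4

/-- the polytope `{x | a ⬝ x ≤ 1}` -/
def polyOf (k : ℕ) (nrm : List V5) : SPoly 5 (Fin k) where
  a v := - form (nrm.getD v 0)
  b _ := 1

/-- the point `y / d` -/
def pt (y : V5) (d : ℤ) : Fin 5 → ℝ :=
  ![(y.1 : ℝ) / d, (y.2.1 : ℝ) / d, (y.2.2.1 : ℝ) / d, (y.2.2.2.1 : ℝ) / d, (y.2.2.2.2 : ℝ) / d]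

theorem form_pt (a y : V5) (d : ℤ) : form a (pt y d) = (dot a y : ℝ) / d := by
  simp only [form, pt, dot, LinearMap.add_apply, LinearMap.smul_apply, LinearMap.proj_apply,
    smul_eq_mul]
  simp
  ring

/-- The criterion for a polytope of dimension 5 with `k` facets: `nrm` the normals, `fct` the
vertices (bit mask, numerators, denominator), `nbr` the bit masks of the neighbours. -/
theorem poly_chk (k : ℕ) (nrm : List V5) (fct : List (ℕ × V5 × ℤ)) (nbr : List ℕ)
    (hk : nrm.length = k) (hk' : nbr.length = k)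
    (h1 : chkAll nrm k fct = true) (h2 : chkN (fct.map Prod.fst) 0 nbr = true)
    (h3 : (fct.map Prod.fst).Nodup)
    (h4 : clq ((List.range k).zip nbr) (fct.map Prod.fst) (2 ^ k - 1) 0 = true) :
    (polyOf k nrm).Good ∧ ∀ u v : Fin k, (polyOf k nrm).adj u v ↔
      (nbr.getD u 0).testBit v = true := by
  classical
  set Fs := fct.map Prod.fst with hFs
  have hall := chkAll_sound nrm k fct h1
  have hget : ∀ v : Fin k, nrm[(v : ℕ)]? = some (nrm.getD v 0) := by
    intro v
    have hv : (v : ℕ) < nrm.length := by rw [hk]; exact v.2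
    rw [List.getD_eq_getElem _ _ hv, List.getElem?_eq_getElem hv]
  have hgetN : ∀ v : Fin k, nbr[(v : ℕ)]? = some (nbr.getD v 0) := by
    intro v
    have hv : (v : ℕ) < nbr.length := by rw [hk']; exact v.2
    rw [List.getD_eq_getElem _ _ hv, List.getElem?_eq_getElem hv]
  -- the adjacency
  have hadj : ∀ u v : Fin k, (nbr.getD u 0).testBit v = true ↔
      u ≠ v ∧ ∃ F ∈ Fs, F.testBit u = true ∧ F.testBit v = true := by
    intro u v
    obtain ⟨h5, h6⟩ := chkN_sound Fs nbr 0 h2 u _ (hgetN u)
    rw [zero_add] at h5 h6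
    rw [← orF_iff, h5, Nat.testBit_or, Nat.testBit_two_pow]
    constructor
    · intro h
      refine ⟨?_, by rw [h]; rfl⟩
      rintro rfl
      rw [h6] at h
      exact absurd h (by simp)
    · rintro ⟨h, h7⟩
      have h8 : decide ((u : ℕ) = v) = false := by
        rw [decide_eq_false_iff_not]
        exact fun h' => h (Fin.ext h')
      rw [h8, Bool.or_false] at h7
      exact h7
  -- cliques
  have hclq : ∀ σ : Finset (Fin k), (∀ u ∈ σ, ∀ v ∈ σ, u ≠ v → (nbr.getD u 0).testBit v = true) →
      (∃ F ∈ Fs, σ ⊆ mset k F) ∧ (σ.card = 4 → ∀ F ∈ Fs, σ ⊆ mset k F → ∃ F' ∈ Fs, F' ≠ F ∧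
        σ ⊆ mset k F') := by
    intro σ hσ
    -- the sublist of the range
    set S : List (ℕ × ℕ) := ((List.range k).zip nbr).filter
      (fun p => decide (∃ u ∈ σ, (u : ℕ) = p.1)) with hS
    have hzip : ∀ p ∈ (List.range k).zip nbr, ∃ hp : p.1 < k,
        p.2 = nbr.getD p.1 0 := by
      intro p hp
      obtain ⟨i, hi, hi'⟩ := List.mem_iff_getElem.1 hp
      rw [List.getElem_zip] at hi'
      rw [List.length_zip, List.length_range, hk', min_self] at hi
      have h5 : p.1 = i := by
        rw [← hi']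
        simp
      refine ⟨by rw [h5]; exact hi, ?_⟩
      have h6 : i < nbr.length := by rw [hk']; exact hi
      rw [h5, List.getD_eq_getElem _ _ h6, ← hi']
    have hnod : ((List.range k).zip nbr).Pairwise (fun p q => p.1 ≠ q.1) := by
      have h5 : (((List.range k).zip nbr).map Prod.fst).Nodup := by
        rw [List.map_fst_zip (by rw [List.length_range, hk'])]
        exact List.nodup_range
      exact List.pairwise_map.1 h5
    have hSsub : S.Sublist ((List.range k).zip nbr) := List.filter_sublist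
    have hSmem : ∀ p, p ∈ S → ∃ u ∈ σ, (u : ℕ) = p.1 ∧ p.2 = nbr.getD u 0 := by
      intro p hp
      rw [hS, List.mem_filter, decide_eq_true_iff] at hp
      obtain ⟨u, hu, hu'⟩ := hp.2
      obtain ⟨h5, h6⟩ := hzip p hp.1
      exact ⟨u, hu, hu', by rw [h6, hu']⟩
    have hSmem' : ∀ u ∈ σ, ((u : ℕ), nbr.getD u 0) ∈ S := by
      intro u hu
      rw [hS, List.mem_filter, decide_eq_true_iff]
      refine ⟨?_, u, hu, rfl⟩
      rw [List.mem_iff_getElem]
      have h6 : (u : ℕ) < nbr.length := by rw [hk']; exact u.2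
      refine ⟨u, by rw [List.length_zip, List.length_range, hk', min_self]; exact u.2, ?_⟩
      rw [List.getElem_zip, List.getD_eq_getElem _ _ h6]
      simp
    have h5 := clq_sound _ Fs (2 ^ k - 1) 0 h4 S hSsub (by
      intro p hp
      obtain ⟨u, hu, h5, h6⟩ := hSmem p hp
      rw [Nat.testBit_two_pow_sub_one, ← h5]
      exact decide_eq_true u.2) (by
      refine List.Pairwise.imp_of_mem ?_ (hnod.sublist hSsub)
      intro p q hp hq hpq
      obtain ⟨u, hu, h5, h6⟩ := hSmem p hp
      obtain ⟨v, hv, h7, h8⟩ := hSmem q hq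
      rw [h6, ← h7]
      exact hσ u hu v hv (fun h => hpq (by rw [← h5, ← h7, h])))
    have hfil : ∀ F, F ∈ Fs.filter (fun F => S.all (fun p => F.testBit p.1)) ↔
        F ∈ Fs ∧ σ ⊆ mset k F := by
      intro F
      rw [List.mem_filter, List.all_eq_true]
      refine and_congr_right fun _ => ?_
      constructor
      · intro h u hu
        rw [mem_mset]
        exact h _ (hSmem' u hu)
      · intro h p hp
        obtain ⟨u, hu, h6, -⟩ := hSmem p hp
        have := h hu
        rw [mem_mset, h6] at this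
        exact this
    have hlen : S.length = σ.card := by
      have h6 : (S.map Prod.fst).Nodup := List.pairwise_map.2 (hnod.sublist hSsub)
      rw [← List.length_map (f := Prod.fst) (as := S), ← List.toFinset_card_of_nodup h6,
        ← Finset.card_image_of_injective σ Fin.val_injective]
      congr 1
      ext a
      rw [List.mem_toFinset, List.mem_map, Finset.mem_image]
      constructor
      · rintro ⟨p, hp, rfl⟩
        obtain ⟨u, hu, h7, -⟩ := hSmem p hp
        exact ⟨u, hu, h7⟩
      · rintro ⟨u, hu, rfl⟩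
        exact ⟨_, hSmem' u hu, rfl⟩
    refine ⟨?_, ?_⟩
    · obtain ⟨F, hF⟩ := List.exists_mem_of_ne_nil _ h5.1
      rw [hfil] at hF
      exact ⟨F, hF⟩
    · intro hcard F hF hσF
      have h6 := h5.2 (by rw [zero_add, hlen, hcard])
      have h7 : (Fs.filter (fun F => S.all (fun p => F.testBit p.1))).Nodup := h3.filter _
      by_contra h8
      push Not at h8
      have h9 : ∀ F' ∈ Fs.filter (fun F => S.all (fun p => F.testBit p.1)), F' = F := by
        intro F' hF'
        rw [hfil] at hF'
        by_contra h10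
        exact h8 F' hF'.1 h10 hF'.2
      have h10 : (Fs.filter (fun F => S.all (fun p => F.testBit p.1))).length ≤ 1 := by
        rw [← List.toFinset_card_of_nodup h7]
        have h11 : (Fs.filter (fun F => S.all (fun p => F.testBit p.1))).toFinset ⊆ {F} := by
          intro F' hF'
          rw [List.mem_toFinset] at hF'
          rw [Finset.mem_singleton]
          exact h9 F' hF'
        exact (Finset.card_le_card h11).trans (by simp)
      omega
  -- the list of the vertices
  let L : Finset (Finset (Fin k)) := (Fs.map (mset k)).toFinset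
  have hL : ∀ F, F ∈ L ↔ ∃ e ∈ fct, mset k e.1 = F := by
    intro F
    simp only [L, List.mem_toFinset, List.mem_map, hFs, List.map_map]
    constructor
    · rintro ⟨e, he, h⟩
      exact ⟨e, he, h⟩
    · rintro ⟨e, he, h⟩
      exact ⟨e, he, h⟩
  let x : Finset (Fin k) → Fin 5 → ℝ := fun F =>
    if h : ∃ e ∈ fct, mset k e.1 = F then pt (Classical.choose h).2.1 (Classical.choose h).2.2
    else 0
  have hx : ∀ F ∈ L, ∃ e ∈ fct, mset k e.1 = F ∧ x F = pt e.2.1 e.2.2 := by
    intro F hF
    have h := (hL F).1 hF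
    refine ⟨Classical.choose h, (Classical.choose_spec h).1, (Classical.choose_spec h).2, ?_⟩
    exact dif_pos h
  have hcard : ∀ e ∈ fct, (mset k e.1).card = 5 := by
    intro e he
    rw [mset, pc_eq]
    exact (hall e he).2.2.1
  have hl : ∀ (v : Fin k) (y : V5) (d : ℤ), 0 < d → (polyOf k nrm).l v (pt y d) =
      ((d - dot (nrm.getD v 0) y : ℤ) : ℝ) / d := by
    intro v y d hd
    have hd' : (d : ℝ) ≠ 0 := by exact_mod_cast hd.ne'
    show (- form (nrm.getD v 0)) (pt y d) + 1 = _
    rw [LinearMap.neg_apply, form_pt]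
    push_cast
    field_simp
    ring
  have hmem : ∀ e ∈ fct, ∀ v : Fin k, (v ∈ mset k e.1 → (polyOf k nrm).l v (pt e.2.1 e.2.2) = 0) ∧
      (v ∉ mset k e.1 → 0 < (polyOf k nrm).l v (pt e.2.1 e.2.2)) := by
    intro e he v
    obtain ⟨h5, h6, -⟩ := hall e he
    have h7 := chkF_sound nrm e.1 e.2.1 e.2.2 h6 v _ (hget v)
    rw [hl v e.2.1 e.2.2 h5, mem_mset]
    have h8 : (0 : ℝ) < (e.2.2 : ℝ) := by exact_mod_cast h5
    constructor
    · intro h
      rw [h7.1 h, sub_self]
      simp
    · intro h
      rw [Bool.not_eq_true] at h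
      apply div_pos _ h8
      exact_mod_cast sub_pos.2 (h7.2 h)
  have hVL : VList (polyOf k nrm) L x := by
    refine ⟨?_, ?_, ?_, ?_, ?_⟩
    · obtain ⟨⟨F, hF, -⟩, -⟩ := hclq ∅ (fun u hu => absurd hu (Finset.notMem_empty _))
      refine ⟨mset k F, ?_⟩
      simp only [L, List.mem_toFinset, List.mem_map]
      exact ⟨F, hF, rfl⟩
    · intro F hF
      obtain ⟨e, he, rfl, -⟩ := hx F hF
      exact hcard e he
    · intro F hF v hv
      obtain ⟨e, he, rfl, h⟩ := hx F hF
      rw [h]
      exact (hmem e he v).1 hv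
    · intro F hF v hv
      obtain ⟨e, he, rfl, h⟩ := hx F hF
      rw [h]
      exact (hmem e he v).2 hv
    · intro F hF v hv
      obtain ⟨e, he, rfl, -⟩ := hx F hF
      have h5 : e.1 ∈ Fs := List.mem_map.2 ⟨e, he, rfl⟩
      obtain ⟨F', hF', h6, h7⟩ := (hclq ((mset k e.1).erase v) (by
        intro a ha b hb hab
        rw [hadj]
        refine ⟨hab, e.1, h5, ?_, ?_⟩
        · exact mem_mset.1 (Finset.mem_of_mem_erase ha)
        · exact mem_mset.1 (Finset.mem_of_mem_erase hb))).2 (by
          rw [Finset.card_erase_of_mem hv, hcard e he]) e.1 h5 (Finset.erase_subset _ _)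
      obtain ⟨e', he', rfl⟩ := List.mem_map.1 hF'
      refine ⟨mset k e'.1, (hL _).2 ⟨e', he', rfl⟩, h7, ?_⟩
      intro hv'
      have h8 : mset k e.1 ⊆ mset k e'.1 := by
        intro a ha
        by_cases hav : a = v
        · rw [hav]
          exact hv'
        · exact h7 (Finset.mem_erase.2 ⟨hav, ha⟩)
      have h9 : mset k e.1 = mset k e'.1 :=
        Finset.eq_of_subset_of_card_le h8 (by rw [hcard e he, hcard e' he'])
      -- the masks are equal
      apply h6
      have h10 : ∀ e ∈ fct, e.1 < 2 ^ k := by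
        intro e he
        exact (hall e he).2.2.2
      apply Nat.eq_of_testBit_eq
      intro i
      by_cases hi : i < k
      · have h11 : (⟨i, hi⟩ : Fin k) ∈ mset k e'.1 ↔ (⟨i, hi⟩ : Fin k) ∈ mset k e.1 := by rw [h9]
        rw [mem_mset, mem_mset] at h11
        exact Bool.eq_iff_iff.2 h11
      · rw [Nat.testBit_lt_two_pow (lt_of_lt_of_le (h10 e' he') (Nat.pow_le_pow_right (by norm_num)
          (by omega))), Nat.testBit_lt_two_pow (lt_of_lt_of_le (h10 e he)
          (Nat.pow_le_pow_right (by norm_num) (by omega)))]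
  have hFL : ∀ u v : Fin k, (∃ F ∈ L, u ∈ F ∧ v ∈ F) ↔
      ∃ F ∈ Fs, F.testBit u = true ∧ F.testBit v = true := by
    intro u v
    constructor
    · rintro ⟨F, hF, h5, h6⟩
      obtain ⟨e, he, rfl⟩ := (hL F).1 hF
      exact ⟨e.1, List.mem_map.2 ⟨e, he, rfl⟩, mem_mset.1 h5, mem_mset.1 h6⟩
    · rintro ⟨F, hF, h5, h6⟩
      obtain ⟨e, he, rfl⟩ := List.mem_map.1 hF
      exact ⟨mset k e.1, (hL _).2 ⟨e, he, rfl⟩, mem_mset.2 h5, mem_mset.2 h6⟩
  refine ⟨hVL.good ?_, ?_⟩
  · intro σ hσ
    obtain ⟨⟨F, hF, h5⟩, -⟩ := hclq σ (by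
      intro u hu v hv huv
      rw [hadj]
      exact ⟨huv, (hFL u v).1 (hσ u hu v hv huv)⟩)
    obtain ⟨e, he, rfl⟩ := List.mem_map.1 hF
    exact ⟨mset k e.1, (hL _).2 ⟨e, he, rfl⟩, h5⟩
  · intro u v
    rw [hVL.adj_iff, hadj, hFL]

end

end Pool.LU
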