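import Pool.Agent.H3.LU.BDefs

/-!
Project LU, part Y: a list of vertices of a simple polytope, closed under the neighbours, is
complete; a criterion for `SPoly.Good` with explicit nerve.
-/

set_option autoImplicit false
set_option linter.unusedSectionVars false

open scoped BigOperators
open Finset

noncomputable section

namespace Pool.LU

/-- The data of a list `L` of vertices: for each `F ∈ L` a point `x F` such that exactly the facets
in `F` contain `x F`; `L` is closed under neighbours. -/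
structure VList {n : ℕ} {V : Type} [DecidableEq V] (P : SPoly n V) (L : Finset (Finset V))
    (x : Finset V → Fin n → ℝ) : Prop where
  ne : L.Nonempty
  card : ∀ F ∈ L, F.card = n
  zero : ∀ F ∈ L, ∀ v ∈ F, P.l v (x F) = 0
  pos : ∀ F ∈ L, ∀ v, v ∉ F → 0 < P.l v (x F)
  nb : ∀ F ∈ L, ∀ v ∈ F, ∃ F' ∈ L, F.erase v ⊆ F' ∧ v ∉ F'

namespace VList

variable {n : ℕ} {V : Type} [DecidableEq V] {P : SPoly n V} {L : Finset (Finset V)}
  {x : Finset V → Fin n → ℝ}

theorem mem (h : VList P L x) {F : Finset V} (hF : F ∈ L) : x F ∈ P.cham := by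
  intro v
  by_cases hv : v ∈ F
  · exact (h.zero F hF v hv).ge
  · exact (h.pos F hF v hv).le

theorem l_sub (v : V) (y z : Fin n → ℝ) : P.a v (y - z) = P.l v y - P.l v z := by
  rw [SPoly.l, SPoly.l, map_sub]
  ring

theorem indep (h : VList P L x) {F : Finset V} (hF : F ∈ L) :
    LinearIndependent ℝ (fun v : F => P.a v) := by
  rw [Fintype.linearIndependent_iff]
  intro g hg v
  obtain ⟨F', hF', h1, h2⟩ := h.nb F hF v v.2
  have h3 := congrArg (fun f : (Fin n → ℝ) →ₗ[ℝ] ℝ => f (x F' - x F)) hg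
  simp only [LinearMap.sum_apply, LinearMap.smul_apply, smul_eq_mul, LinearMap.zero_apply] at h3
  rw [Finset.sum_eq_single v] at h3
  · rw [l_sub, h.zero F hF v v.2, sub_zero] at h3
    exact (mul_eq_zero.1 h3).resolve_right (h.pos F' hF' v h2).ne'
  · intro u _ huv
    have h4 : (u : V) ∈ F' := h1 (Finset.mem_erase.2 ⟨fun h' => huv (Subtype.ext h'), u.2⟩)
    rw [l_sub, h.zero F hF u u.2, h.zero F' hF' u h4, sub_zero, mul_zero]
  · intro h'
    exact absurd (Finset.mem_univ v) h'

/-- every functional is a combination of the forms of the facets in `F` -/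
theorem span (h : VList P L x) {F : Finset V} (hF : F ∈ L) (c : (Fin n → ℝ) →ₗ[ℝ] ℝ) :
    ∃ g : F → ℝ, c = ∑ v, g v • P.a v := by
  have h1 := h.indep hF
  have h2 : Fintype.card F = Module.finrank ℝ (Module.Dual ℝ (Fin n → ℝ)) := by
    rw [Subspace.dual_finrank_eq, Module.finrank_fin_fun, Fintype.card_coe, h.card F hF]
  have h3 := h1.span_eq_top_of_card_eq_finrank' h2
  have h4 : c ∈ Submodule.span ℝ (Set.range fun v : F => P.a v) := by
    rw [h3]
    exact Submodule.mem_top
  obtain ⟨g, hg⟩ := (Submodule.mem_span_range_iff_exists_fun ℝ).1 h4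
  exact ⟨g, hg.symm⟩

/-- the minimum of a functional over the polytope is attained in the list -/
theorem minimum (h : VList P L x) (c : (Fin n → ℝ) →ₗ[ℝ] ℝ) :
    ∃ F ∈ L, ∀ y ∈ P.cham, c (x F) ≤ c y := by
  obtain ⟨F, hF, hmin⟩ := Finset.exists_min_image L (fun F => c (x F)) h.ne
  refine ⟨F, hF, fun y hy => ?_⟩
  obtain ⟨g, hg⟩ := h.span hF c
  have h1 : ∀ z, c z - c (x F) = ∑ v : F, g v * P.l v z := by
    intro z
    rw [← map_sub, hg]
    simp only [LinearMap.sum_apply, LinearMap.smul_apply, smul_eq_mul]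
    refine Finset.sum_congr rfl fun v _ => ?_
    rw [l_sub, h.zero F hF v v.2, sub_zero]
  have h2 : ∀ v : F, 0 ≤ g v := by
    intro v
    obtain ⟨F', hF', h3, h4⟩ := h.nb F hF v v.2
    have h5 := h1 (x F')
    rw [Finset.sum_eq_single v] at h5
    · have h6 := hmin F' hF'
      have h7 := h.pos F' hF' v h4
      by_contra h8
      push Not at h8
      have : g v * P.l v (x F') < 0 := mul_neg_of_neg_of_pos h8 h7
      linarith
    · intro u _ huv
      have h6 : (u : V) ∈ F' := h3 (Finset.mem_erase.2 ⟨fun h' => huv (Subtype.ext h'), u.2⟩)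
      rw [h.zero F' hF' u h6, mul_zero]
    · intro h'
      exact absurd (Finset.mem_univ v) h'
  have h3 : 0 ≤ ∑ v : F, g v * P.l v y := Finset.sum_nonneg fun v _ => mul_nonneg (h2 v) (hy v)
  have := h1 y
  linarith

/-- the list is complete -/
theorem complete (h : VList P L x) [Fintype V] {y : Fin n → ℝ} (hy : y ∈ P.cham) :
    ∃ F ∈ L, P.sig y ⊆ (F : Set V) := by
  classical
  obtain ⟨F, hF, hmin⟩ := h.minimum (∑ v ∈ univ.filter (fun v => v ∈ P.sig y), P.a v)
  refine ⟨F, hF, fun v hv => ?_⟩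
  have h1 := hmin y hy
  simp only [LinearMap.sum_apply] at h1
  have h2 : ∑ v ∈ univ.filter (fun v => v ∈ P.sig y), P.l v (x F) ≤
      ∑ v ∈ univ.filter (fun v => v ∈ P.sig y), P.l v y := by
    simp only [SPoly.l, Finset.sum_add_distrib]
    linarith
  have h3 : ∑ v ∈ univ.filter (fun v => v ∈ P.sig y), P.l v y = 0 :=
    Finset.sum_eq_zero fun v hv => (Finset.mem_filter.1 hv).2
  rw [h3] at h2
  by_contra h4
  have h5 := h.pos F hF v h4
  have h6 : P.l v (x F) ≤ ∑ v ∈ univ.filter (fun v => v ∈ P.sig y), P.l v (x F) :=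
    Finset.single_le_sum (f := fun v => P.l v (x F)) (fun u _ => h.mem hF u)
      (Finset.mem_filter.2 ⟨Finset.mem_univ v, hv⟩)
  linarith

theorem face_iff (h : VList P L x) [Fintype V] (σ : Set V) :
    P.Face σ ↔ ∃ F ∈ L, σ ⊆ (F : Set V) := by
  constructor
  · rintro ⟨y, hy, h1⟩
    obtain ⟨F, hF, h2⟩ := h.complete hy
    exact ⟨F, hF, h1.trans h2⟩
  · rintro ⟨F, hF, h1⟩
    exact ⟨x F, h.mem hF, fun v hv => h.zero F hF v (h1 hv)⟩

theorem adj_iff (h : VList P L x) [Fintype V] (u v : V) :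
    P.adj u v ↔ u ≠ v ∧ ∃ F ∈ L, u ∈ F ∧ v ∈ F := by
  rw [SPoly.adj, h.face_iff]
  refine and_congr_right fun _ => ?_
  refine exists_congr fun F => and_congr_right fun _ => ?_
  rw [Set.insert_subset_iff, Set.singleton_subset_iff]
  exact Iff.rfl

theorem compact (h : VList P L x) : IsCompact P.cham := by
  refine Metric.isCompact_of_isClosed_isBounded ?_ ?_
  · have : P.cham = ⋂ v, {y | 0 ≤ P.l v y} := by
      ext y
      simp [SPoly.cham]
    rw [this]
    refine isClosed_iInter fun v => isClosed_le continuous_const ?_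
    exact ((P.a v).continuous_of_finiteDimensional).add continuous_const
  · rw [← Bornology.forall_isBounded_image_eval_iff]
    intro i
    obtain ⟨F, hF, h1⟩ := h.minimum (LinearMap.proj i)
    obtain ⟨F', hF', h2⟩ := h.minimum (-LinearMap.proj i)
    refine (Metric.isBounded_Icc (x F i) (x F' i)).subset ?_
    rintro _ ⟨y, hy, rfl⟩
    have h3 := h1 y hy
    have h4 := h2 y hy
    simp only [LinearMap.neg_apply, LinearMap.proj_apply, neg_le_neg_iff] at h3 h4
    exact ⟨h3, h4⟩

/-- The criterion. -/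
theorem good (h : VList P L x) [Fintype V]
    (hcl : ∀ σ : Finset V, (∀ u ∈ σ, ∀ v ∈ σ, u ≠ v → ∃ F ∈ L, u ∈ F ∧ v ∈ F) →
      ∃ F ∈ L, σ ⊆ F) : P.Good := by
  refine ⟨h.compact, ?_, ?_⟩
  · intro y hy
    obtain ⟨F, hF, h1⟩ := h.complete hy
    exact (h.indep hF).comp (fun v : P.sig y => (⟨v, h1 v.2⟩ : F))
      (fun u v huv => Subtype.ext (congrArg (fun w : F => (w : V)) huv))
  · intro σ hσ
    classical
    rw [h.face_iff]
    obtain ⟨F, hF, h1⟩ := hcl (univ.filter (fun v => v ∈ σ)) (by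
      intro u hu v hv huv
      rw [Finset.mem_filter] at hu hv
      exact ((h.adj_iff u v).1 (hσ u hu.2 v hv.2 huv)).2)
    refine ⟨F, hF, fun v hv => h1 (Finset.mem_filter.2 ⟨Finset.mem_univ v, hv⟩)⟩

end VList

end Pool.LU
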