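import Pool.Agent.H3.LU.BDefs

/-!
Project LU, part B2: from vectors `w v` with the condition (*) to a simple polytope with flag
nerve. Statements of the modules.

In the modules the `w v` are linear forms on a finite dimensional real vector space `X`.
-/

set_option autoImplicit false
set_option linter.unusedVariables false

open scoped BigOperators
open Finset

noncomputable section

namespace Pool.LU

/-- `σ` is a clique of the graph `adj` -/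
def IsCl {V : Type} (adj : V → V → Prop) (σ : Finset V) : Prop :=
  ∀ u ∈ σ, ∀ v ∈ σ, u ≠ v → adj u v

/-- the condition (*) for vectors `w v`: there is no linear relation whose positive part is
supported by a clique -/
def StarC {V E : Type} [Fintype V] [AddCommGroup E] [Module ℝ E] (adj : V → V → Prop)
    (w : V → E) : Prop :=
  ∀ z : V → ℝ, ∑ v, z v • w v = 0 → (∀ u v, 0 < z u → 0 < z v → u ≠ v → adj u v) → z = 0

/-- B2: the final statement of this part. -/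
def B2Stmt : Prop := ∀ (n : ℕ) (E : Type) [AddCommGroup E] [Module ℝ E] [FiniteDimensional ℝ E]
  (V : Type) [Fintype V] [DecidableEq V] (adj : V → V → Prop) (w : V → E),
  Module.finrank ℝ E = n + 1 → (∀ u v, adj u v → adj v u) → (∃ u v, u ≠ v ∧ ¬ adj u v) →
  Submodule.span ℝ (Set.range w) = ⊤ → StarC adj w →
  ∃ (N : Type) (_ : Fintype N) (_ : DecidableEq N) (P : SPoly n (V ⊕ N)), P.Good ∧
    ∀ u v : V, u ≠ v → (P.adj (Sum.inl u) (Sum.inl v) ↔ adj u v)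

/-- FAR: Farkas' lemma for finitely many linear forms -/
def FARStmt : Prop := ∀ (X ι : Type) [AddCommGroup X] [Module ℝ X] [Fintype ι]
  (a : ι → X →ₗ[ℝ] ℝ) (b : X →ₗ[ℝ] ℝ), (∀ x, (∀ i, 0 ≤ a i x) → 0 ≤ b x) →
  ∃ u : ι → ℝ, (∀ i, 0 ≤ u i) ∧ b = ∑ i, u i • a i

section

variable {X V : Type} [AddCommGroup X] [Module ℝ X] [Fintype V] [DecidableEq V]

/-- `φ` is the set of the zeros among the `w v` of a point of the cone `{x | ∀ v, 0 ≤ w v x}` -/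
def IsF (w : V → X →ₗ[ℝ] ℝ) (φ : Finset V) : Prop :=
  ∃ x : X, (∀ v ∈ φ, w v x = 0) ∧ ∀ v, v ∉ φ → 0 < w v x

/-- the sum of the `w v`, `v ∈ φ` -/
def bb (w : V → X →ₗ[ℝ] ℝ) (φ : Finset V) : X →ₗ[ℝ] ℝ := ∑ v ∈ φ, w v

/-- the number `δ ^ (|V| - |φ|)` -/
def ep (δ : ℝ) (φ : Finset V) : ℝ := δ ^ (Fintype.card V - φ.card)

/-- the faces of the cone to be truncated, and the whole set `V` -/
def IsE (adj : V → V → Prop) (w : V → X →ₗ[ℝ] ℝ) (φ : Finset V) : Prop :=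
  IsF w φ ∧ ¬ IsCl adj φ

/-- the points of the polytope (in the cone) -/
def IsP (adj : V → V → Prop) (w : V → X →ₗ[ℝ] ℝ) (δ : ℝ) (x : X) : Prop :=
  (∀ v, 0 ≤ w v x) ∧ bb w univ x = 1 ∧ ∀ φ, IsE adj w φ → ep δ φ ≤ bb w φ x

end

/-- STR: first consequences of the condition (*) -/
def STRStmt : Prop := ∀ (X V : Type) [AddCommGroup X] [Module ℝ X] [Fintype V] [DecidableEq V]
  (adj : V → V → Prop) (w : V → X →ₗ[ℝ] ℝ), StarC adj w → ∀ σ : Finset V, IsCl adj σ →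
  IsF w σ ∧ LinearIndependent ℝ (fun v : σ => w v)

/-- CLO: the smallest face containing `S` -/
def CLOStmt : Prop := ∀ (X V : Type) [AddCommGroup X] [Module ℝ X] [Fintype V] [DecidableEq V]
  (w : V → X →ₗ[ℝ] ℝ) (S : Finset V), ∃ φ : Finset V, S ⊆ φ ∧ IsF w φ ∧ ∃ C : ℝ, 0 < C ∧
    ∀ x, (∀ v, 0 ≤ w v x) → bb w φ x ≤ C * bb w S x

/-- ACT: the constraints which are active at a point of the polytope -/
def ACTStmt : Prop := ∀ (X V : Type) [AddCommGroup X] [Module ℝ X] [Fintype V] [DecidableEq V]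
  (adj : V → V → Prop) (w : V → X →ₗ[ℝ] ℝ), StarC adj w → ∃ δ₀ : ℝ, 0 < δ₀ ∧
  ∀ δ, 0 < δ → δ < δ₀ → ∀ x, IsP adj w δ x →
    (∀ u v, w u x = 0 → w v x = 0 → u ≠ v → adj u v) ∧
    (∀ v φ, IsE adj w φ → w v x = 0 → bb w φ x = ep δ φ → v ∈ φ) ∧
    ∀ φ ψ, IsE adj w φ → IsE adj w ψ → bb w φ x = ep δ φ → bb w ψ x = ep δ ψ →
      φ ⊆ ψ ∨ ψ ⊆ φ

/-- REA: all cliques and chains are realised -/
def REAStmt : Prop := ∀ (X V : Type) [AddCommGroup X] [Module ℝ X] [Fintype V] [DecidableEq V]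
  (adj : V → V → Prop) (w : V → X →ₗ[ℝ] ℝ), StarC adj w → (∃ u v, u ≠ v ∧ ¬ adj u v) →
  ∃ δ₀ : ℝ, 0 < δ₀ ∧ ∀ δ, 0 < δ → δ < δ₀ → ∀ (σ : Finset V) (c : Finset (Finset V)),
    IsCl adj σ → (∀ φ ∈ c, IsE adj w φ ∧ σ ⊆ φ) → (∀ φ ∈ c, ∀ ψ ∈ c, φ ⊆ ψ ∨ ψ ⊆ φ) →
    ∃ x, IsP adj w δ x ∧ (∀ v ∈ σ, w v x = 0) ∧ ∀ φ ∈ c, bb w φ x = ep δ φ

/-- IND: the forms of a clique and of a chain are independent -/
def INDStmt : Prop := ∀ (X V : Type) [AddCommGroup X] [Module ℝ X] [Fintype V] [DecidableEq V]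
  (adj : V → V → Prop) (w : V → X →ₗ[ℝ] ℝ), StarC adj w →
  ∀ (σ : Finset V) (c : Finset (Finset V)),
    IsCl adj σ → (∀ φ ∈ c, IsE adj w φ ∧ σ ⊆ φ) → (∀ φ ∈ c, ∀ ψ ∈ c, φ ⊆ ψ ∨ ψ ⊆ φ) →
    LinearIndependent ℝ (fun i : σ ⊕ c => Sum.elim (fun v : σ => w v) (fun φ : c => bb w φ) i)

/-- COR: coordinates on the hyperplane `h = 1` -/
def CORStmt : Prop := ∀ (n : ℕ) (X : Type) [AddCommGroup X] [Module ℝ X] [FiniteDimensional ℝ X]
  (J : Type) [Fintype J] (f : J → X →ₗ[ℝ] ℝ) (ε : J → ℝ) (h : X →ₗ[ℝ] ℝ),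
  Module.finrank ℝ X = n + 1 → h ≠ 0 → (∀ x, (∀ j, f j x = 0) → x = 0) →
  (∃ B : ℝ, ∀ x, h x = 1 → (∀ j, ε j ≤ f j x) → ∀ j, f j x ≤ B) →
  ∃ (P : SPoly n J) (g : (Fin n → ℝ) → X), IsCompact P.cham ∧
    (∀ j y, P.l j y = f j (g y) - ε j) ∧ (∀ y, h (g y) = 1) ∧ (∀ x, h x = 1 → ∃ y, g y = x) ∧
    ∀ S : Set J, LinearIndependent ℝ (fun o : Option S => o.elim h (fun j : S => f j)) →
      LinearIndependent ℝ (fun j : S => P.a j)

end Pool.LU
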