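import Pool.Agent.H41.LU.PolyChk

/-!
Project LU, part Y: the complex `T_Y` of helper32 (a balanced flag 4-sphere with 36 vertices and 416
facets) as the nerve of a simple polytope of dimension 5.
-/

set_option autoImplicit false
set_option maxRecDepth 100000

namespace Pool.LU

namespace Y36

open Chk

/-- a vector -/
abbrev W (a b c d e : ℤ) : V5 := (a, b, c, d, e)

/-- a vertex -/
abbrev E (m : ℕ) (a b c d e t : ℤ) : ℕ × V5 × ℤ := (m, (a, b, c, d, e), t)

/-- the normals of the facets of the polytope -/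
def nrm : List V5 := [
  W (.ofNat 2) (.ofNat 0) (.ofNat 3) (.ofNat 0) (.ofNat 11),
  W (.ofNat 2) (.negSucc 2) (.negSucc 4) (.negSucc 6) (.ofNat 2),
  W (.negSucc 4) (.negSucc 4) (.ofNat 0) (.ofNat 8) (.ofNat 0),
  W (.negSucc 4) (.negSucc 4) (.ofNat 0) (.negSucc 7) (.ofNat 0),
  W (.negSucc 0) (.negSucc 7) (.negSucc 3) (.ofNat 0) (.negSucc 3),
  W (.negSucc 7) (.negSucc 2) (.ofNat 0) (.ofNat 0) (.ofNat 0),
  W (.ofNat 6) (.negSucc 4) (.ofNat 6) (.ofNat 0) (.negSucc 1),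
  W (.ofNat 7) (.negSucc 4) (.ofNat 0) (.ofNat 0) (.ofNat 0),
  W (.ofNat 6) (.negSucc 4) (.negSucc 5) (.ofNat 0) (.ofNat 2),
  W (.ofNat 2) (.negSucc 2) (.ofNat 5) (.ofNat 7) (.negSucc 1),
  W (.ofNat 0) (.ofNat 8) (.ofNat 0) (.ofNat 0) (.ofNat 0),
  W (.ofNat 0) (.negSucc 0) (.ofNat 6) (.ofNat 0) (.negSucc 8),
  W (.negSucc 0) (.ofNat 7) (.ofNat 4) (.ofNat 0) (.negSucc 0),
  W (.ofNat 8) (.ofNat 4) (.negSucc 3) (.ofNat 0) (.negSucc 3),
  W (.negSucc 0) (.ofNat 1) (.negSucc 7) (.ofNat 0) (.negSucc 4),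
  W (.ofNat 2) (.ofNat 0) (.negSucc 2) (.ofNat 0) (.negSucc 10),
  W (.negSucc 3) (.ofNat 2) (.ofNat 9) (.ofNat 0) (.negSucc 1),
  W (.ofNat 4) (.negSucc 3) (.ofNat 0) (.negSucc 6) (.ofNat 0),
  W (.negSucc 5) (.ofNat 5) (.ofNat 0) (.negSucc 9) (.ofNat 0),
  W (.ofNat 0) (.negSucc 0) (.negSucc 5) (.ofNat 0) (.ofNat 9),
  W (.ofNat 2) (.negSucc 2) (.ofNat 5) (.negSucc 6) (.negSucc 1),
  W (.ofNat 2) (.ofNat 7) (.ofNat 0) (.ofNat 8) (.ofNat 0),
  W (.negSucc 0) (.ofNat 8) (.negSucc 3) (.ofNat 0) (.ofNat 1),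
  W (.negSucc 3) (.ofNat 2) (.negSucc 8) (.ofNat 0) (.ofNat 2),
  W (.ofNat 9) (.ofNat 4) (.ofNat 0) (.ofNat 0) (.ofNat 0),
  W (.negSucc 6) (.negSucc 2) (.ofNat 0) (.ofNat 0) (.ofNat 6),
  W (.negSucc 6) (.negSucc 2) (.ofNat 0) (.ofNat 0) (.negSucc 5),
  W (.negSucc 0) (.negSucc 7) (.ofNat 4) (.ofNat 0) (.ofNat 4),
  W (.negSucc 6) (.ofNat 6) (.ofNat 0) (.ofNat 0) (.ofNat 0),
  W (.ofNat 2) (.ofNat 7) (.ofNat 0) (.negSucc 7) (.ofNat 0),
  W (.negSucc 0) (.ofNat 1) (.ofNat 8) (.ofNat 0) (.ofNat 5),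
  W (.negSucc 5) (.ofNat 5) (.ofNat 0) (.ofNat 10) (.ofNat 0),
  W (.ofNat 4) (.negSucc 3) (.ofNat 0) (.ofNat 7) (.ofNat 0),
  W (.ofNat 8) (.ofNat 4) (.ofNat 4) (.ofNat 0) (.ofNat 4),
  W (.ofNat 0) (.negSucc 9) (.ofNat 0) (.ofNat 0) (.ofNat 0),
  W (.ofNat 2) (.negSucc 2) (.negSucc 4) (.ofNat 7) (.ofNat 2)]

/-- vertices of the polytope: bit mask of the facets containing the vertex, numerators and
denominator of its coordinates -/
def f0 : List (ℕ × V5 × ℤ) := [
  E 35348 (.negSucc 36) (.negSucc 3383) (.ofNat 464) (.ofNat 2927) (.negSucc 3816) (.ofNat 40521),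
  E 35408 (.ofNat 251) (.negSucc 592) (.ofNat 113) (.ofNat 329) (.negSucc 553) (.ofNat 6257),
  E 43584 (.ofNat 3535) (.ofNat 182) (.ofNat 1456) (.ofNat 2176) (.negSucc 2925) (.ofNat 34888),
  E 49178 (.negSucc 608) (.negSucc 1855) (.negSucc 3456) (.negSucc 3557) (.negSucc 2875) (.ofNat 40789),
  E 49426 (.ofNat 1561) (.negSucc 1966) (.negSucc 3891) (.negSucc 2009) (.negSucc 2134) (.ofNat 38283),
  E 57602 (.ofNat 2387) (.negSucc 993) (.negSucc 4108) (.negSucc 2234) (.negSucc 2064) (.ofNat 39816),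
  E 163866 (.ofNat 619) (.negSucc 2263) (.negSucc 1727) (.negSucc 3306) (.negSucc 2568) (.ofNat 34681),
  E 164048 (.ofNat 2632) (.negSucc 3135) (.negSucc 398) (.negSucc 1575) (.negSucc 2512) (.ofNat 34104),
  E 164114 (.ofNat 161) (.negSucc 174) (.negSucc 160) (.negSucc 164) (.negSucc 153) (.ofNat 2499),
  E 164240 (.ofNat 376) (.negSucc 383) (.negSucc 162) (.negSucc 215) (.negSucc 300) (.ofNat 4552),
  E 172224 (.ofNat 3416) (.negSucc 1399) (.negSucc 146) (.negSucc 1663) (.negSucc 2148) (.ofNat 30912),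
  E 172290 (.ofNat 2863) (.negSucc 1441) (.negSucc 2211) (.negSucc 2363) (.negSucc 1945) (.ofNat 33768),
  E 172416 (.ofNat 3416) (.negSucc 1847) (.negSucc 1252) (.negSucc 1727) (.negSucc 2050) (.ofNat 33152),
  E 311306 (.negSucc 179) (.negSucc 238) (.negSucc 882) (.negSucc 1104) (.negSucc 785) (.ofNat 10935),
  E 393227 (.ofNat 732) (.negSucc 1036) (.ofNat 1007) (.negSucc 5550) (.ofNat 3768) (.ofNat 45933),
  E 425994 (.ofNat 732) (.negSucc 1036) (.negSucc 1908) (.negSucc 5550) (.negSucc 3521) (.ofNat 45933)]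

/-- vertices of the polytope: bit mask of the facets containing the vertex, numerators and
denominator of its coordinates -/
def f1 : List (ℕ × V5 × ℤ) := [
  E 786443 (.negSucc 1095) (.negSucc 1284) (.negSucc 902) (.negSucc 5876) (.ofNat 5802) (.ofNat 58921),
  E 1083416 (.negSucc 36) (.negSucc 3383) (.ofNat 464) (.negSucc 2926) (.negSucc 3816) (.ofNat 40521),
  E 1083472 (.ofNat 251) (.negSucc 592) (.ofNat 113) (.negSucc 328) (.negSucc 553) (.ofNat 6257),
  E 1091648 (.ofNat 3535) (.ofNat 182) (.ofNat 1456) (.negSucc 2175) (.negSucc 2925) (.ofNat 34888),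
  E 1212440 (.ofNat 555) (.negSucc 2391) (.negSucc 315) (.negSucc 2602) (.negSucc 2540) (.ofNat 30009),
  E 1212496 (.ofNat 1869) (.negSucc 3254) (.ofNat 245) (.negSucc 2032) (.negSucc 2883) (.ofNat 34727),
  E 1220672 (.ofNat 3423) (.negSucc 713) (.ofNat 532) (.negSucc 2235) (.negSucc 2449) (.ofNat 32200),
  E 1345544 (.negSucc 1095) (.negSucc 1284) (.ofNat 903) (.negSucc 5876) (.negSucc 5801) (.ofNat 58921),
  E 1378312 (.negSucc 2839) (.negSucc 1078) (.ofNat 4045) (.negSucc 3974) (.negSucc 2893) (.ofNat 51395),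
  E 1441801 (.ofNat 732) (.negSucc 1036) (.ofNat 1909) (.negSucc 5550) (.ofNat 3522) (.ofNat 45933),
  E 1474568 (.ofNat 732) (.negSucc 1036) (.negSucc 1006) (.negSucc 5550) (.negSucc 3767) (.ofNat 45933),
  E 2140672 (.ofNat 3925) (.ofNat 1378) (.ofNat 1888) (.ofNat 3424) (.negSucc 3881) (.ofNat 44888),
  E 2143232 (.ofNat 60) (.ofNat 304) (.ofNat 36) (.ofNat 23) (.negSucc 219) (.ofNat 2432),
  E 2144256 (.ofNat 1680) (.ofNat 4264) (.ofNat 1656) (.ofNat 653) (.negSucc 3639) (.ofNat 38432),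
  E 6333440 (.ofNat 28) (.ofNat 368) (.negSucc 67) (.ofNat 39) (.negSucc 243) (.ofNat 2944),
  E 6348800 (.ofNat 7) (.ofNat 142) (.negSucc 96) (.ofNat 51) (.negSucc 100) (.ofNat 1416)]

/-- vertices of the polytope: bit mask of the facets containing the vertex, numerators and
denominator of its coordinates -/
def f2 : List (ℕ × V5 × ℤ) := [
  E 8405018 (.negSucc 1652) (.negSucc 1855) (.negSucc 3924) (.negSucc 2333) (.negSucc 1003) (.ofNat 36217),
  E 8405266 (.negSucc 76) (.negSucc 1966) (.negSucc 4332) (.negSucc 1136) (.negSucc 370) (.ofNat 34629),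
  E 8413442 (.ofNat 1841) (.ofNat 644) (.negSucc 4633) (.negSucc 1529) (.ofNat 35) (.ofNat 35700),
  E 8667146 (.negSucc 2263) (.negSucc 1038) (.negSucc 5012) (.negSucc 4062) (.negSucc 1537) (.ofNat 49019),
  E 8912922 (.negSucc 2460) (.negSucc 4155) (.negSucc 4810) (.negSucc 1889) (.ofNat 1687) (.ofNat 48205),
  E 8913170 (.negSucc 748) (.negSucc 2764) (.negSucc 3954) (.negSucc 926) (.ofNat 938) (.ofNat 34937),
  E 8921346 (.ofNat 2513) (.ofNat 1442) (.negSucc 5011) (.negSucc 1739) (.ofNat 1330) (.ofNat 40600),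
  E 9175050 (.negSucc 2839) (.negSucc 1078) (.negSucc 4044) (.negSucc 3974) (.ofNat 2894) (.ofNat 51395),
  E 14704640 (.ofNat 27) (.ofNat 82) (.negSucc 117) (.ofNat 57) (.negSucc 16) (.ofNat 1084),
  E 15212544 (.ofNat 2536) (.ofNat 3176) (.negSucc 4927) (.ofNat 2163) (.ofNat 2024) (.ofNat 44608),
  E 16788032 (.ofNat 2660) (.ofNat 462) (.ofNat 1351) (.ofNat 1581) (.negSucc 2015) (.ofNat 25788),
  E 16916672 (.ofNat 1008) (.negSucc 223) (.ofNat 63) (.negSucc 463) (.negSucc 314) (.ofNat 8176),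
  E 16916738 (.ofNat 1988) (.negSucc 125) (.negSucc 727) (.negSucc 1275) (.ofNat 231) (.ofNat 17388),
  E 16916864 (.ofNat 1008) (.negSucc 223) (.negSucc 188) (.negSucc 463) (.negSucc 62) (.ofNat 8176),
  E 17309954 (.ofNat 532) (.ofNat 210) (.negSucc 468) (.negSucc 310) (.ofNat 336) (.ofNat 5628),
  E 17836096 (.ofNat 2660) (.ofNat 462) (.ofNat 1351) (.negSucc 1580) (.negSucc 2015) (.ofNat 25788)]

/-- vertices of the polytope: bit mask of the facets containing the vertex, numerators and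
denominator of its coordinates -/
def f3 : List (ℕ × V5 × ℤ) := [
  E 17965120 (.ofNat 1988) (.negSucc 153) (.ofNat 448) (.negSucc 1243) (.negSucc 944) (.ofNat 17276),
  E 18885120 (.ofNat 3500) (.ofNat 1332) (.ofNat 2019) (.ofNat 2563) (.negSucc 2893) (.ofNat 36828),
  E 18887680 (.ofNat 160) (.ofNat 360) (.ofNat 96) (.ofNat 5) (.negSucc 135) (.ofNat 2880),
  E 18888704 (.ofNat 1120) (.ofNat 1800) (.ofNat 1104) (.ofNat 305) (.negSucc 1383) (.ofNat 17280),
  E 23077888 (.ofNat 32) (.ofNat 72) (.negSucc 7) (.ofNat 1) (.ofNat 0) (.ofNat 576),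
  E 23601152 (.ofNat 272) (.ofNat 312) (.negSucc 307) (.ofNat 121) (.ofNat 240) (.ofNat 3696),
  E 33882152 (.negSucc 53) (.negSucc 8) (.ofNat 31) (.negSucc 17) (.ofNat 9) (.ofNat 459),
  E 34340873 (.negSucc 165) (.negSucc 75) (.negSucc 35) (.negSucc 296) (.ofNat 366) (.ofNat 3586),
  E 41943092 (.negSucc 1559) (.negSucc 1303) (.negSucc 1359) (.ofNat 259) (.ofNat 260) (.ofNat 16392),
  E 41943096 (.negSucc 1559) (.negSucc 1303) (.negSucc 1359) (.negSucc 258) (.ofNat 260) (.ofNat 16392),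
  E 42205224 (.negSucc 5) (.negSucc 0) (.negSucc 2) (.negSucc 1) (.ofNat 1) (.ofNat 51),
  E 42467348 (.negSucc 933) (.negSucc 1215) (.negSucc 1225) (.ofNat 333) (.ofNat 538) (.ofNat 13414),
  E 42467352 (.negSucc 933) (.negSucc 1215) (.negSucc 1225) (.negSucc 332) (.ofNat 538) (.ofNat 13414),
  E 42729480 (.negSucc 737) (.negSucc 191) (.negSucc 621) (.negSucc 590) (.ofNat 606) (.ofNat 9378),
  E 67143700 (.negSucc 142) (.negSucc 415) (.ofNat 40) (.ofNat 330) (.negSucc 530) (.ofNat 5435),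
  E 67143704 (.negSucc 142) (.negSucc 415) (.ofNat 40) (.negSucc 329) (.negSucc 530) (.ofNat 5435)]

/-- vertices of the polytope: bit mask of the facets containing the vertex, numerators and
denominator of its coordinates -/
def f4 : List (ℕ × V5 × ℤ) := [
  E 67158036 (.negSucc 1131) (.negSucc 839) (.negSucc 1475) (.ofNat 1315) (.negSucc 1655) (.ofNat 20380),
  E 67158040 (.negSucc 1131) (.negSucc 839) (.negSucc 1475) (.negSucc 1314) (.negSucc 1655) (.ofNat 20380),
  E 67405832 (.negSucc 165) (.negSucc 75) (.ofNat 36) (.negSucc 296) (.negSucc 365) (.ofNat 3586),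
  E 67420168 (.negSucc 577) (.negSucc 193) (.negSucc 627) (.negSucc 680) (.negSucc 779) (.ofNat 9308),
  E 67436584 (.negSucc 5) (.negSucc 0) (.ofNat 3) (.negSucc 1) (.negSucc 0) (.ofNat 51),
  E 67438600 (.negSucc 737) (.negSucc 191) (.ofNat 622) (.negSucc 590) (.negSucc 605) (.ofNat 9378),
  E 75497524 (.negSucc 1559) (.negSucc 951) (.negSucc 1279) (.ofNat 347) (.negSucc 259) (.ofNat 15336),
  E 75497528 (.negSucc 1559) (.negSucc 951) (.negSucc 1279) (.negSucc 346) (.negSucc 259) (.ofNat 15336),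
  E 75513876 (.negSucc 1563) (.negSucc 839) (.negSucc 1691) (.ofNat 775) (.negSucc 791) (.ofNat 18220),
  E 75513880 (.negSucc 1563) (.negSucc 839) (.negSucc 1691) (.negSucc 774) (.negSucc 791) (.ofNat 18220),
  E 75759656 (.negSucc 53) (.negSucc 8) (.negSucc 30) (.negSucc 17) (.negSucc 8) (.ofNat 459),
  E 75776008 (.negSucc 777) (.negSucc 169) (.negSucc 719) (.negSucc 460) (.negSucc 411) (.ofNat 8428),
  E 134285828 (.negSucc 2460) (.negSucc 4155) (.ofNat 4811) (.ofNat 1890) (.negSucc 1686) (.ofNat 48205),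
  E 134285888 (.negSucc 748) (.negSucc 2764) (.ofNat 3955) (.ofNat 927) (.negSucc 937) (.ofNat 34937),
  E 134348811 (.ofNat 555) (.negSucc 2391) (.ofNat 316) (.negSucc 2602) (.ofNat 2541) (.ofNat 30009),
  E 134348993 (.ofNat 376) (.negSucc 383) (.ofNat 163) (.negSucc 215) (.ofNat 301) (.ofNat 4552)]

/-- vertices of the polytope: bit mask of the facets containing the vertex, numerators and
denominator of its coordinates -/
def f5 : List (ℕ × V5 × ℤ) := [
  E 134349059 (.ofNat 1869) (.negSucc 3254) (.negSucc 244) (.negSucc 2032) (.ofNat 2884) (.ofNat 34727),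
  E 134349185 (.ofNat 2632) (.negSucc 3135) (.ofNat 399) (.negSucc 1575) (.ofNat 2513) (.ofNat 34104),
  E 134742027 (.negSucc 36) (.negSucc 3383) (.negSucc 463) (.negSucc 2926) (.ofNat 3817) (.ofNat 40521),
  E 134742275 (.ofNat 251) (.negSucc 592) (.negSucc 112) (.negSucc 328) (.ofNat 554) (.ofNat 6257),
  E 135333896 (.negSucc 2460) (.negSucc 4155) (.ofNat 4811) (.negSucc 1889) (.negSucc 1686) (.ofNat 48205),
  E 135333952 (.negSucc 748) (.negSucc 2764) (.ofNat 3955) (.negSucc 926) (.negSucc 937) (.ofNat 34937),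
  E 135397385 (.ofNat 619) (.negSucc 2263) (.ofNat 1728) (.negSucc 3306) (.ofNat 2569) (.ofNat 34681),
  E 135397441 (.ofNat 161) (.negSucc 174) (.ofNat 161) (.negSucc 164) (.ofNat 154) (.ofNat 2499),
  E 167837732 (.negSucc 1559) (.negSucc 951) (.ofNat 1280) (.ofNat 347) (.ofNat 260) (.ofNat 15336),
  E 167837736 (.negSucc 1559) (.negSucc 951) (.ofNat 1280) (.negSucc 346) (.ofNat 260) (.ofNat 15336),
  E 168296453 (.negSucc 142) (.negSucc 415) (.negSucc 39) (.ofNat 330) (.ofNat 531) (.ofNat 5435),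
  E 168296457 (.negSucc 142) (.negSucc 415) (.negSucc 39) (.negSucc 329) (.ofNat 531) (.ofNat 5435),
  E 201392164 (.negSucc 1559) (.negSucc 1303) (.ofNat 1360) (.ofNat 259) (.negSucc 259) (.ofNat 16392),
  E 201392168 (.negSucc 1559) (.negSucc 1303) (.ofNat 1360) (.negSucc 258) (.negSucc 259) (.ofNat 16392),
  E 201394180 (.negSucc 933) (.negSucc 1215) (.ofNat 1226) (.ofNat 333) (.negSucc 537) (.ofNat 13414),
  E 201394184 (.negSucc 933) (.negSucc 1215) (.ofNat 1226) (.negSucc 332) (.negSucc 537) (.ofNat 13414)]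

/-- vertices of the polytope: bit mask of the facets containing the vertex, numerators and
denominator of its coordinates -/
def f6 : List (ℕ × V5 × ℤ) := [
  E 268702721 (.negSucc 939) (.ofNat 3290) (.ofNat 1150) (.negSucc 422) (.ofNat 2250) (.ofNat 26320),
  E 268735488 (.negSucc 939) (.ofNat 3290) (.negSucc 49) (.negSucc 422) (.negSucc 2549) (.ofNat 26320),
  E 268736512 (.negSucc 2419) (.ofNat 4990) (.ofNat 1130) (.negSucc 740) (.negSucc 5009) (.ofNat 46880),
  E 268769280 (.negSucc 1959) (.ofNat 3170) (.ofNat 1380) (.negSucc 512) (.negSucc 3069) (.ofNat 32740),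
  E 272892929 (.negSucc 939) (.ofNat 3290) (.ofNat 820) (.negSucc 422) (.ofNat 2340) (.ofNat 26320),
  E 272925696 (.negSucc 939) (.ofNat 3290) (.negSucc 379) (.negSucc 422) (.negSucc 2459) (.ofNat 26320),
  E 272941056 (.negSucc 709) (.ofNat 1360) (.negSucc 669) (.negSucc 206) (.negSucc 1139) (.ofNat 13130),
  E 273416193 (.negSucc 1674) (.ofNat 2495) (.negSucc 544) (.negSucc 416) (.ofNat 2880) (.ofNat 26695),
  E 281296896 (.negSucc 2289) (.ofNat 2880) (.negSucc 2429) (.negSucc 516) (.negSucc 1739) (.ofNat 33310),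
  E 281804800 (.negSucc 1324) (.ofNat 1585) (.negSucc 754) (.negSucc 290) (.ofNat 1760) (.ofNat 18785),
  E 302317600 (.negSucc 161) (.ofNat 18) (.ofNat 68) (.negSucc 17) (.ofNat 27) (.ofNat 1242),
  E 302776321 (.negSucc 109) (.ofNat 100) (.negSucc 19) (.negSucc 20) (.ofNat 150) (.ofNat 1370),
  E 310640672 (.negSucc 161) (.ofNat 18) (.negSucc 55) (.negSucc 17) (.ofNat 27) (.ofNat 1242),
  E 311164928 (.negSucc 1289) (.ofNat 900) (.negSucc 529) (.negSucc 218) (.ofNat 1350) (.ofNat 14430),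
  E 335841280 (.negSucc 109) (.ofNat 100) (.ofNat 20) (.negSucc 20) (.negSucc 149) (.ofNat 1370),
  E 335855616 (.negSucc 169) (.ofNat 120) (.negSucc 89) (.negSucc 28) (.negSucc 179) (.ofNat 1910)]

/-- vertices of the polytope: bit mask of the facets containing the vertex, numerators and
denominator of its coordinates -/
def f7 : List (ℕ × V5 × ℤ) := [
  E 335872032 (.negSucc 161) (.ofNat 18) (.ofNat 56) (.negSucc 17) (.negSucc 26) (.ofNat 1242),
  E 335874048 (.negSucc 1289) (.ofNat 900) (.ofNat 530) (.negSucc 218) (.negSucc 1349) (.ofNat 14430),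
  E 344195104 (.negSucc 161) (.ofNat 18) (.negSucc 67) (.negSucc 17) (.negSucc 26) (.ofNat 1242),
  E 344211456 (.negSucc 1569) (.ofNat 600) (.negSucc 989) (.negSucc 216) (.negSucc 899) (.ofNat 14590),
  E 536916992 (.ofNat 60) (.ofNat 304) (.ofNat 36) (.negSucc 22) (.negSucc 219) (.ofNat 2432),
  E 536918016 (.ofNat 1680) (.ofNat 4264) (.ofNat 1656) (.negSucc 652) (.negSucc 3639) (.ofNat 38432),
  E 536928258 (.ofNat 667) (.ofNat 406) (.negSucc 1548) (.negSucc 1634) (.negSucc 1024) (.ofNat 17256),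
  E 537042946 (.ofNat 2885) (.ofNat 98) (.negSucc 2275) (.negSucc 4691) (.negSucc 2853) (.ofNat 43992),
  E 537138177 (.negSucc 328) (.ofNat 1598) (.ofNat 583) (.negSucc 281) (.ofNat 1063) (.ofNat 12784),
  E 537170944 (.negSucc 328) (.ofNat 1598) (.ofNat 11) (.negSucc 281) (.negSucc 1224) (.ofNat 12784),
  E 537171968 (.negSucc 441) (.ofNat 2617) (.ofNat 745) (.negSucc 848) (.negSucc 2485) (.ofNat 24227),
  E 537182210 (.ofNat 188) (.ofNat 177) (.negSucc 770) (.negSucc 928) (.negSucc 577) (.ofNat 9047),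
  E 537204736 (.negSucc 1) (.ofNat 17) (.ofNat 13) (.negSucc 8) (.negSucc 13) (.ofNat 187),
  E 537264131 (.ofNat 366) (.negSucc 60) (.ofNat 211) (.negSucc 1402) (.ofNat 924) (.ofNat 11529),
  E 537296898 (.ofNat 366) (.negSucc 60) (.negSucc 496) (.negSucc 1402) (.negSucc 845) (.ofNat 11529),
  E 537657347 (.ofNat 271) (.ofNat 323) (.negSucc 392) (.negSucc 1406) (.ofNat 1336) (.ofNat 14059)]

/-- vertices of the polytope: bit mask of the facets containing the vertex, numerators and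
denominator of its coordinates -/
def f8 : List (ℕ × V5 × ℤ) := [
  E 537962496 (.ofNat 3925) (.ofNat 1378) (.ofNat 1888) (.negSucc 3423) (.negSucc 3881) (.ofNat 44888),
  E 538091520 (.ofNat 2949) (.ofNat 226) (.ofNat 76) (.negSucc 3411) (.negSucc 2645) (.ofNat 34776),
  E 538216448 (.ofNat 271) (.ofNat 323) (.ofNat 393) (.negSucc 1406) (.negSucc 1335) (.ofNat 14059),
  E 538249216 (.ofNat 101) (.ofNat 625) (.ofNat 1171) (.negSucc 1028) (.negSucc 711) (.ofNat 12809),
  E 538312705 (.ofNat 366) (.negSucc 60) (.ofNat 497) (.negSucc 1402) (.ofNat 846) (.ofNat 11529),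
  E 538345472 (.ofNat 366) (.negSucc 60) (.negSucc 210) (.negSucc 1402) (.negSucc 923) (.ofNat 11529),
  E 541107200 (.ofNat 28) (.ofNat 368) (.negSucc 67) (.negSucc 38) (.negSucc 243) (.ofNat 2944),
  E 541122560 (.ofNat 7) (.ofNat 142) (.negSucc 96) (.negSucc 50) (.negSucc 100) (.ofNat 1416),
  E 541328385 (.negSucc 328) (.ofNat 1598) (.ofNat 363) (.negSucc 281) (.ofNat 1123) (.ofNat 12784),
  E 541361152 (.negSucc 328) (.ofNat 1598) (.negSucc 208) (.negSucc 281) (.negSucc 1164) (.ofNat 12784),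
  E 541376512 (.negSucc 12) (.ofNat 86) (.negSucc 52) (.negSucc 33) (.negSucc 64) (.ofNat 848),
  E 541851649 (.negSucc 348) (.ofNat 2617) (.negSucc 830) (.negSucc 1220) (.ofNat 2780) (.ofNat 27389),
  E 545284098 (.ofNat 551) (.ofNat 754) (.negSucc 1773) (.negSucc 1079) (.negSucc 124) (.ofNat 15020),
  E 545538050 (.ofNat 125) (.ofNat 517) (.negSucc 1320) (.negSucc 1016) (.negSucc 208) (.ofNat 12005),
  E 545792002 (.ofNat 761) (.ofNat 778) (.negSucc 1491) (.negSucc 755) (.ofNat 538) (.ofNat 13016),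
  E 546045954 (.ofNat 101) (.ofNat 625) (.negSucc 1170) (.negSucc 1028) (.ofNat 712) (.ofNat 12809)]

/-- vertices of the polytope: bit mask of the facets containing the vertex, numerators and
denominator of its coordinates -/
def f9 : List (ℕ × V5 × ℤ) := [
  E 549478400 (.ofNat 27) (.ofNat 82) (.negSucc 117) (.negSucc 56) (.negSucc 16) (.ofNat 1084),
  E 549732352 (.negSucc 10) (.ofNat 158) (.negSucc 193) (.negSucc 113) (.negSucc 54) (.ofNat 1996),
  E 549986304 (.ofNat 2536) (.ofNat 3176) (.negSucc 4927) (.negSucc 2162) (.ofNat 2024) (.ofNat 44608),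
  E 550240256 (.negSucc 76) (.ofNat 1241) (.negSucc 1222) (.negSucc 932) (.ofNat 1100) (.ofNat 15997),
  E 553661440 (.ofNat 160) (.ofNat 360) (.ofNat 96) (.negSucc 4) (.negSucc 135) (.ofNat 2880),
  E 553662464 (.ofNat 1120) (.ofNat 1800) (.ofNat 1104) (.negSucc 304) (.negSucc 1383) (.ofNat 17280),
  E 553787394 (.ofNat 2380) (.ofNat 252) (.negSucc 813) (.negSucc 1987) (.ofNat 219) (.ofNat 22428),
  E 554180610 (.ofNat 700) (.ofNat 372) (.negSucc 648) (.negSucc 472) (.ofNat 474) (.ofNat 7788),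
  E 554706944 (.ofNat 3500) (.ofNat 1332) (.ofNat 2019) (.negSucc 2562) (.negSucc 2893) (.ofNat 36828),
  E 554835968 (.ofNat 2380) (.ofNat 252) (.ofNat 474) (.negSucc 1987) (.negSucc 1068) (.ofNat 22428),
  E 557851648 (.ofNat 32) (.ofNat 72) (.negSucc 7) (.negSucc 0) (.ofNat 0) (.ofNat 576),
  E 558374912 (.ofNat 272) (.ofNat 312) (.negSucc 307) (.negSucc 120) (.ofNat 240) (.ofNat 3696),
  E 1075052553 (.negSucc 179) (.negSucc 238) (.ofNat 883) (.negSucc 1104) (.ofNat 786) (.ofNat 10935),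
  E 1075118088 (.negSucc 2263) (.negSucc 1038) (.ofNat 5013) (.negSucc 4062) (.ofNat 1538) (.ofNat 49019),
  E 1107558409 (.negSucc 577) (.negSucc 193) (.ofNat 628) (.negSucc 680) (.ofNat 780) (.ofNat 9308),
  E 1107623944 (.negSucc 777) (.negSucc 169) (.ofNat 720) (.negSucc 460) (.ofNat 412) (.ofNat 8428)]

/-- vertices of the polytope: bit mask of the facets containing the vertex, numerators and
denominator of its coordinates -/
def f10 : List (ℕ × V5 × ℤ) := [
  E 1207960069 (.negSucc 608) (.negSucc 1855) (.ofNat 3457) (.ofNat 3558) (.ofNat 2876) (.ofNat 40789),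
  E 1207960129 (.ofNat 1561) (.negSucc 1966) (.ofNat 3892) (.ofNat 2010) (.ofNat 2135) (.ofNat 38283),
  E 1208025604 (.negSucc 1652) (.negSucc 1855) (.ofNat 3925) (.ofNat 2334) (.ofNat 1004) (.ofNat 36217),
  E 1208025664 (.negSucc 76) (.negSucc 1966) (.ofNat 4333) (.ofNat 1137) (.ofNat 371) (.ofNat 34629),
  E 1209008137 (.negSucc 608) (.negSucc 1855) (.ofNat 3457) (.negSucc 3557) (.ofNat 2876) (.ofNat 40789),
  E 1209008193 (.ofNat 1561) (.negSucc 1966) (.ofNat 3892) (.negSucc 2009) (.ofNat 2135) (.ofNat 38283),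
  E 1209073672 (.negSucc 1652) (.negSucc 1855) (.ofNat 3925) (.negSucc 2333) (.ofNat 1004) (.ofNat 36217),
  E 1209073728 (.negSucc 76) (.negSucc 1966) (.ofNat 4333) (.negSucc 1136) (.ofNat 371) (.ofNat 34629),
  E 1241513989 (.negSucc 1131) (.negSucc 839) (.ofNat 1476) (.ofNat 1315) (.ofNat 1656) (.ofNat 20380),
  E 1241513993 (.negSucc 1131) (.negSucc 839) (.ofNat 1476) (.negSucc 1314) (.ofNat 1656) (.ofNat 20380),
  E 1241579524 (.negSucc 1563) (.negSucc 839) (.ofNat 1692) (.ofNat 775) (.ofNat 792) (.ofNat 18220),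
  E 1241579528 (.negSucc 1563) (.negSucc 839) (.ofNat 1692) (.negSucc 774) (.ofNat 792) (.ofNat 18220),
  E 1342443521 (.negSucc 349) (.ofNat 1020) (.ofNat 450) (.negSucc 136) (.ofNat 720) (.ofNat 8570),
  E 1342509056 (.negSucc 69) (.ofNat 120) (.ofNat 90) (.negSucc 18) (.ofNat 60) (.ofNat 1210),
  E 1375993857 (.negSucc 169) (.ofNat 120) (.ofNat 90) (.negSucc 28) (.ofNat 180) (.ofNat 1910),
  E 1376059392 (.negSucc 1569) (.ofNat 600) (.ofNat 990) (.negSucc 216) (.ofNat 900) (.ofNat 14590)]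

/-- vertices of the polytope: bit mask of the facets containing the vertex, numerators and
denominator of its coordinates -/
def f11 : List (ℕ × V5 × ℤ) := [
  E 1610878977 (.negSucc 172) (.ofNat 903) (.ofNat 444) (.negSucc 210) (.ofNat 607) (.ofNat 7663),
  E 1610944512 (.negSucc 68) (.ofNat 553) (.ofNat 549) (.negSucc 276) (.ofNat 187) (.ofNat 5949),
  E 1611923457 (.ofNat 188) (.ofNat 177) (.ofNat 771) (.negSucc 928) (.ofNat 578) (.ofNat 9047),
  E 1611988992 (.ofNat 125) (.ofNat 517) (.ofNat 1321) (.negSucc 1016) (.ofNat 209) (.ofNat 12005),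
  E 2147518980 (.negSucc 1095) (.negSucc 1284) (.ofNat 903) (.ofNat 5877) (.negSucc 5801) (.ofNat 58921),
  E 2147551748 (.negSucc 2839) (.negSucc 1078) (.ofNat 4045) (.ofNat 3975) (.negSucc 2893) (.ofNat 51395),
  E 2149585921 (.negSucc 328) (.ofNat 1598) (.ofNat 583) (.ofNat 282) (.ofNat 1063) (.ofNat 12784),
  E 2149616128 (.ofNat 271) (.ofNat 323) (.ofNat 393) (.ofNat 1407) (.negSucc 1335) (.ofNat 14059),
  E 2149618688 (.negSucc 328) (.ofNat 1598) (.ofNat 11) (.ofNat 282) (.negSucc 1224) (.ofNat 12784),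
  E 2149619712 (.negSucc 441) (.ofNat 2617) (.ofNat 745) (.ofNat 849) (.negSucc 2485) (.ofNat 24227),
  E 2149648896 (.ofNat 101) (.ofNat 625) (.ofNat 1171) (.ofNat 1029) (.negSucc 711) (.ofNat 12809),
  E 2149652480 (.negSucc 1) (.ofNat 17) (.ofNat 13) (.ofNat 9) (.negSucc 13) (.ofNat 187),
  E 2153776129 (.negSucc 328) (.ofNat 1598) (.ofNat 363) (.ofNat 282) (.ofNat 1123) (.ofNat 12784),
  E 2153808896 (.negSucc 328) (.ofNat 1598) (.negSucc 208) (.ofNat 282) (.negSucc 1164) (.ofNat 12784),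
  E 2153824256 (.negSucc 12) (.ofNat 86) (.negSucc 52) (.ofNat 34) (.negSucc 64) (.ofNat 848),
  E 2154299393 (.negSucc 348) (.ofNat 2617) (.negSucc 830) (.ofNat 1221) (.ofNat 2780) (.ofNat 27389)]

/-- vertices of the polytope: bit mask of the facets containing the vertex, numerators and
denominator of its coordinates -/
def f12 : List (ℕ × V5 × ℤ) := [
  E 2162180096 (.negSucc 10) (.ofNat 158) (.negSucc 193) (.ofNat 114) (.negSucc 54) (.ofNat 1996),
  E 2162688000 (.negSucc 76) (.ofNat 1241) (.negSucc 1222) (.ofNat 933) (.ofNat 1100) (.ofNat 15997),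
  E 2181103652 (.negSucc 53) (.negSucc 8) (.ofNat 31) (.ofNat 18) (.ofNat 9) (.ofNat 459),
  E 2181562373 (.negSucc 165) (.negSucc 75) (.negSucc 35) (.ofNat 297) (.ofNat 366) (.ofNat 3586),
  E 2189426724 (.negSucc 5) (.negSucc 0) (.negSucc 2) (.ofNat 2) (.ofNat 1) (.ofNat 51),
  E 2189950980 (.negSucc 737) (.negSucc 191) (.negSucc 621) (.ofNat 591) (.ofNat 606) (.ofNat 9378),
  E 2214627332 (.negSucc 165) (.negSucc 75) (.ofNat 36) (.ofNat 297) (.negSucc 365) (.ofNat 3586),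
  E 2214641668 (.negSucc 577) (.negSucc 193) (.negSucc 627) (.ofNat 681) (.negSucc 779) (.ofNat 9308),
  E 2214658084 (.negSucc 5) (.negSucc 0) (.ofNat 3) (.ofNat 2) (.negSucc 0) (.ofNat 51),
  E 2214660100 (.negSucc 737) (.negSucc 191) (.ofNat 622) (.ofNat 591) (.negSucc 605) (.ofNat 9378),
  E 2222981156 (.negSucc 53) (.negSucc 8) (.negSucc 30) (.ofNat 18) (.negSucc 8) (.ofNat 459),
  E 2222997508 (.negSucc 777) (.negSucc 169) (.negSucc 719) (.ofNat 461) (.negSucc 411) (.ofNat 8428),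
  E 2415924225 (.negSucc 939) (.ofNat 3290) (.ofNat 1150) (.ofNat 423) (.ofNat 2250) (.ofNat 26320),
  E 2415956992 (.negSucc 939) (.ofNat 3290) (.negSucc 49) (.ofNat 423) (.negSucc 2549) (.ofNat 26320),
  E 2415958016 (.negSucc 2419) (.ofNat 4990) (.ofNat 1130) (.ofNat 741) (.negSucc 5009) (.ofNat 46880),
  E 2415990784 (.negSucc 1959) (.ofNat 3170) (.ofNat 1380) (.ofNat 513) (.negSucc 3069) (.ofNat 32740)]

/-- vertices of the polytope: bit mask of the facets containing the vertex, numerators and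
denominator of its coordinates -/
def f13 : List (ℕ × V5 × ℤ) := [
  E 2420114433 (.negSucc 939) (.ofNat 3290) (.ofNat 820) (.ofNat 423) (.ofNat 2340) (.ofNat 26320),
  E 2420147200 (.negSucc 939) (.ofNat 3290) (.negSucc 379) (.ofNat 423) (.negSucc 2459) (.ofNat 26320),
  E 2420162560 (.negSucc 709) (.ofNat 1360) (.negSucc 669) (.ofNat 207) (.negSucc 1139) (.ofNat 13130),
  E 2420637697 (.negSucc 1674) (.ofNat 2495) (.negSucc 544) (.ofNat 417) (.ofNat 2880) (.ofNat 26695),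
  E 2428518400 (.negSucc 2289) (.ofNat 2880) (.negSucc 2429) (.ofNat 517) (.negSucc 1739) (.ofNat 33310),
  E 2429026304 (.negSucc 1324) (.ofNat 1585) (.negSucc 754) (.ofNat 291) (.ofNat 1760) (.ofNat 18785),
  E 2449539104 (.negSucc 161) (.ofNat 18) (.ofNat 68) (.ofNat 18) (.ofNat 27) (.ofNat 1242),
  E 2449997825 (.negSucc 109) (.ofNat 100) (.negSucc 19) (.ofNat 21) (.ofNat 150) (.ofNat 1370),
  E 2457862176 (.negSucc 161) (.ofNat 18) (.negSucc 55) (.ofNat 18) (.ofNat 27) (.ofNat 1242),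
  E 2458386432 (.negSucc 1289) (.ofNat 900) (.negSucc 529) (.ofNat 219) (.ofNat 1350) (.ofNat 14430),
  E 2483062784 (.negSucc 109) (.ofNat 100) (.ofNat 20) (.ofNat 21) (.negSucc 149) (.ofNat 1370),
  E 2483077120 (.negSucc 169) (.ofNat 120) (.negSucc 89) (.ofNat 29) (.negSucc 179) (.ofNat 1910),
  E 2483093536 (.negSucc 161) (.ofNat 18) (.ofNat 56) (.ofNat 18) (.negSucc 26) (.ofNat 1242),
  E 2483095552 (.negSucc 1289) (.ofNat 900) (.ofNat 530) (.ofNat 219) (.negSucc 1349) (.ofNat 14430),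
  E 2491416608 (.negSucc 161) (.ofNat 18) (.negSucc 67) (.ofNat 18) (.negSucc 26) (.ofNat 1242),
  E 2491432960 (.negSucc 1569) (.ofNat 600) (.negSucc 989) (.ofNat 217) (.negSucc 899) (.ofNat 14590)]

/-- vertices of the polytope: bit mask of the facets containing the vertex, numerators and
denominator of its coordinates -/
def f14 : List (ℕ × V5 × ℤ) := [
  E 3221225989 (.negSucc 179) (.negSucc 238) (.ofNat 883) (.ofNat 1105) (.ofNat 786) (.ofNat 10935),
  E 3221291524 (.negSucc 2263) (.negSucc 1038) (.ofNat 5013) (.ofNat 4063) (.ofNat 1538) (.ofNat 49019),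
  E 3223323137 (.ofNat 188) (.ofNat 177) (.ofNat 771) (.ofNat 929) (.ofNat 578) (.ofNat 9047),
  E 3223326721 (.negSucc 172) (.ofNat 903) (.ofNat 444) (.ofNat 211) (.ofNat 607) (.ofNat 7663),
  E 3223388672 (.ofNat 125) (.ofNat 517) (.ofNat 1321) (.ofNat 1017) (.ofNat 209) (.ofNat 12005),
  E 3223392256 (.negSucc 68) (.ofNat 553) (.ofNat 549) (.ofNat 277) (.ofNat 187) (.ofNat 5949),
  E 3254779909 (.negSucc 577) (.negSucc 193) (.ofNat 628) (.ofNat 681) (.ofNat 780) (.ofNat 9308),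
  E 3254845444 (.negSucc 777) (.negSucc 169) (.ofNat 720) (.ofNat 461) (.ofNat 412) (.ofNat 8428),
  E 3489665025 (.negSucc 349) (.ofNat 1020) (.ofNat 450) (.ofNat 137) (.ofNat 720) (.ofNat 8570),
  E 3489730560 (.negSucc 69) (.ofNat 120) (.ofNat 90) (.ofNat 19) (.ofNat 60) (.ofNat 1210),
  E 3523215361 (.negSucc 169) (.ofNat 120) (.ofNat 90) (.ofNat 29) (.ofNat 180) (.ofNat 1910),
  E 3523280896 (.negSucc 1569) (.ofNat 600) (.ofNat 990) (.ofNat 217) (.ofNat 900) (.ofNat 14590),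
  E 4295000272 (.ofNat 2632) (.negSucc 3135) (.negSucc 398) (.ofNat 1576) (.negSucc 2512) (.ofNat 34104),
  E 4295000464 (.ofNat 376) (.negSucc 383) (.negSucc 162) (.ofNat 216) (.negSucc 300) (.ofNat 4552),
  E 4295000596 (.ofNat 555) (.negSucc 2391) (.negSucc 315) (.ofNat 2603) (.negSucc 2540) (.ofNat 30009),
  E 4295000656 (.ofNat 1869) (.negSucc 3254) (.ofNat 245) (.ofNat 2033) (.negSucc 2883) (.ofNat 34727)]

/-- vertices of the polytope: bit mask of the facets containing the vertex, numerators and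
denominator of its coordinates -/
def f15 : List (ℕ × V5 × ℤ) := [
  E 4295008448 (.ofNat 3416) (.negSucc 1399) (.negSucc 146) (.ofNat 1664) (.negSucc 2148) (.ofNat 30912),
  E 4295008640 (.ofNat 3416) (.negSucc 1847) (.negSucc 1252) (.ofNat 1728) (.negSucc 2050) (.ofNat 33152),
  E 4295008832 (.ofNat 3423) (.negSucc 713) (.ofNat 532) (.ofNat 2236) (.negSucc 2449) (.ofNat 32200),
  E 4297105920 (.ofNat 2949) (.ofNat 226) (.ofNat 76) (.ofNat 3412) (.negSucc 2645) (.ofNat 34776),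
  E 4311752896 (.ofNat 1008) (.negSucc 223) (.ofNat 63) (.ofNat 464) (.negSucc 314) (.ofNat 8176),
  E 4311753088 (.ofNat 1008) (.negSucc 223) (.negSucc 188) (.ofNat 464) (.negSucc 62) (.ofNat 8176),
  E 4311753280 (.ofNat 1988) (.negSucc 153) (.ofNat 448) (.ofNat 1244) (.negSucc 944) (.ofNat 17276),
  E 4313850368 (.ofNat 2380) (.ofNat 252) (.ofNat 474) (.ofNat 1988) (.negSucc 1068) (.ofNat 22428),
  E 4429185217 (.ofNat 376) (.negSucc 383) (.ofNat 163) (.ofNat 216) (.ofNat 301) (.ofNat 4552),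
  E 4429185409 (.ofNat 2632) (.negSucc 3135) (.ofNat 399) (.ofNat 1576) (.ofNat 2513) (.ofNat 34104),
  E 4429185541 (.ofNat 619) (.negSucc 2263) (.ofNat 1728) (.ofNat 3307) (.ofNat 2569) (.ofNat 34681),
  E 4429185601 (.ofNat 161) (.negSucc 174) (.ofNat 161) (.ofNat 165) (.ofNat 154) (.ofNat 2499),
  E 6442451461 (.ofNat 732) (.negSucc 1036) (.ofNat 1909) (.ofNat 5551) (.ofNat 3522) (.ofNat 45933),
  E 6442484228 (.ofNat 732) (.negSucc 1036) (.negSucc 1006) (.ofNat 5551) (.negSucc 3767) (.ofNat 45933),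
  E 6444548609 (.ofNat 366) (.negSucc 60) (.ofNat 497) (.ofNat 1403) (.ofNat 846) (.ofNat 11529),
  E 6444581376 (.ofNat 366) (.negSucc 60) (.negSucc 210) (.ofNat 1403) (.negSucc 923) (.ofNat 11529)]

/-- vertices of the polytope: bit mask of the facets containing the vertex, numerators and
denominator of its coordinates -/
def f16 : List (ℕ × V5 × ℤ) := [
  E 8590002752 (.ofNat 2513) (.ofNat 1442) (.ofNat 5012) (.ofNat 1740) (.negSucc 1329) (.ofNat 40600),
  E 8590065857 (.ofNat 3416) (.negSucc 1847) (.ofNat 1253) (.negSucc 1727) (.ofNat 2051) (.ofNat 33152),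
  E 8590065923 (.ofNat 3423) (.negSucc 713) (.negSucc 531) (.negSucc 2235) (.ofNat 2450) (.ofNat 32200),
  E 8590066049 (.ofNat 3416) (.negSucc 1399) (.ofNat 147) (.negSucc 1663) (.ofNat 2149) (.ofNat 30912),
  E 8590459139 (.ofNat 3535) (.ofNat 182) (.negSucc 1455) (.negSucc 2175) (.ofNat 2926) (.ofNat 34888),
  E 8591050816 (.ofNat 2513) (.ofNat 1442) (.ofNat 5012) (.negSucc 1739) (.negSucc 1329) (.ofNat 40600),
  E 8591114305 (.ofNat 2863) (.negSucc 1441) (.ofNat 2212) (.negSucc 2363) (.ofNat 1946) (.ofNat 33768),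
  E 8592036865 (.negSucc 3) (.ofNat 368) (.ofNat 148) (.ofNat 47) (.ofNat 228) (.ofNat 2944),
  E 8592099840 (.ofNat 761) (.ofNat 778) (.ofNat 1492) (.ofNat 756) (.negSucc 537) (.ofNat 13016),
  E 8592103424 (.ofNat 2112) (.ofNat 3176) (.ofNat 4064) (.ofNat 1477) (.negSucc 1895) (.ofNat 38272),
  E 8596227073 (.ofNat 28) (.ofNat 304) (.ofNat 44) (.ofNat 31) (.ofNat 204) (.ofNat 2432),
  E 8596750337 (.ofNat 2200) (.ofNat 4264) (.negSucc 1863) (.ofNat 1147) (.ofNat 4056) (.ofNat 43424),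
  E 8606714432 (.ofNat 532) (.ofNat 210) (.ofNat 469) (.ofNat 311) (.negSucc 335) (.ofNat 5628),
  E 8606843072 (.ofNat 1008) (.negSucc 223) (.ofNat 189) (.negSucc 463) (.ofNat 63) (.ofNat 8176),
  E 8606843138 (.ofNat 1988) (.negSucc 153) (.negSucc 447) (.negSucc 1243) (.ofNat 945) (.ofNat 17276),
  E 8606843264 (.ofNat 1008) (.negSucc 223) (.negSucc 62) (.negSucc 463) (.ofNat 315) (.ofNat 8176)]

/-- vertices of the polytope: bit mask of the facets containing the vertex, numerators and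
denominator of its coordinates -/
def f17 : List (ℕ × V5 × ℤ) := [
  E 8607236354 (.ofNat 2660) (.ofNat 462) (.negSucc 1350) (.negSucc 1580) (.ofNat 2016) (.ofNat 25788),
  E 8607762496 (.ofNat 532) (.ofNat 210) (.ofNat 469) (.negSucc 310) (.negSucc 335) (.ofNat 5628),
  E 8607891520 (.ofNat 1988) (.negSucc 125) (.ofNat 728) (.negSucc 1275) (.negSucc 230) (.ofNat 17388),
  E 8608811520 (.ofNat 700) (.ofNat 372) (.ofNat 649) (.ofNat 473) (.negSucc 473) (.ofNat 7788),
  E 8608814080 (.ofNat 160) (.ofNat 360) (.ofNat 112) (.ofNat 5) (.negSucc 71) (.ofNat 2880),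
  E 8608815104 (.ofNat 224) (.ofNat 312) (.ofNat 272) (.ofNat 79) (.negSucc 215) (.ofNat 3264),
  E 8613004288 (.ofNat 160) (.ofNat 360) (.negSucc 23) (.ofNat 5) (.ofNat 64) (.ofNat 2880),
  E 8613527552 (.ofNat 1360) (.ofNat 1800) (.negSucc 1211) (.ofNat 515) (.ofNat 1552) (.ofNat 19440),
  E 9126810625 (.negSucc 3) (.ofNat 368) (.ofNat 148) (.negSucc 46) (.ofNat 228) (.ofNat 2944),
  E 9126877184 (.ofNat 2112) (.ofNat 3176) (.ofNat 4064) (.negSucc 1476) (.negSucc 1895) (.ofNat 38272),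
  E 9126936579 (.ofNat 2949) (.ofNat 226) (.negSucc 75) (.negSucc 3411) (.ofNat 2646) (.ofNat 34776),
  E 9127329795 (.ofNat 3925) (.ofNat 1378) (.negSucc 1887) (.negSucc 3423) (.ofNat 3882) (.ofNat 44888),
  E 9127921664 (.ofNat 761) (.ofNat 778) (.ofNat 1492) (.negSucc 755) (.negSucc 537) (.ofNat 13016),
  E 9127985153 (.ofNat 2885) (.ofNat 98) (.ofNat 2276) (.negSucc 4691) (.ofNat 2854) (.ofNat 43992),
  E 9131000833 (.ofNat 28) (.ofNat 304) (.ofNat 44) (.negSucc 30) (.ofNat 204) (.ofNat 2432),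
  E 9131524097 (.ofNat 2200) (.ofNat 4264) (.negSucc 1863) (.negSucc 1146) (.ofNat 4056) (.ofNat 43424)]

/-- vertices of the polytope: bit mask of the facets containing the vertex, numerators and
denominator of its coordinates -/
def f18 : List (ℕ × V5 × ℤ) := [
  E 9143587840 (.ofNat 160) (.ofNat 360) (.ofNat 112) (.negSucc 4) (.negSucc 71) (.ofNat 2880),
  E 9143588864 (.ofNat 224) (.ofNat 312) (.ofNat 272) (.negSucc 78) (.negSucc 215) (.ofNat 3264),
  E 9143713794 (.ofNat 2380) (.ofNat 252) (.negSucc 473) (.negSucc 1987) (.ofNat 1069) (.ofNat 22428),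
  E 9144107010 (.ofNat 3500) (.ofNat 1332) (.negSucc 2018) (.negSucc 2562) (.ofNat 2894) (.ofNat 36828),
  E 9144633344 (.ofNat 700) (.ofNat 372) (.ofNat 649) (.negSucc 472) (.negSucc 473) (.ofNat 7788),
  E 9144762368 (.ofNat 2380) (.ofNat 252) (.ofNat 814) (.negSucc 1987) (.negSucc 218) (.ofNat 22428),
  E 9147778048 (.ofNat 160) (.ofNat 360) (.negSucc 23) (.negSucc 4) (.ofNat 64) (.ofNat 2880),
  E 9148301312 (.ofNat 1360) (.ofNat 1800) (.negSucc 1211) (.negSucc 514) (.ofNat 1552) (.ofNat 19440),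
  E 9663676993 (.ofNat 2387) (.negSucc 993) (.ofNat 4109) (.ofNat 2235) (.ofNat 2065) (.ofNat 39816),
  E 9663742528 (.ofNat 1841) (.ofNat 644) (.ofNat 4634) (.ofNat 1530) (.negSucc 34) (.ofNat 35700),
  E 9664725057 (.ofNat 2387) (.negSucc 993) (.ofNat 4109) (.negSucc 2234) (.ofNat 2065) (.ofNat 39816),
  E 9664790592 (.ofNat 1841) (.ofNat 644) (.ofNat 4634) (.negSucc 1529) (.negSucc 34) (.ofNat 35700),
  E 9665774081 (.ofNat 667) (.ofNat 406) (.ofNat 1549) (.ofNat 1635) (.ofNat 1025) (.ofNat 17256),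
  E 9665777665 (.negSucc 31) (.ofNat 1704) (.ofNat 936) (.ofNat 345) (.ofNat 1080) (.ofNat 14624),
  E 9665839616 (.ofNat 551) (.ofNat 754) (.ofNat 1774) (.ofNat 1080) (.ofNat 125) (.ofNat 15020),
  E 9665843200 (.ofNat 208) (.ofNat 984) (.ofNat 1152) (.ofNat 471) (.ofNat 216) (.ofNat 11072)]

/-- vertices of the polytope: bit mask of the facets containing the vertex, numerators and
denominator of its coordinates -/
def f19 : List (ℕ × V5 × ℤ) := [
  E 10200551425 (.negSucc 31) (.ofNat 1704) (.ofNat 936) (.negSucc 344) (.ofNat 1080) (.ofNat 14624),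
  E 10200616960 (.ofNat 208) (.ofNat 984) (.ofNat 1152) (.negSucc 470) (.ofNat 216) (.ofNat 11072),
  E 10201595905 (.ofNat 667) (.ofNat 406) (.ofNat 1549) (.negSucc 1634) (.ofNat 1025) (.ofNat 17256),
  E 10201661440 (.ofNat 551) (.ofNat 754) (.ofNat 1774) (.negSucc 1079) (.ofNat 125) (.ofNat 15020),
  E 12884902081 (.ofNat 3416) (.negSucc 1847) (.ofNat 1253) (.ofNat 1728) (.ofNat 2051) (.ofNat 33152),
  E 12884902273 (.ofNat 3416) (.negSucc 1399) (.ofNat 147) (.ofNat 1664) (.ofNat 2149) (.ofNat 30912),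
  E 12884902465 (.ofNat 2863) (.negSucc 1441) (.ofNat 2212) (.ofNat 2364) (.ofNat 1946) (.ofNat 33768),
  E 12886999553 (.ofNat 2885) (.ofNat 98) (.ofNat 2276) (.ofNat 4692) (.ofNat 2854) (.ofNat 43992),
  E 12901679296 (.ofNat 1008) (.negSucc 223) (.ofNat 189) (.ofNat 464) (.ofNat 63) (.ofNat 8176),
  E 12901679488 (.ofNat 1008) (.negSucc 223) (.negSucc 62) (.ofNat 464) (.ofNat 315) (.ofNat 8176),
  E 12901679680 (.ofNat 1988) (.negSucc 125) (.ofNat 728) (.ofNat 1276) (.negSucc 230) (.ofNat 17388),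
  E 12903776768 (.ofNat 2380) (.ofNat 252) (.ofNat 814) (.ofNat 1988) (.negSucc 218) (.ofNat 22428),
  E 17179871764 (.negSucc 75) (.negSucc 931) (.ofNat 291) (.ofNat 535) (.negSucc 737) (.ofNat 9320),
  E 17179871824 (.ofNat 224) (.negSucc 741) (.ofNat 189) (.ofNat 367) (.negSucc 615) (.ofNat 7420),
  E 17180000282 (.ofNat 364) (.negSucc 1875) (.negSucc 665) (.negSucc 1399) (.negSucc 362) (.ofNat 18760),
  E 17180000464 (.ofNat 560) (.negSucc 783) (.negSucc 62) (.negSucc 351) (.negSucc 468) (.ofNat 7840)]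

/-- vertices of the polytope: bit mask of the facets containing the vertex, numerators and
denominator of its coordinates -/
def f20 : List (ℕ × V5 × ℤ) := [
  E 17180000530 (.ofNat 56) (.negSucc 125) (.negSucc 55) (.negSucc 75) (.negSucc 20) (.ofNat 1260),
  E 17180000656 (.ofNat 560) (.negSucc 783) (.negSucc 202) (.negSucc 351) (.negSucc 328) (.ofNat 7840),
  E 17180393498 (.negSucc 427) (.negSucc 1107) (.negSucc 932) (.negSucc 424) (.ofNat 486) (.ofNat 11080),
  E 17180393746 (.negSucc 167) (.negSucc 937) (.negSucc 818) (.negSucc 288) (.ofNat 392) (.ofNat 9380),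
  E 17180919832 (.negSucc 75) (.negSucc 931) (.ofNat 291) (.negSucc 534) (.negSucc 737) (.ofNat 9320),
  E 17180919888 (.ofNat 224) (.negSucc 741) (.ofNat 189) (.negSucc 366) (.negSucc 615) (.ofNat 7420),
  E 17181048856 (.ofNat 364) (.negSucc 1875) (.ofNat 78) (.negSucc 1399) (.negSucc 1106) (.ofNat 18760),
  E 17181048912 (.ofNat 784) (.negSucc 1609) (.ofNat 168) (.negSucc 931) (.negSucc 1168) (.ofNat 16100),
  E 17213423668 (.negSucc 167) (.negSucc 191) (.negSucc 81) (.ofNat 15) (.ofNat 28) (.ofNat 1920),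
  E 17213423672 (.negSucc 167) (.negSucc 191) (.negSucc 81) (.negSucc 14) (.ofNat 28) (.ofNat 1920),
  E 17213947924 (.negSucc 183) (.negSucc 303) (.negSucc 245) (.ofNat 75) (.ofNat 140) (.ofNat 3040),
  E 17213947928 (.negSucc 183) (.negSucc 303) (.negSucc 245) (.negSucc 74) (.ofNat 140) (.ofNat 3040),
  E 17246978100 (.negSucc 167) (.negSucc 191) (.negSucc 25) (.ofNat 15) (.negSucc 27) (.ofNat 1920),
  E 17246978104 (.negSucc 167) (.negSucc 191) (.negSucc 25) (.negSucc 14) (.negSucc 27) (.ofNat 1920),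
  E 17246980116 (.negSucc 87) (.negSucc 255) (.ofNat 90) (.ofNat 105) (.negSucc 195) (.ofNat 2560),
  E 17246980120 (.negSucc 87) (.negSucc 255) (.ofNat 90) (.negSucc 104) (.negSucc 195) (.ofNat 2560)]

/-- vertices of the polytope: bit mask of the facets containing the vertex, numerators and
denominator of its coordinates -/
def f21 : List (ℕ × V5 × ℤ) := [
  E 17314089476 (.negSucc 427) (.negSucc 1107) (.ofNat 933) (.ofNat 425) (.negSucc 485) (.ofNat 11080),
  E 17314089536 (.negSucc 167) (.negSucc 937) (.ofNat 819) (.ofNat 289) (.negSucc 391) (.ofNat 9380),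
  E 17314217994 (.ofNat 364) (.negSucc 1875) (.negSucc 77) (.negSucc 1399) (.ofNat 1107) (.ofNat 18760),
  E 17314218176 (.ofNat 560) (.negSucc 783) (.ofNat 203) (.negSucc 351) (.ofNat 329) (.ofNat 7840),
  E 17314218242 (.ofNat 784) (.negSucc 1609) (.negSucc 167) (.negSucc 931) (.ofNat 1169) (.ofNat 16100),
  E 17314218368 (.ofNat 560) (.negSucc 783) (.ofNat 63) (.negSucc 351) (.ofNat 469) (.ofNat 7840),
  E 17314611210 (.negSucc 75) (.negSucc 931) (.negSucc 290) (.negSucc 534) (.ofNat 738) (.ofNat 9320),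
  E 17314611458 (.ofNat 224) (.negSucc 741) (.negSucc 188) (.negSucc 366) (.ofNat 616) (.ofNat 7420),
  E 17315137544 (.negSucc 427) (.negSucc 1107) (.ofNat 933) (.negSucc 424) (.negSucc 485) (.ofNat 11080),
  E 17315137600 (.negSucc 167) (.negSucc 937) (.ofNat 819) (.negSucc 288) (.negSucc 391) (.ofNat 9380),
  E 17315266568 (.ofNat 364) (.negSucc 1875) (.ofNat 666) (.negSucc 1399) (.ofNat 363) (.ofNat 18760),
  E 17315266624 (.ofNat 56) (.negSucc 125) (.ofNat 56) (.negSucc 75) (.ofNat 21) (.ofNat 1260),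
  E 17347641380 (.negSucc 167) (.negSucc 191) (.ofNat 26) (.ofNat 15) (.ofNat 28) (.ofNat 1920),
  E 17347641384 (.negSucc 167) (.negSucc 191) (.ofNat 26) (.negSucc 14) (.ofNat 28) (.ofNat 1920),
  E 17348165636 (.negSucc 87) (.negSucc 255) (.negSucc 89) (.ofNat 105) (.ofNat 196) (.ofNat 2560),
  E 17348165640 (.negSucc 87) (.negSucc 255) (.negSucc 89) (.negSucc 104) (.ofNat 196) (.ofNat 2560)]

/-- vertices of the polytope: bit mask of the facets containing the vertex, numerators and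
denominator of its coordinates -/
def f22 : List (ℕ × V5 × ℤ) := [
  E 17381195812 (.negSucc 167) (.negSucc 191) (.ofNat 82) (.ofNat 15) (.negSucc 27) (.ofNat 1920),
  E 17381195816 (.negSucc 167) (.negSucc 191) (.ofNat 82) (.negSucc 14) (.negSucc 27) (.ofNat 1920),
  E 17381197828 (.negSucc 183) (.negSucc 303) (.ofNat 246) (.ofNat 75) (.negSucc 139) (.ofNat 3040),
  E 17381197832 (.negSucc 183) (.negSucc 303) (.ofNat 246) (.negSucc 74) (.negSucc 139) (.ofNat 3040),
  E 21474836688 (.ofNat 560) (.negSucc 783) (.negSucc 62) (.ofNat 352) (.negSucc 468) (.ofNat 7840),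
  E 21474836880 (.ofNat 560) (.negSucc 783) (.negSucc 202) (.ofNat 352) (.negSucc 328) (.ofNat 7840),
  E 21474837012 (.ofNat 364) (.negSucc 1875) (.ofNat 78) (.ofNat 1400) (.negSucc 1106) (.ofNat 18760),
  E 21474837072 (.ofNat 784) (.negSucc 1609) (.ofNat 168) (.ofNat 932) (.negSucc 1168) (.ofNat 16100),
  E 21609054400 (.ofNat 560) (.negSucc 783) (.ofNat 203) (.ofNat 352) (.ofNat 329) (.ofNat 7840),
  E 21609054592 (.ofNat 560) (.negSucc 783) (.ofNat 63) (.ofNat 352) (.ofNat 469) (.ofNat 7840),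
  E 21609054724 (.ofNat 364) (.negSucc 1875) (.ofNat 666) (.ofNat 1400) (.ofNat 363) (.ofNat 18760),
  E 21609054784 (.ofNat 56) (.negSucc 125) (.ofNat 56) (.ofNat 76) (.ofNat 21) (.ofNat 1260),
  E 34359787540 (.negSucc 608) (.negSucc 1855) (.negSucc 3456) (.ofNat 3558) (.negSucc 2875) (.ofNat 40789),
  E 34359787792 (.ofNat 1561) (.negSucc 1966) (.negSucc 3891) (.ofNat 2010) (.negSucc 2134) (.ofNat 38283),
  E 34359795968 (.ofNat 2387) (.negSucc 993) (.negSucc 4108) (.ofNat 2235) (.negSucc 2064) (.ofNat 39816),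
  E 34361892864 (.ofNat 667) (.ofNat 406) (.negSucc 1548) (.ofNat 1635) (.negSucc 1024) (.ofNat 17256)]

/-- vertices of the polytope: bit mask of the facets containing the vertex, numerators and
denominator of its coordinates -/
def f23 : List (ℕ × V5 × ℤ) := [
  E 34368143380 (.negSucc 1652) (.negSucc 1855) (.negSucc 3924) (.ofNat 2334) (.negSucc 1003) (.ofNat 36217),
  E 34368143632 (.negSucc 76) (.negSucc 1966) (.negSucc 4332) (.ofNat 1137) (.negSucc 370) (.ofNat 34629),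
  E 34368151808 (.ofNat 1841) (.ofNat 644) (.negSucc 4633) (.ofNat 1530) (.ofNat 35) (.ofNat 35700),
  E 34368651284 (.negSucc 2460) (.negSucc 4155) (.negSucc 4810) (.ofNat 1890) (.ofNat 1687) (.ofNat 48205),
  E 34368651536 (.negSucc 748) (.negSucc 2764) (.negSucc 3954) (.ofNat 927) (.ofNat 938) (.ofNat 34937),
  E 34368659712 (.ofNat 2513) (.ofNat 1442) (.negSucc 5011) (.ofNat 1740) (.ofNat 1330) (.ofNat 40600),
  E 34370248704 (.ofNat 551) (.ofNat 754) (.negSucc 1773) (.ofNat 1080) (.negSucc 124) (.ofNat 15020),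
  E 34370756608 (.ofNat 761) (.ofNat 778) (.negSucc 1491) (.ofNat 756) (.ofNat 538) (.ofNat 13016),
  E 34377048320 (.ofNat 532) (.ofNat 210) (.negSucc 468) (.ofNat 311) (.ofNat 336) (.ofNat 5628),
  E 34379145216 (.ofNat 700) (.ofNat 372) (.negSucc 648) (.ofNat 473) (.ofNat 474) (.ofNat 7788),
  E 34494480389 (.negSucc 36) (.negSucc 3383) (.negSucc 463) (.ofNat 2927) (.ofNat 3817) (.ofNat 40521),
  E 34494480641 (.ofNat 251) (.negSucc 592) (.negSucc 112) (.ofNat 329) (.ofNat 554) (.ofNat 6257),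
  E 36507271172 (.negSucc 179) (.negSucc 238) (.negSucc 882) (.ofNat 1105) (.negSucc 785) (.ofNat 10935),
  E 36507746309 (.negSucc 1095) (.negSucc 1284) (.negSucc 902) (.ofNat 5877) (.ofNat 5802) (.ofNat 58921),
  E 36509368320 (.ofNat 188) (.ofNat 177) (.negSucc 770) (.ofNat 929) (.negSucc 577) (.ofNat 9047),
  E 36509843457 (.ofNat 271) (.ofNat 323) (.negSucc 392) (.ofNat 1407) (.ofNat 1336) (.ofNat 14059)]

/-- vertices of the polytope: bit mask of the facets containing the vertex, numerators and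
denominator of its coordinates -/
def f24 : List (ℕ × V5 × ℤ) := [
  E 36515627012 (.negSucc 2263) (.negSucc 1038) (.negSucc 5012) (.ofNat 4063) (.negSucc 1537) (.ofNat 49019),
  E 36516134916 (.negSucc 2839) (.negSucc 1078) (.negSucc 4044) (.ofNat 3975) (.ofNat 2894) (.ofNat 51395),
  E 36517724160 (.ofNat 125) (.ofNat 517) (.negSucc 1320) (.ofNat 1017) (.negSucc 208) (.ofNat 12005),
  E 36518232064 (.ofNat 101) (.ofNat 625) (.negSucc 1170) (.ofNat 1029) (.ofNat 712) (.ofNat 12809),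
  E 38654738452 (.ofNat 619) (.negSucc 2263) (.negSucc 1727) (.ofNat 3307) (.negSucc 2568) (.ofNat 34681),
  E 38654738704 (.ofNat 161) (.negSucc 174) (.negSucc 160) (.ofNat 165) (.negSucc 153) (.ofNat 2499),
  E 38654746880 (.ofNat 2863) (.negSucc 1441) (.negSucc 2211) (.ofNat 2364) (.negSucc 1945) (.ofNat 33768),
  E 38656843776 (.ofNat 2885) (.ofNat 98) (.negSucc 2275) (.ofNat 4692) (.negSucc 2853) (.ofNat 43992),
  E 38671491328 (.ofNat 1988) (.negSucc 125) (.negSucc 727) (.ofNat 1276) (.ofNat 231) (.ofNat 17388),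
  E 38673588224 (.ofNat 2380) (.ofNat 252) (.negSucc 813) (.ofNat 1988) (.ofNat 219) (.ofNat 22428),
  E 38788923397 (.ofNat 555) (.negSucc 2391) (.ofNat 316) (.ofNat 2603) (.ofNat 2541) (.ofNat 30009),
  E 38788923649 (.ofNat 1869) (.negSucc 3254) (.negSucc 244) (.ofNat 2033) (.ofNat 2884) (.ofNat 34727),
  E 40802189317 (.ofNat 732) (.negSucc 1036) (.ofNat 1007) (.ofNat 5551) (.ofNat 3768) (.ofNat 45933),
  E 40802222084 (.ofNat 732) (.negSucc 1036) (.negSucc 1908) (.ofNat 5551) (.negSucc 3521) (.ofNat 45933),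
  E 40804286465 (.ofNat 366) (.negSucc 60) (.ofNat 211) (.ofNat 1403) (.ofNat 924) (.ofNat 11529),
  E 40804319232 (.ofNat 366) (.negSucc 60) (.negSucc 496) (.ofNat 1403) (.negSucc 845) (.ofNat 11529)]

/-- vertices of the polytope: bit mask of the facets containing the vertex, numerators and
denominator of its coordinates -/
def f25 : List (ℕ × V5 × ℤ) := [
  E 42950197505 (.ofNat 3535) (.ofNat 182) (.negSucc 1455) (.ofNat 2176) (.ofNat 2926) (.ofNat 34888),
  E 42952294401 (.ofNat 3925) (.ofNat 1378) (.negSucc 1887) (.ofNat 3424) (.ofNat 3882) (.ofNat 44888),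
  E 42966974720 (.ofNat 2660) (.ofNat 462) (.negSucc 1350) (.ofNat 1581) (.ofNat 2016) (.ofNat 25788),
  E 42969071616 (.ofNat 3500) (.ofNat 1332) (.negSucc 2018) (.ofNat 2563) (.ofNat 2894) (.ofNat 36828),
  E 47244640513 (.ofNat 3423) (.negSucc 713) (.negSucc 531) (.ofNat 2236) (.ofNat 2450) (.ofNat 32200),
  E 47246737409 (.ofNat 2949) (.ofNat 226) (.negSucc 75) (.ofNat 3412) (.ofNat 2646) (.ofNat 34776),
  E 47261417728 (.ofNat 1988) (.negSucc 153) (.negSucc 447) (.ofNat 1244) (.ofNat 945) (.ofNat 17276),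
  E 47263514624 (.ofNat 2380) (.ofNat 252) (.negSucc 473) (.ofNat 1988) (.ofNat 1069) (.ofNat 22428),
  E 51540131860 (.negSucc 427) (.negSucc 1107) (.negSucc 932) (.ofNat 425) (.ofNat 486) (.ofNat 11080),
  E 51540132112 (.negSucc 167) (.negSucc 937) (.negSucc 818) (.ofNat 289) (.ofNat 392) (.ofNat 9380),
  E 51674349572 (.negSucc 75) (.negSucc 931) (.negSucc 290) (.ofNat 535) (.ofNat 738) (.ofNat 9320),
  E 51674349824 (.ofNat 224) (.negSucc 741) (.negSucc 188) (.ofNat 367) (.ofNat 616) (.ofNat 7420),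
  E 55834574868 (.ofNat 364) (.negSucc 1875) (.negSucc 665) (.ofNat 1400) (.negSucc 362) (.ofNat 18760),
  E 55834575120 (.ofNat 56) (.negSucc 125) (.negSucc 55) (.ofNat 76) (.negSucc 20) (.ofNat 1260),
  E 55968792580 (.ofNat 364) (.negSucc 1875) (.negSucc 77) (.ofNat 1400) (.ofNat 1107) (.ofNat 18760),
  E 55968792832 (.ofNat 784) (.negSucc 1609) (.negSucc 167) (.ofNat 932) (.ofNat 1169) (.ofNat 16100)]

/-- all vertices -/
def fct : List (ℕ × V5 × ℤ) :=
  f0 ++ (f1 ++ (f2 ++ (f3 ++ (f4 ++ (f5 ++ (f6 ++ (f7 ++ (f8 ++ (f9 ++ (f10 ++ (f11 ++ (f12 ++ (f13 ++ (f14 ++ (f15 ++ (f16 ++ (f17 ++ (f18 ++ (f19 ++ (f20 ++ (f21 ++ (f22 ++ (f23 ++ (f24 ++ (f25)))))))))))))))))))))))))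

/-- the bit masks of the neighbours -/
def nbr : List ℕ := [
  51447207886,
  26467033369,
  59299711537,
  18498963507,
  55945382894,
  19839385628,
  31290796689,
  30215938385,
  64584605843,
  33439197269,
  11566100481,
  28944216668,
  12635712513,
  39224795074,
  37394620702,
  41682370526,
  12854762092,
  26459021787,
  1994120235,
  63281832223,
  27531913305,
  50495880705,
  11570832385,
  37420294462,
  47789522882,
  20812988477,
  19738773564,
  57010752495,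
  3335380001,
  9695132675,
  11713974861,
  40112872997,
  62430159829,
  40290164675,
  38891293694,
  32374317333]

/-- the graph of `T_Y` -/
def adjY (u v : Fin 36) : Bool := (nbr.getD u 0).testBit v

theorem c1 : chkAll nrm 36 fct = true := by decide +kernel

theorem c2 : chkN (fct.map Prod.fst) 0 nbr = true := by decide +kernel

/-- strictly increasing lists -/
def incr : List ℕ → Bool
  | [] => true
  | [_] => true
  | a :: b :: l => decide (a < b) && incr (b :: l)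

theorem incr_lt : ∀ (l : List ℕ) (a : ℕ), incr (a :: l) = true → ∀ b ∈ l, a < b := by
  intro l
  induction l with
  | nil =>
    intro a _ b hb
    simp at hb
  | cons c l ih =>
    intro a h b hb
    rw [incr, Bool.and_eq_true, decide_eq_true_iff] at h
    rcases List.mem_cons.1 hb with h1 | h1
    · rw [h1]
      exact h.1
    · exact h.1.trans (ih c h.2 b h1)

theorem incr_nodup : ∀ l : List ℕ, incr l = true → l.Nodup := by
  intro l
  induction l with
  | nil =>
    intro _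
    exact List.nodup_nil
  | cons a l ih =>
    intro h
    rw [List.nodup_cons]
    refine ⟨fun h1 => lt_irrefl a (incr_lt l a h a h1), ih ?_⟩
    cases l with
    | nil => rfl
    | cons b l =>
      rw [incr, Bool.and_eq_true] at h
      exact h.2

theorem c3 : (fct.map Prod.fst).Nodup := incr_nodup _ (by decide +kernel)

theorem c4 : clq ((List.range 36).zip nbr) (fct.map Prod.fst) (2 ^ 36 - 1) 0 = true := by
  decide +kernel

/-- `T_Y` is the nerve of a simple polytope. -/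
theorem y36_poly : ∃ P : SPoly 5 (Fin 36), P.Good ∧ ∀ u v, P.adj u v ↔ adjY u v = true :=
  ⟨polyOf 36 nrm, (poly_chk 36 nrm fct nbr rfl rfl c1 c2 c3 c4).1,
    (poly_chk 36 nrm fct nbr rfl rfl c1 c2 c3 c4).2⟩

end Y36

end Pool.LU
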